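import Pool.Agent.Work.MP_f058f1_pr.Stmts

/-!
# Renewal theorem for the clock of the walker
-/

open MeasureTheory ProbabilityTheory Filter Topology

noncomputable section

namespace DynPerc

/-- The deterministic part. -/
theorem clock_det (ξ : ℕ → ℝ) (hpos : ∀ j, 0 < ξ j)
    (hlim : Tendsto (fun n : ℕ => (∑ j ∈ Finset.range n, ξ j) / n) atTop (𝓝 1)) :
    Tendsto (fun t : ℝ => (count ξ t : ℝ) / t) atTop (𝓝 1) := by
  set S : ℕ → ℝ := fun n => ∑ j ∈ Finset.range n, ξ j with hS
  have hmono : Monotone S := by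
    apply monotone_nat_of_le_succ
    intro n
    simp only [hS, Finset.sum_range_succ]
    linarith [hpos n]
  have hSinf : Tendsto S atTop atTop := by
    have h1 : Tendsto (fun n : ℕ => (S n / n) * (n : ℝ)) atTop atTop :=
      Tendsto.pos_mul_atTop one_pos hlim tendsto_natCast_atTop_atTop
    refine h1.congr' ?_
    filter_upwards [eventually_gt_atTop 0] with n hn
    have : (n : ℝ) ≠ 0 := by positivity
    field_simp
  have hne : ∀ t : ℝ, ∃ n : ℕ, t < S (n + 1) := by
    intro t
    obtain ⟨n, hn⟩ := ((hSinf.comp (tendsto_add_atTop_nat 1)).eventually_gt_atTop t).exists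
    exact ⟨n, hn⟩
  have hup : ∀ t : ℝ, t < S (count ξ t + 1) := fun t =>
    Nat.sInf_mem (s := {n : ℕ | t < ∑ j ∈ Finset.range (n + 1), ξ j}) (hne t)
  have hlow : ∀ t : ℝ, 0 ≤ t → S (count ξ t) ≤ t := by
    intro t ht
    rcases Nat.eq_zero_or_pos (count ξ t) with h | h
    · rw [h]
      simpa [hS] using ht
    · by_contra hcon
      have h1 : t < S ((count ξ t - 1) + 1) := by
        rw [Nat.sub_add_cancel h]
        exact not_le.1 hcon
      have h2 : count ξ t ≤ count ξ t - 1 := Nat.sInf_le (m := count ξ t - 1)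
        (s := {n : ℕ | t < ∑ j ∈ Finset.range (n + 1), ξ j}) h1
      omega
  have hN : Tendsto (fun t : ℝ => count ξ t) atTop atTop := by
    rw [tendsto_atTop]
    intro M
    filter_upwards [eventually_ge_atTop (S M)] with t ht
    by_contra hcon
    have h1 : count ξ t + 1 ≤ M := by omega
    have h2 := hup t
    have h3 := hmono h1
    linarith
  have hA : Tendsto (fun t : ℝ => S (count ξ t) / (count ξ t : ℝ)) atTop (𝓝 1) := hlim.comp hN
  have hB : Tendsto (fun t : ℝ => S (count ξ t + 1) / (count ξ t : ℝ)) atTop (𝓝 1) := by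
    have h1 : Tendsto (fun n : ℕ => S (n + 1) / ((n + 1 : ℕ) : ℝ)) atTop (𝓝 1) :=
      hlim.comp (tendsto_add_atTop_nat 1)
    have h2 : Tendsto (fun n : ℕ => (((n + 1 : ℕ) : ℝ)) / (n : ℝ)) atTop (𝓝 1) := by
      have h3 : Tendsto (fun n : ℕ => 1 + (n : ℝ)⁻¹) atTop (𝓝 (1 + 0)) :=
        tendsto_const_nhds.add tendsto_inv_atTop_nhds_zero_nat
      rw [add_zero] at h3
      refine h3.congr' ?_
      filter_upwards [eventually_gt_atTop 0] with n hn
      have : (n : ℝ) ≠ 0 := by positivity
      push_cast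
      field_simp
    have h4 := h1.mul h2
    rw [mul_one] at h4
    have h5 : Tendsto (fun n : ℕ => S (n + 1) / (n : ℝ)) atTop (𝓝 1) := by
      refine h4.congr ?_
      intro n
      have : ((n + 1 : ℕ) : ℝ) ≠ 0 := by positivity
      field_simp
    exact h5.comp hN
  have hC : Tendsto (fun t : ℝ => t / (count ξ t : ℝ)) atTop (𝓝 1) := by
    refine tendsto_of_tendsto_of_tendsto_of_le_of_le' hA hB ?_ ?_
    · filter_upwards [eventually_ge_atTop 0] with t ht
      exact div_le_div_of_nonneg_right (hlow t ht) (Nat.cast_nonneg _)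
    · filter_upwards with t
      exact div_le_div_of_nonneg_right (hup t).le (Nat.cast_nonneg _)
  have hD := hC.inv₀ one_ne_zero
  rw [inv_one] at hD
  refine hD.congr ?_
  intro t
  rw [inv_div]

/-- The first moment of the exponential law. -/
theorem clock_mean : Integrable (fun g : ℝ => g) clockLaw ∧ ∫ g, g ∂clockLaw = 1 := by
  have hpdf : clockLaw = volume.withDensity (exponentialPDF 1) := rfl
  have hm : Measurable (exponentialPDF 1) := by
    unfold exponentialPDF
    exact (measurable_exponentialPDFReal 1).ennreal_ofReal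
  have hlt : ∀ᵐ x ∂(volume : Measure ℝ), exponentialPDF 1 x < ⊤ :=
    Eventually.of_forall fun x => by
      unfold exponentialPDF
      exact ENNReal.ofReal_lt_top
  have e : (fun g : ℝ => g * (exponentialPDF 1 g).toReal) =
      Set.indicator (Set.Ioi (0:ℝ)) (fun g => Real.exp (-g) * g ^ ((2 : ℝ) - 1)) := by
    funext g
    have h21 : ((2 : ℝ) - 1) = 1 := by norm_num
    by_cases hg : 0 < g
    · rw [exponentialPDF_of_nonneg hg.le, Set.indicator_of_mem (by exact hg : g ∈ Set.Ioi (0:ℝ)),
        ENNReal.toReal_ofReal (by positivity), h21, Real.rpow_one, one_mul, one_mul]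
      ring
    · rw [Set.indicator_of_notMem (by simpa using hg)]
      rcases eq_or_lt_of_le (not_lt.1 hg) with h | h
      · rw [h, zero_mul]
      · rw [exponentialPDF_of_neg h]
        simp
  have hI : IntegrableOn (fun g : ℝ => Real.exp (-g) * g ^ ((2 : ℝ) - 1)) (Set.Ioi 0) :=
    Real.GammaIntegral_convergent (by norm_num)
  constructor
  · rw [hpdf, integrable_withDensity_iff hm hlt, e, integrable_indicator_iff measurableSet_Ioi]
    exact hI
  · rw [hpdf, integral_withDensity_eq_integral_toReal_smul hm hlt]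
    have e2 : ∀ g : ℝ, (exponentialPDF 1 g).toReal • g =
        Set.indicator (Set.Ioi (0:ℝ)) (fun g => Real.exp (-g) * g ^ ((2 : ℝ) - 1)) g := by
      intro g
      rw [← e, smul_eq_mul, mul_comm]
    simp_rw [e2]
    rw [integral_indicator measurableSet_Ioi, ← Real.Gamma_eq_integral (by norm_num),
      Real.Gamma_two]

/-- Item C3. -/
theorem claimClock : ClaimClock := by
  intro d ν
  have hmp : ∀ j : ℕ, MeasurePreserving (fun w : ℕ → ℝ × Dir d => w j) (walkLaw ν)
      (clockLaw.prod (dirLaw ν)) := fun j => by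
    unfold walkLaw
    exact measurePreserving_eval_infinitePi (fun _ : ℕ => clockLaw.prod (dirLaw ν)) j
  have hmp1 : ∀ j : ℕ, MeasurePreserving (fun w : ℕ → ℝ × Dir d => (w j).1) (walkLaw ν)
      clockLaw := fun j => measurePreserving_fst.comp (hmp j)
  have hpos : ∀ᵐ w ∂(walkLaw ν), ∀ j : ℕ, 0 < (w j).1 := by
    rw [ae_all_iff]
    intro j
    exact (hmp1 j).quasiMeasurePreserving.ae clock_ae_pos
  have hint : Integrable (fun w : ℕ → ℝ × Dir d => (w 0).1) (walkLaw ν) :=
    (hmp1 0).integrable_comp_of_integrable clock_mean.1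
  have hmean : ∫ w : ℕ → ℝ × Dir d, (w 0).1 ∂(walkLaw ν) = 1 := by
    have h1 := (hmp1 0).map_eq
    have h2 := clock_mean.2
    rw [← h1, integral_map (hmp1 0).measurable.aemeasurable
      (by rw [h1]; exact clock_mean.1.aestronglyMeasurable)] at h2
    exact h2
  have hind : iIndepFun (fun (j : ℕ) (w : ℕ → ℝ × Dir d) => (w j).1) (walkLaw ν) := by
    unfold walkLaw
    exact iIndepFun_infinitePi (P := fun _ : ℕ => clockLaw.prod (dirLaw ν))
      (X := fun _ q => q.1) (fun _ => measurable_fst)
  have hid : ∀ j : ℕ, IdentDistrib (fun w : ℕ → ℝ × Dir d => (w j).1)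
      (fun w : ℕ → ℝ × Dir d => (w 0).1) (walkLaw ν) (walkLaw ν) := fun j =>
    ⟨(hmp1 j).measurable.aemeasurable, (hmp1 0).measurable.aemeasurable, by
      rw [(hmp1 j).map_eq, (hmp1 0).map_eq]⟩
  have hlln := strong_law_ae_real (fun (j : ℕ) (w : ℕ → ℝ × Dir d) => (w j).1) hint
    (fun i j hij => hind.indepFun hij) hid
  filter_upwards [hpos, hlln] with w hw1 hw2
  rw [hmean] at hw2
  exact clock_det (fun j => (w j).1) hw1 hw2

end DynPerc
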