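import Pool.Agent.Work.MP_f058f1_pr.Stmts

/-!
# Item A2 of MP_f058f1_pr: contraction uniformly in the directions
-/

open MeasureTheory ProbabilityTheory Filter Topology

noncomputable section

namespace DynPerc

variable {d : ℕ}

lemma ctr_alg {P1 P2 A B A' B' c φ D : ℝ} (h0 : 0 ≤ P2) (h1 : P1 ≤ 1) (hle : P2 ≤ P1)
    (hd : P1 - P2 ≤ D) (hφ : φ ≤ 1) (hc : 0 ≤ c) (hA : |A - A'| ≤ c * φ)
    (hB : |B - B'| ≤ c * φ) (hAB : |A - B'| ≤ c) :
    |P1 * A + (1 - P1) * B - (P2 * A' + (1 - P2) * B')| ≤ c * (D + (1 - D) * φ) := by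
  have e : P1 * A + (1 - P1) * B - (P2 * A' + (1 - P2) * B') =
      P2 * (A - A') + (1 - P1) * (B - B') + (P1 - P2) * (A - B') := by ring
  rw [e]
  have a1 : |P2 * (A - A')| ≤ P2 * (c * φ) := by
    rw [abs_mul, abs_of_nonneg h0]; exact mul_le_mul_of_nonneg_left hA h0
  have a2 : |(1 - P1) * (B - B')| ≤ (1 - P1) * (c * φ) := by
    rw [abs_mul, abs_of_nonneg (sub_nonneg.2 h1)]
    exact mul_le_mul_of_nonneg_left hB (sub_nonneg.2 h1)
  have a3 : |(P1 - P2) * (A - B')| ≤ (P1 - P2) * c := by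
    rw [abs_mul, abs_of_nonneg (sub_nonneg.2 hle)]
    exact mul_le_mul_of_nonneg_left hAB (sub_nonneg.2 hle)
  have a4 : |P2 * (A - A') + (1 - P1) * (B - B') + (P1 - P2) * (A - B')| ≤
      P2 * (c * φ) + (1 - P1) * (c * φ) + (P1 - P2) * c :=
    (abs_add_le _ _).trans (add_le_add ((abs_add_le _ _).trans (add_le_add a1 a2)) a3)
  refine a4.trans ?_
  have a5 : 0 ≤ c * (1 - φ) * (D - (P1 - P2)) :=
    mul_nonneg (mul_nonneg hc (sub_nonneg.2 hφ)) (sub_nonneg.2 hd)
  nlinarith [a5]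

lemma ctr_phi_mem {K : ℕ} {G : ℝ} (hG : G ∈ Set.Icc (0 : ℝ) 1) :
    0 ≤ phi K G ∧ phi K G ≤ 1 := by
  have h1 : 0 ≤ (1 - G) ^ K := pow_nonneg (by linarith [hG.2]) K
  have h2 : (1 - G) ^ K ≤ 1 := pow_le_one₀ (by linarith [hG.2]) (by linarith [hG.1])
  unfold phi
  constructor <;> linarith

lemma ctr_phi_ge {K : ℕ} (hK : 1 ≤ K) {G : ℝ} (hG : G ∈ Set.Icc (0 : ℝ) 1) : G ≤ phi K G := by
  have h2 : (1 - G) ^ K ≤ 1 - G :=
    pow_le_of_le_one (by linarith [hG.2]) (by linarith [hG.1]) (by omega)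
  unfold phi
  linarith

lemma ctr_rel_one {P : Par} {S S' : St d} (hS : Valid P S) (hS' : Valid P S') :
    Rel P 1 S S' := by
  intro e
  right
  have h1 := hS e
  have h2 := hS' e
  refine ⟨⟨?_, ?_⟩, ?_, ?_⟩ <;> linarith [h1.1, h1.2, h2.1, h2.2]

lemma ctr_rel_abs {P : Par} {G : ℝ} (hG : 0 ≤ G) {S S' : St d} (h : Rel P G S S') (e : Edge d) :
    |S e - S' e| ≤ G := by
  rcases h e with h | ⟨⟨h1, h2⟩, h3, h4⟩
  · rw [h]; simpa using hG
  · rw [abs_le]; constructor <;> nlinarith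

lemma ctr_rel_next {P : Par} {G : ℝ} {S S' : St d} (h : Rel P G S S') (a : Dir d) {g : ℝ}
    (o : Bool) : Rel P (G * Real.exp (-(P.mu * g))) (next P S a g o) (next P S' a g o) := by
  intro e
  unfold next
  by_cases he : ((e.1 + if o then stepVec a else 0, e.2) : Edge d) = edgeOf 0 a
  · left; rw [if_pos he, if_pos he]
  · rw [if_neg he, if_neg he]
    rcases h (e.1 + if o then stepVec a else 0, e.2) with h | ⟨⟨h1, h2⟩, h3, h4⟩
    · left; rw [h]
    · right
      have hE := Real.exp_pos (-(P.mu * g))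
      refine ⟨⟨?_, ?_⟩, ?_, ?_⟩
      · have := mul_le_mul_of_nonneg_left h1 hE.le; linarith
      · have := mul_le_mul_of_nonneg_left h2 hE.le; linarith
      · have := mul_le_mul_of_nonneg_left h3 hE.le; linarith
      · have := mul_le_mul_of_nonneg_left h4 hE.le; linarith

lemma ctr_rel_symm {P : Par} {G : ℝ} {S S' : St d} (h : Rel P G S S') : Rel P G S' S := by
  intro e
  rcases h e with h | ⟨h1, h2⟩
  · exact Or.inl h.symm
  · exact Or.inr ⟨h2, h1⟩

lemma ctr_step_vec (b : Dir d) (i : Fin (d + 1)) : |(stepVec b i : ℝ)| ≤ 1 := by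
  unfold stepVec
  by_cases h : i = b.1
  · subst h
    split_ifs <;> simp
  · split_ifs <;> simp [Pi.single_eq_of_ne h]

lemma ctr_bd_hh {P : Par} {K : ℕ} (hK : 1 ≤ K) (i : Fin (d + 1)) (b : Dir d) :
    Bd P K (hh P i b) 1 := by
  intro G hG S S' _ _ hR
  have hmu := P.mu_pos
  have hca0 : 0 ≤ ca P := by unfold ca; positivity
  have hca1 : ca P ≤ 1 := by
    unfold ca
    rw [div_le_one (by linarith)]
    linarith
  have e : hh P i b S - hh P i b S' = (stepVec b i : ℝ) * (ca P * (S (edgeOf 0 b) -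
      S' (edgeOf 0 b))) := by unfold hh; ring
  rw [e, abs_mul, abs_mul, abs_of_nonneg hca0, one_mul]
  have h1 := ctr_step_vec b i
  have h2 := ctr_rel_abs hG.1 hR (edgeOf 0 b)
  have h3 := ctr_phi_ge hK hG
  calc |(stepVec b i : ℝ)| * (ca P * |S (edgeOf 0 b) - S' (edgeOf 0 b)|)
      ≤ 1 * (1 * G) := by
        refine mul_le_mul h1 (mul_le_mul hca1 h2 (abs_nonneg _) zero_le_one)
          (mul_nonneg hca0 (abs_nonneg _)) zero_le_one
    _ ≤ phi K G := by linarith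

lemma ctr_point_aux {P : Par} {K : ℕ} (hK : 1 ≤ K) {f : St d → ℝ} {c : ℝ} (hc : 0 ≤ c)
    (hf : Bd P K f c) (a : Dir d) {G : ℝ} (hG : G ∈ Set.Icc (0 : ℝ) 1) {S S' : St d}
    (hS : Valid P S) (hS' : Valid P S') (hR : Rel P G S S') {g : ℝ} (hg : 0 < g)
    (hle : pOpen P S' a g ≤ pOpen P S a g) :
    |integrand P a (fun _ => f) 0 S g - integrand P a (fun _ => f) 0 S' g| ≤
      c * (G * Real.exp (-(P.mu * g)) +
        (1 - G * Real.exp (-(P.mu * g))) * phi K (G * Real.exp (-(P.mu * g)))) := by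
  obtain ⟨hE0, hE1⟩ := exp_mem (P := P) hg.le
  have hGE : G * Real.exp (-(P.mu * g)) ∈ Set.Icc (0 : ℝ) 1 :=
    ⟨mul_nonneg hG.1 hE0.le, mul_le_one₀ hG.2 hE0.le hE1⟩
  obtain ⟨p0, p1⟩ := pOpen_mem hS a hg.le
  obtain ⟨q0, q1⟩ := pOpen_mem hS' a hg.le
  obtain ⟨f0, f1⟩ := ctr_phi_mem (K := K) hGE
  unfold integrand
  refine ctr_alg q0 p1 hle ?_ f1 hc ?_ ?_ ?_
  · have h1 := ctr_rel_abs hG.1 hR (edgeOf 0 a)
    have h2 := (abs_le.1 h1).2
    have h3 := mul_le_mul_of_nonneg_right h2 hE0.le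
    unfold pOpen
    linarith
  · exact hf _ hGE _ _ (next_valid hS a hg.le true) (next_valid hS' a hg.le true)
      (ctr_rel_next hR a true)
  · exact hf _ hGE _ _ (next_valid hS a hg.le false) (next_valid hS' a hg.le false)
      (ctr_rel_next hR a false)
  · have h := hf 1 ⟨zero_le_one, le_rfl⟩ _ _ (next_valid hS a hg.le true)
      (next_valid hS' a hg.le false)
      (ctr_rel_one (next_valid hS a hg.le true) (next_valid hS' a hg.le false))
    have e1 : phi K 1 = 1 := by unfold phi; simp [show K ≠ 0 by omega]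
    rwa [e1, mul_one] at h

lemma ctr_point {P : Par} {K : ℕ} (hK : 1 ≤ K) {f : St d → ℝ} {c : ℝ} (hc : 0 ≤ c)
    (hf : Bd P K f c) (a : Dir d) {G : ℝ} (hG : G ∈ Set.Icc (0 : ℝ) 1) {S S' : St d}
    (hS : Valid P S) (hS' : Valid P S') (hR : Rel P G S S') {g : ℝ} (hg : 0 < g) :
    |integrand P a (fun _ => f) 0 S g - integrand P a (fun _ => f) 0 S' g| ≤
      c * (G * Real.exp (-(P.mu * g)) +
        (1 - G * Real.exp (-(P.mu * g))) * phi K (G * Real.exp (-(P.mu * g)))) := by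
  rcases le_total (pOpen P S' a g) (pOpen P S a g) with h | h
  · exact ctr_point_aux hK hc hf a hG hS hS' hR hg h
  · rw [abs_sub_comm]
    exact ctr_point_aux hK hc hf a hG hS' hS (ctr_rel_symm hR) hg h

/-- Item A2. -/
theorem claimContr : ClaimContr := by
  intro P d K ρ hPhi
  obtain ⟨hK, hρ0, hρ1, hI⟩ := hPhi
  refine ⟨fun i b => ctr_bd_hh hK i b, ?_⟩
  intro f c hc hreg hf a G hG S S' hS hS' hR
  have i1 : Integrable (integrand P a (fun _ => f) 0 S) clockLaw :=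
    integrable_integrand 0 hreg hreg hS
  have i2 : Integrable (integrand P a (fun _ => f) 0 S') clockLaw :=
    integrable_integrand 0 hreg hreg hS'
  have i3 : Integrable (fun g => G * Real.exp (-(P.mu * g)) +
      (1 - G * Real.exp (-(P.mu * g))) * phi K (G * Real.exp (-(P.mu * g)))) clockLaw := by
    refine integrable_clock_of_bound (by unfold phi; fun_prop) (C := 1) fun g hg => ?_
    obtain ⟨hE0, hE1⟩ := exp_mem (P := P) hg.le
    have hGE : G * Real.exp (-(P.mu * g)) ∈ Set.Icc (0 : ℝ) 1 :=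
      ⟨mul_nonneg hG.1 hE0.le, mul_le_one₀ hG.2 hE0.le hE1⟩
    obtain ⟨f0, f1⟩ := ctr_phi_mem (K := K) hGE
    rw [abs_le]
    constructor
    · nlinarith [hGE.1, hGE.2, mul_nonneg (sub_nonneg.2 hGE.2) f0]
    · nlinarith [hGE.1, hGE.2, mul_nonneg (sub_nonneg.2 hGE.2) (sub_nonneg.2 f1)]
  have e : opT P a f S - opT P a f S' =
      ∫ g, (integrand P a (fun _ => f) 0 S g - integrand P a (fun _ => f) 0 S' g) ∂clockLaw := by
    rw [integral_sub i1 i2]
    rfl
  rw [e]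
  calc |∫ g, (integrand P a (fun _ => f) 0 S g - integrand P a (fun _ => f) 0 S' g) ∂clockLaw|
      ≤ ∫ g, |integrand P a (fun _ => f) 0 S g - integrand P a (fun _ => f) 0 S' g|
          ∂clockLaw := abs_integral_le_integral_abs
    _ ≤ ∫ g, c * (G * Real.exp (-(P.mu * g)) +
        (1 - G * Real.exp (-(P.mu * g))) * phi K (G * Real.exp (-(P.mu * g)))) ∂clockLaw := by
        refine integral_mono_ae (i1.sub i2).abs (i3.const_mul c) ?_
        filter_upwards [clock_ae_pos] with g hg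
        exact ctr_point hK hc hf a hG hS hS' hR hg
    _ = c * ∫ g, (G * Real.exp (-(P.mu * g)) +
        (1 - G * Real.exp (-(P.mu * g))) * phi K (G * Real.exp (-(P.mu * g)))) ∂clockLaw :=
        integral_const_mul _ _
    _ ≤ c * (ρ * phi K G) := mul_le_mul_of_nonneg_left (hI G hG) hc
    _ = ρ * c * phi K G := by ring

end DynPerc
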