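import Pool.Agent.Work.MP_f058f1_pr.Stmts

/-!
# Item B1 of MP_f058f1_pr: finite dimensional distributions of one edge
-/

open MeasureTheory ProbabilityTheory Filter Topology

noncomputable section

namespace DynPerc

/-- Partial sums of the gaps. -/
def elS (c : ℕ → ℝ × Bool) (n : ℕ) : ℝ := ∑ j ∈ Finset.range n, (c j).1

/-- Number of rings. -/
def elC (c : ℕ → ℝ × Bool) (t : ℝ) : ℕ := count (fun j => (c j).1) t

lemma elC_eq (c : ℕ → ℝ × Bool) (t : ℝ) : elC c t = sInf {n | t < elS c (n + 1)} := rfl

lemma el_state (c : ℕ → ℝ × Bool) (t : ℝ) : edgeState c t = (c (elC c t)).2 := rfl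

/-! ### Resampling one coordinate -/

lemma el_map_update {X : Type*} [MeasurableSpace X] (κ : Measure X) [IsProbabilityMeasure κ]
    (n : ℕ) :
    Measure.map (fun q : X × (ℕ → X) => Function.update q.2 n q.1)
      (κ.prod (Measure.infinitePi fun _ : ℕ => κ)) = Measure.infinitePi fun _ : ℕ => κ := by
  classical
  have hmeas : Measurable (fun q : X × (ℕ → X) => Function.update q.2 n q.1) := by
    refine measurable_pi_lambda _ fun i => ?_
    by_cases h : i = n
    · subst h
      simpa using measurable_fst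
    · simp only [Function.update_of_ne h]
      exact (measurable_pi_apply i).comp measurable_snd
  refine Measure.eq_infinitePi _ ?_
  intro s t ht
  rw [Measure.map_apply hmeas (MeasurableSet.pi s.countable_toSet fun i _ => ht i)]
  by_cases hn : n ∈ s
  · have e : (fun q : X × (ℕ → X) => Function.update q.2 n q.1) ⁻¹' (Set.pi s t) =
        (t n) ×ˢ (Set.pi (s.erase n : Finset ℕ) t) := by
      ext q
      simp only [Set.mem_preimage, Set.mem_pi, Finset.mem_coe, Set.mem_prod, Finset.mem_erase]
      constructor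
      · intro h
        refine ⟨by simpa using h n hn, fun i hi => ?_⟩
        simpa [Function.update_of_ne hi.1] using h i hi.2
      · rintro ⟨h1, h2⟩ i hi
        by_cases hin : i = n
        · subst hin; simpa using h1
        · simpa [Function.update_of_ne hin] using h2 i ⟨hin, hi⟩
    rw [e, Measure.prod_prod, Measure.infinitePi_pi _ (fun i _ => ht i),
      Finset.mul_prod_erase s (fun i => κ (t i)) hn]
  · have e : (fun q : X × (ℕ → X) => Function.update q.2 n q.1) ⁻¹' (Set.pi s t) =
        Set.univ ×ˢ (Set.pi s t) := by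
      ext q
      simp only [Set.mem_preimage, Set.mem_pi, Finset.mem_coe, Set.mem_prod, Set.mem_univ,
        true_and]
      refine forall₂_congr fun i hi => ?_
      have hin : i ≠ n := fun h => hn (h ▸ hi)
      rw [Function.update_of_ne hin]
    rw [e, Measure.prod_prod, Measure.infinitePi_pi _ (fun i _ => ht i), measure_univ, one_mul]

lemma el_measurable_update {X : Type*} [MeasurableSpace X] (n : ℕ) :
    Measurable (fun q : X × (ℕ → X) => Function.update q.2 n q.1) := by
  refine measurable_pi_lambda _ fun i => ?_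
  by_cases h : i = n
  · subst h
    simpa using measurable_fst
  · simp only [Function.update_of_ne h]
    exact (measurable_pi_apply i).comp measurable_snd

lemma el_resample {X : Type*} [MeasurableSpace X] (κ : Measure X) [IsProbabilityMeasure κ]
    (n : ℕ) {B : Set (ℕ → X)} (hB : MeasurableSet B) :
    Measure.infinitePi (fun _ : ℕ => κ) B =
      ∫⁻ c, κ {x | Function.update c n x ∈ B} ∂(Measure.infinitePi fun _ : ℕ => κ) := by
  conv_lhs => rw [← el_map_update κ n]
  rw [Measure.map_apply (el_measurable_update n) hB,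
    Measure.prod_apply_symm ((el_measurable_update n) hB)]
  rfl

/-! ### The exponential law -/

lemma el_gap_Iic (P : Par) {a : ℝ} (ha : 0 ≤ a) :
    gapLaw P (Set.Iic a) = ENNReal.ofReal (1 - Real.exp (-(P.mu * a))) := by
  have h := cdf_expMeasure_eq P.mu_pos a
  have := isProbabilityMeasure_expMeasure P.mu_pos
  rw [cdf_eq_real, if_pos ha] at h
  rw [← h, gapLaw, measureReal_def, ENNReal.ofReal_toReal (measure_ne_top _ _)]

lemma el_gap_Ioi (P : Par) {a : ℝ} (ha : 0 ≤ a) :
    gapLaw P (Set.Ioi a) = ENNReal.ofReal (Real.exp (-(P.mu * a))) := by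
  have h1 : Real.exp (-(P.mu * a)) ≤ 1 :=
    Real.exp_le_one_iff.2 (by have := mul_nonneg P.mu_pos.le ha; linarith)
  rw [← Set.compl_Iic, prob_compl_eq_one_sub measurableSet_Iic, el_gap_Iic P ha,
    ← ENNReal.ofReal_one, ← ENNReal.ofReal_sub _ (by linarith)]
  congr 1
  ring

lemma el_gap_pos (P : Par) : ∀ᵐ g ∂gapLaw P, 0 < g := by
  have hm : {g : ℝ | ¬ 0 < g} = Set.Iic 0 := by ext; simp
  rw [ae_iff, hm, el_gap_Iic P le_rfl]
  simp

/-! ### Almost surely the gaps are positive and their sums are unbounded -/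

lemma el_ae_pos (P : Par) : ∀ᵐ c ∂edgeLaw P, ∀ j : ℕ, 0 < (c j).1 := by
  rw [ae_all_iff]
  intro j
  have h := measurePreserving_eval_infinitePi
    (fun _ : ℕ => (gapLaw P).prod (ber P)) j
  have h1 : ∀ᵐ x ∂((gapLaw P).prod (ber P)), 0 < x.1 := by
    have := (Measure.quasiMeasurePreserving_fst (μ := gapLaw P) (ν := ber P)).ae (el_gap_pos P)
    exact this
  exact h.quasiMeasurePreserving.ae h1

lemma el_ae_big (P : Par) : ∀ᵐ c ∂edgeLaw P, ∀ K : ℕ, ∃ j : ℕ, (K : ℝ) < (c j).1 := by
  rw [ae_all_iff]
  intro K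
  have e : {c : ℕ → ℝ × Bool | ¬ ∃ j : ℕ, (K : ℝ) < (c j).1} =
      ⋂ n : ℕ, {c : ℕ → ℝ × Bool | ∀ j < n, (c j).1 ≤ K} := by
    ext c
    simp only [Set.mem_ofPred_eq, not_exists, not_lt, Set.mem_iInter]
    exact ⟨fun h n j _ => h j, fun h j => h (j + 1) j (Nat.lt_succ_self j)⟩
  rw [ae_iff, e]
  set q : ENNReal := ENNReal.ofReal (1 - Real.exp (-(P.mu * K))) with hq
  have hq1 : q < 1 := by
    rw [hq, ENNReal.ofReal_lt_one]
    have := Real.exp_pos (-(P.mu * K))
    linarith
  have hb : ∀ n : ℕ, edgeLaw P {c : ℕ → ℝ × Bool | ∀ j < n, (c j).1 ≤ K} = q ^ n := by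
    intro n
    have e2 : {c : ℕ → ℝ × Bool | ∀ j < n, (c j).1 ≤ K} =
        Set.pi (Finset.range n : Finset ℕ) (fun _ => (Set.Iic (K : ℝ)) ×ˢ (Set.univ : Set Bool)) := by
      ext c
      simp [Set.mem_pi]
    rw [e2, edgeLaw, Measure.infinitePi_pi _
      (fun i _ => measurableSet_Iic.prod MeasurableSet.univ), Finset.prod_const,
      Finset.card_range, Measure.prod_prod, measure_univ, mul_one,
      el_gap_Iic P (Nat.cast_nonneg K)]
  refine le_antisymm ?_ bot_le
  refine ge_of_tendsto' (ENNReal.tendsto_pow_atTop_nhds_zero_of_lt_one hq1) fun n => ?_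
  rw [← hb n]
  exact measure_mono (Set.iInter_subset _ n)

/-- The good sequences of inputs. -/
def elGood (c : ℕ → ℝ × Bool) : Prop := (∀ j : ℕ, 0 < (c j).1) ∧ ∀ t : ℝ, ∃ n, t < elS c (n + 1)

lemma el_ae_good (P : Par) : ∀ᵐ c ∂edgeLaw P, elGood c := by
  filter_upwards [el_ae_pos P, el_ae_big P] with c h1 h2
  refine ⟨h1, fun t => ?_⟩
  obtain ⟨K, hK⟩ := exists_nat_gt t
  obtain ⟨j, hj⟩ := h2 K
  refine ⟨j, hK.trans (hj.trans_le ?_)⟩
  unfold elS
  rw [Finset.sum_range_succ]
  have : 0 ≤ ∑ x ∈ Finset.range j, (c x).1 := Finset.sum_nonneg fun x _ => (h1 x).le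
  linarith

/-! ### The counting function -/

lemma elC_le {c : ℕ → ℝ × Bool} {t : ℝ} {n : ℕ} (h : t < elS c (n + 1)) : elC c t ≤ n :=
  Nat.sInf_le h

lemma elC_spec {c : ℕ → ℝ × Bool} {t : ℝ} (h : ∃ n, t < elS c (n + 1)) :
    t < elS c (elC c t + 1) := Nat.sInf_mem (s := {n | t < elS c (n + 1)}) h

lemma elC_mono {c : ℕ → ℝ × Bool} {s t : ℝ} (hst : s ≤ t) (h : ∃ n, t < elS c (n + 1)) :
    elC c s ≤ elC c t := elC_le (hst.trans_lt (elC_spec h))

lemma elC_eq_iff {c : ℕ → ℝ × Bool} {t : ℝ} (h : ∃ n, t < elS c (n + 1)) (n : ℕ) :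
    elC c t = n ↔ (∀ m < n, elS c (m + 1) ≤ t) ∧ t < elS c (n + 1) := by
  constructor
  · rintro rfl
    refine ⟨fun m hm => ?_, elC_spec h⟩
    by_contra hc
    exact absurd (elC_le (not_le.mp hc)) (not_le.mpr hm)
  · rintro ⟨h1, h2⟩
    refine le_antisymm (elC_le h2) ?_
    by_contra hc
    exact absurd (elC_spec h) (not_lt.mpr (h1 _ (not_le.mp hc)))

/-- The event that there are exactly `n` rings up to time `t`. -/
def elE (n : ℕ) (t : ℝ) : Set (ℕ → ℝ × Bool) :=
  {c | (∀ m < n, elS c (m + 1) ≤ t) ∧ t < elS c (n + 1)}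

lemma elE_count {c : ℕ → ℝ × Bool} {n : ℕ} {t : ℝ} (h : c ∈ elE n t) : elC c t = n :=
  (elC_eq_iff ⟨n, h.2⟩ n).2 h

lemma el_measurable_S (n : ℕ) : Measurable fun c : ℕ → ℝ × Bool => elS c n := by
  unfold elS
  exact Finset.measurable_sum _ fun j _ => measurable_fst.comp (measurable_pi_apply j)

lemma el_measurable_E (n : ℕ) (t : ℝ) : MeasurableSet (elE n t) := by
  have e : elE n t = (⋂ m ∈ Finset.range n, {c | elS c (m + 1) ≤ t}) ∩
      {c | t < elS c (n + 1)} := by
    ext c
    simp [elE]
  rw [e]
  exact (Finset.measurableSet_biInter _ fun m _ =>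
    measurableSet_le (el_measurable_S _) measurable_const).inter
    (measurableSet_lt measurable_const (el_measurable_S _))

lemma elE_disj (t : ℝ) : Pairwise (Function.onFun Disjoint fun n => elE n t) := by
  intro m n hmn
  rw [Function.onFun, Set.disjoint_left]
  intro c h1 h2
  exact hmn ((elE_count h1).symm.trans (elE_count h2))

/-- Decomposition with respect to the number of rings up to time `t`. -/
lemma el_decomp (P : Par) (t : ℝ) {B : Set (ℕ → ℝ × Bool)} (hB : MeasurableSet B) :
    edgeLaw P B = ∑' n, edgeLaw P (B ∩ elE n t) := by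
  rw [← measure_iUnion]
  · refine measure_congr ?_
    filter_upwards [el_ae_good P] with c hc
    have : c ∈ B ↔ c ∈ ⋃ n, B ∩ elE n t := by
      simp only [Set.mem_iUnion, Set.mem_inter_iff]
      refine ⟨fun h => ⟨elC c t, h, (elC_eq_iff (hc.2 t) _).1 rfl⟩, fun ⟨n, h, _⟩ => h⟩
    exact propext this
  · intro m n hmn
    exact (elE_disj t hmn).mono Set.inter_subset_right Set.inter_subset_right
  · intro n
    exact hB.inter (el_measurable_E n t)

/-! ### Changing one coordinate -/

lemma elS_update_le (c : ℕ → ℝ × Bool) (n : ℕ) (x : ℝ × Bool) {m : ℕ} (hm : m ≤ n) :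
    elS (Function.update c n x) m = elS c m := by
  unfold elS
  refine Finset.sum_congr rfl fun j hj => ?_
  have : j ≠ n := by
    have := Finset.mem_range.1 hj
    omega
  rw [Function.update_of_ne this]

lemma elS_update_succ (c : ℕ → ℝ × Bool) (n : ℕ) (x : ℝ × Bool) :
    elS (Function.update c n x) (n + 1) = elS c n + x.1 := by
  have h := elS_update_le c n x le_rfl
  unfold elS at h ⊢
  rw [Finset.sum_range_succ, h, Function.update_self]

lemma elS_update_snd (c : ℕ → ℝ × Bool) (n : ℕ) (g : ℝ) (v v' : Bool) (m : ℕ) :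
    elS (Function.update c n (g, v)) m = elS (Function.update c n (g, v')) m := by
  unfold elS
  refine Finset.sum_congr rfl fun j _ => ?_
  by_cases h : j = n
  · subst h; simp
  · rw [Function.update_of_ne h, Function.update_of_ne h]

lemma elC_update_snd (c : ℕ → ℝ × Bool) (n : ℕ) (g : ℝ) (v v' : Bool) (t : ℝ) :
    elC (Function.update c n (g, v)) t = elC (Function.update c n (g, v')) t := by
  rw [elC_eq, elC_eq]
  congr 1
  ext m
  rw [Set.mem_ofPred_eq, Set.mem_ofPred_eq, elS_update_snd c n g v v']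

/-- Two sets of naturals which agree below a common element have the same infimum. -/
lemma el_sInf_congr {A B : Set ℕ} {n : ℕ} (hA : n ∈ A) (hB : n ∈ B)
    (h : ∀ m < n, m ∈ A ↔ m ∈ B) : sInf A = sInf B := by
  have h1 : sInf A ≤ n := Nat.sInf_le hA
  have h2 : sInf B ≤ n := Nat.sInf_le hB
  have h3 : sInf A ∈ A := Nat.sInf_mem ⟨n, hA⟩
  have h4 : sInf B ∈ B := Nat.sInf_mem ⟨n, hB⟩
  refine le_antisymm ?_ ?_
  · rcases h2.lt_or_eq with h5 | h5
    · exact Nat.sInf_le ((h _ h5).2 h4)
    · rw [h5]; exact h1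
  · rcases h1.lt_or_eq with h5 | h5
    · exact Nat.sInf_le ((h _ h5).1 h3)
    · rw [h5]; exact h2

/-- The number of rings does not depend on the gap which contains the time. -/
lemma elC_update_fst (c : ℕ → ℝ × Bool) (n : ℕ) {g g' : ℝ} (v : Bool) {s : ℝ}
    (h : s < elS c n + g) (h' : s < elS c n + g') :
    elC (Function.update c n (g, v)) s = elC (Function.update c n (g', v)) s := by
  rw [elC_eq, elC_eq]
  refine el_sInf_congr (n := n) ?_ ?_ ?_
  · rw [Set.mem_ofPred_eq, elS_update_succ]; exact h
  · rw [Set.mem_ofPred_eq, elS_update_succ]; exact h'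
  · intro m hm
    rw [Set.mem_ofPred_eq, Set.mem_ofPred_eq, elS_update_le c n _ (by omega),
      elS_update_le c n _ (by omega)]

/-- The event of the outcomes `l`. -/
def elA (l : List (ℝ × Bool)) : Set (ℕ → ℝ × Bool) := {c | ∀ x ∈ l, edgeState c x.1 = x.2}

lemma el_measurable_A (hm : ClaimMeas) (l : List (ℝ × Bool)) : MeasurableSet (elA l) := by
  have hst : ∀ t : ℝ, Measurable fun c : ℕ → ℝ × Bool => edgeState c t := fun t =>
    hm.2.1.comp (measurable_id.prodMk measurable_const)
  have e : elA l = ⋂ x ∈ {x | x ∈ l}, {c | edgeState c x.1 = x.2} := by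
    ext c
    simp [elA]
  rw [e]
  refine MeasurableSet.biInter (List.finite_toSet l).countable fun x _ => ?_
  exact (hst x.1) (measurableSet_singleton x.2)

lemma el_measurable_C (hm : ClaimMeas) (t : ℝ) :
    Measurable fun c : ℕ → ℝ × Bool => elC c t := by
  have h1 : Measurable fun c : ℕ → ℝ × Bool => ((fun j => (c j).1 : ℕ → ℝ), t) :=
    (measurable_pi_lambda _ fun j => measurable_fst.comp (measurable_pi_apply j)).prodMk
      measurable_const
  exact hm.1.comp h1

/-! ### The memoryless property -/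

lemma el_memoryless (hm : ClaimMeas) (P : Par) (l : List (ℝ × Bool)) {τ t : ℝ} (h0 : 0 ≤ τ)
    (hτt : τ ≤ t) (hl : ∀ x ∈ l, x.1 ≤ τ) (n : ℕ) :
    edgeLaw P (elA l ∩ elE n τ ∩ elE n t) =
      ENNReal.ofReal (Real.exp (-(P.mu * (t - τ)))) * edgeLaw P (elA l ∩ elE n τ) := by
  have hA := el_measurable_A hm l
  unfold edgeLaw
  rw [el_resample _ n ((hA.inter (el_measurable_E n τ)).inter (el_measurable_E n t)),
    el_resample _ n (hA.inter (el_measurable_E n τ)), ← lintegral_const_mul']
  swap
  · exact ENNReal.ofReal_ne_top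
  refine lintegral_congr fun c => ?_
  by_cases hc : ∀ m < n, elS c (m + 1) ≤ τ
  · have hS : elS c n ≤ τ := by
      rcases Nat.eq_zero_or_pos n with h | h
      · subst h
        simpa [elS] using h0
      · have := hc (n - 1) (by omega)
        rwa [Nat.sub_add_cancel h] at this
    set V : Set Bool := {v | Function.update c n (τ - elS c n + 1, v) ∈ elA l} with hV
    have key : ∀ g : ℝ, τ - elS c n < g → ∀ v : Bool,
        (Function.update c n (g, v) ∈ elA l ↔ v ∈ V) := by
      intro g hg v
      rw [hV, Set.mem_ofPred_eq, elA, Set.mem_ofPred_eq, Set.mem_ofPred_eq]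
      refine forall₂_congr fun x hx => ?_
      have hxτ := hl x hx
      have hC : elC (Function.update c n (g, v)) x.1 =
          elC (Function.update c n (τ - elS c n + 1, v)) x.1 :=
        elC_update_fst c n v (by linarith) (by linarith)
      rw [el_state, el_state, hC]
      set k := elC (Function.update c n (τ - elS c n + 1, v)) x.1
      by_cases hk : k = n
      · rw [hk, Function.update_self, Function.update_self]
      · rw [Function.update_of_ne hk, Function.update_of_ne hk]
    have hE : ∀ s : ℝ, τ ≤ s → ∀ x : ℝ × Bool,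
        (Function.update c n x ∈ elE n s ↔ s - elS c n < x.1) := by
      intro s hs x
      rw [elE, Set.mem_ofPred_eq, elS_update_succ]
      constructor
      · rintro ⟨_, h⟩; linarith
      · intro h
        refine ⟨fun m hmn => ?_, by linarith⟩
        rw [elS_update_le c n x (by omega)]
        exact (hc m hmn).trans hs
    have e1 : {x | Function.update c n x ∈ elA l ∩ elE n τ} = Set.Ioi (τ - elS c n) ×ˢ V := by
      ext ⟨g, v⟩
      simp only [Set.mem_ofPred_eq, Set.mem_inter_iff, Set.mem_prod, Set.mem_Ioi, hE τ le_rfl]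
      constructor
      · rintro ⟨h1, h2⟩; exact ⟨h2, (key g h2 v).1 h1⟩
      · rintro ⟨h1, h2⟩; exact ⟨(key g h1 v).2 h2, h1⟩
    have e2 : {x | Function.update c n x ∈ elA l ∩ elE n τ ∩ elE n t} =
        Set.Ioi (t - elS c n) ×ˢ V := by
      ext ⟨g, v⟩
      simp only [Set.mem_ofPred_eq, Set.mem_inter_iff, Set.mem_prod, Set.mem_Ioi, hE τ le_rfl,
        hE t hτt]
      constructor
      · rintro ⟨⟨h1, h2⟩, h3⟩; exact ⟨h3, (key g h2 v).1 h1⟩
      · rintro ⟨h1, h2⟩
        exact ⟨⟨(key g (by linarith) v).2 h2, by linarith⟩, h1⟩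
    rw [e1, e2, Measure.prod_prod, Measure.prod_prod, el_gap_Ioi P (by linarith),
      el_gap_Ioi P (by linarith), ← mul_assoc, ← ENNReal.ofReal_mul (Real.exp_pos _).le,
      ← Real.exp_add]
    congr 3
    ring
  · have hE : ∀ x : ℝ × Bool, Function.update c n x ∉ elE n τ := by
      intro x hx
      refine hc fun m hmn => ?_
      have := hx.1 m hmn
      rwa [elS_update_le c n x (by omega)] at this
    have e1 : {x | Function.update c n x ∈ elA l ∩ elE n τ} = ∅ := by
      ext x
      simp [hE x]
    have e2 : {x | Function.update c n x ∈ elA l ∩ elE n τ ∩ elE n t} = ∅ := by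
      ext x
      simp [hE x]
    rw [e1, e2]
    simp

/-- Law of one state. -/
def elq (P : Par) (b : Bool) : ℝ := if b then P.p else 1 - P.p

lemma elq_nonneg (P : Par) (b : Bool) : 0 ≤ elq P b := by
  have h1 := P.p_pos
  have h2 := P.p_lt
  unfold elq
  split_ifs <;> linarith

lemma el_ber (P : Par) (b : Bool) : ber P {b} = ENNReal.ofReal (elq P b) := by
  unfold ber elq
  cases b <;> simp

/-- A fresh state is independent of the past. -/
lemma el_fresh (hm : ClaimMeas) (P : Par) (l : List (ℝ × Bool)) {τ t : ℝ}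
    (hτt : τ ≤ t) (hl : ∀ x ∈ l, x.1 ≤ τ) (b : Bool) (n : ℕ) :
    edgeLaw P (elA l ∩ {c | elC c τ < n} ∩ {c | (c n).2 = b} ∩ elE n t) =
      ENNReal.ofReal (elq P b) * edgeLaw P (elA l ∩ {c | elC c τ < n} ∩ elE n t) := by
  have hA := el_measurable_A hm l
  have hCm : MeasurableSet {c : ℕ → ℝ × Bool | elC c τ < n} :=
    measurableSet_lt (el_measurable_C hm τ) measurable_const
  have hb : MeasurableSet {c : ℕ → ℝ × Bool | (c n).2 = b} :=
    (measurable_snd.comp (measurable_pi_apply n)) (measurableSet_singleton b)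
  unfold edgeLaw
  rw [el_resample _ n (((hA.inter hCm).inter hb).inter (el_measurable_E n t)),
    el_resample _ n ((hA.inter hCm).inter (el_measurable_E n t)), ← lintegral_const_mul']
  swap
  · exact ENNReal.ofReal_ne_top
  refine lintegral_congr fun c => ?_
  set G : Set ℝ := {g | Function.update c n (g, b) ∈ elA l ∩ {c | elC c τ < n} ∩ elE n t} with hG
  have key : ∀ (g : ℝ) (v : Bool),
      Function.update c n (g, v) ∈ elA l ∩ {c | elC c τ < n} ∩ elE n t → g ∈ G := by
    rintro g v ⟨⟨h1, h2⟩, h3⟩
    have hE : Function.update c n (g, b) ∈ elE n t := by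
      refine ⟨fun m hmn => ?_, ?_⟩
      · rw [elS_update_snd c n g b v]; exact h3.1 m hmn
      · rw [elS_update_snd c n g b v]; exact h3.2
    refine ⟨⟨?_, ?_⟩, hE⟩
    · intro x hx
      have h4 := h1 x hx
      rw [el_state] at h4 ⊢
      rw [elC_update_snd c n g b v]
      have h5 : elC (Function.update c n (g, v)) x.1 ≤ elC (Function.update c n (g, v)) τ :=
        elC_mono (hl x hx) ⟨n, hτt.trans_lt h3.2⟩
      have h6 : elC (Function.update c n (g, v)) x.1 ≠ n := by
        have : elC (Function.update c n (g, v)) τ < n := h2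
        omega
      rw [Function.update_of_ne h6] at h4 ⊢
      exact h4
    · rw [Set.mem_ofPred_eq, elC_update_snd c n g b v]
      exact h2
  have key' : ∀ (g : ℝ) (v : Bool), g ∈ G →
      Function.update c n (g, v) ∈ elA l ∩ {c | elC c τ < n} ∩ elE n t := by
    rintro g v ⟨⟨h1, h2⟩, h3⟩
    have hE : Function.update c n (g, v) ∈ elE n t := by
      refine ⟨fun m hmn => ?_, ?_⟩
      · rw [elS_update_snd c n g v b]; exact h3.1 m hmn
      · rw [elS_update_snd c n g v b]; exact h3.2
    refine ⟨⟨?_, ?_⟩, hE⟩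
    · intro x hx
      have h4 := h1 x hx
      rw [el_state] at h4 ⊢
      rw [elC_update_snd c n g v b]
      have h5 : elC (Function.update c n (g, b)) x.1 ≤ elC (Function.update c n (g, b)) τ :=
        elC_mono (hl x hx) ⟨n, hτt.trans_lt h3.2⟩
      have h6 : elC (Function.update c n (g, b)) x.1 ≠ n := by
        have : elC (Function.update c n (g, b)) τ < n := h2
        omega
      rw [Function.update_of_ne h6] at h4 ⊢
      exact h4
    · rw [Set.mem_ofPred_eq, elC_update_snd c n g v b]
      exact h2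
  have e1 : {x | Function.update c n x ∈ elA l ∩ {c | elC c τ < n} ∩ elE n t} =
      G ×ˢ Set.univ := by
    ext ⟨g, v⟩
    simp only [Set.mem_ofPred_eq, Set.mem_prod, Set.mem_univ, and_true]
    exact ⟨key g v, key' g v⟩
  have e2 : {x | Function.update c n x ∈
      elA l ∩ {c | elC c τ < n} ∩ {c | (c n).2 = b} ∩ elE n t} = G ×ˢ {b} := by
    ext ⟨g, v⟩
    simp only [Set.mem_ofPred_eq, Set.mem_prod, Set.mem_singleton_iff]
    constructor
    · rintro ⟨⟨h1, h2⟩, h3⟩
      refine ⟨key g v ⟨h1, h3⟩, ?_⟩
      simpa using h2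
    · rintro ⟨h1, h2⟩
      obtain ⟨h3, h4⟩ := key' g v h1
      exact ⟨⟨h3, by simpa using h2⟩, h4⟩
  rw [e1, e2, Measure.prod_prod, Measure.prod_prod, measure_univ, mul_one, el_ber, mul_comm]

/-- One more examination of the edge. -/
lemma el_step (hm : ClaimMeas) (P : Par) (l : List (ℝ × Bool)) {τ t : ℝ} {b b' : Bool}
    (h0 : 0 ≤ τ) (hτt : τ ≤ t) (hl : ∀ x ∈ (τ, b') :: l, x.1 ≤ τ) :
    (edgeLaw P).real (elA ((t, b) :: (τ, b') :: l)) =
      (elq P b + Real.exp (-(P.mu * (t - τ))) * ((if b' = b then 1 else 0) - elq P b)) *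
        (edgeLaw P).real (elA ((τ, b') :: l)) := by
  set L := (τ, b') :: l with hL
  have hA := el_measurable_A hm L
  have hEq : MeasurableSet {c : ℕ → ℝ × Bool | elC c τ = elC c t} :=
    measurableSet_eq_fun (el_measurable_C hm τ) (el_measurable_C hm t)
  have hA1 : edgeLaw P (elA L ∩ {c | elC c τ = elC c t}) =
      ENNReal.ofReal (Real.exp (-(P.mu * (t - τ)))) * edgeLaw P (elA L) := by
    rw [el_decomp P τ (hA.inter hEq), el_decomp P τ hA, ← ENNReal.tsum_mul_left]
    congr 1
    ext n
    rw [← el_memoryless hm P L h0 hτt hl n]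
    refine measure_congr ?_
    filter_upwards [el_ae_good P] with c hc
    refine propext ?_
    constructor
    · rintro ⟨⟨h1, h2⟩, h3⟩
      refine ⟨⟨h1, h3⟩, ?_⟩
      have h4 : elC c t = n := by
        have h5 : elC c τ = elC c t := h2
        rw [← h5]; exact elE_count h3
      exact (elC_eq_iff (hc.2 t) n).1 h4
    · rintro ⟨⟨h1, h2⟩, h3⟩
      refine ⟨⟨h1, ?_⟩, h2⟩
      exact (elE_count h2).trans (elE_count h3).symm
  have hlt : MeasurableSet {c : ℕ → ℝ × Bool | elC c τ < elC c t} :=
    measurableSet_lt (el_measurable_C hm τ) (el_measurable_C hm t)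
  have hst : MeasurableSet {c : ℕ → ℝ × Bool | edgeState c t = b} :=
    (hm.2.1.comp (measurable_id.prodMk measurable_const)) (measurableSet_singleton b)
  have hA2 : edgeLaw P (elA L ∩ {c | elC c τ < elC c t} ∩ {c | edgeState c t = b}) =
      ENNReal.ofReal (elq P b) * edgeLaw P (elA L ∩ {c | elC c τ < elC c t}) := by
    rw [el_decomp P t ((hA.inter hlt).inter hst), el_decomp P t (hA.inter hlt),
      ← ENNReal.tsum_mul_left]
    congr 1
    ext n
    have e1 : elA L ∩ {c | elC c τ < elC c t} ∩ {c | edgeState c t = b} ∩ elE n t =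
        elA L ∩ {c | elC c τ < n} ∩ {c | (c n).2 = b} ∩ elE n t := by
      ext c
      simp only [Set.mem_inter_iff, Set.mem_ofPred_eq, el_state]
      refine and_congr_left fun h => ?_
      rw [elE_count h]
    have e2 : elA L ∩ {c | elC c τ < elC c t} ∩ elE n t =
        elA L ∩ {c | elC c τ < n} ∩ elE n t := by
      ext c
      simp only [Set.mem_inter_iff, Set.mem_ofPred_eq]
      refine and_congr_left fun h => ?_
      rw [elE_count h]
    rw [e1, e2]
    exact el_fresh hm P L hτt hl b n
  -- the decomposition of the event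
  have hsplit : (edgeLaw P).real (elA ((t, b) :: L)) =
      (edgeLaw P).real (elA L ∩ {c | elC c τ = elC c t} ∩ {c | edgeState c t = b}) +
      (edgeLaw P).real (elA L ∩ {c | elC c τ < elC c t} ∩ {c | edgeState c t = b}) := by
    rw [← measureReal_union]
    · refine measureReal_congr ?_
      filter_upwards [el_ae_good P] with c hc
      refine propext ?_
      have hle : elC c τ ≤ elC c t := elC_mono hτt (hc.2 t)
      constructor
      · intro h
        have h1 : c ∈ elA L := fun x hx => h x (List.mem_cons_of_mem _ hx)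
        have h2 : edgeState c t = b := h (t, b) (List.mem_cons_self)
        rcases hle.lt_or_eq with h3 | h3
        · exact Or.inr ⟨⟨h1, h3⟩, h2⟩
        · exact Or.inl ⟨⟨h1, h3⟩, h2⟩
      · intro h x hx
        have h1 : c ∈ elA L ∧ edgeState c t = b := by
          rcases h with ⟨⟨h1, _⟩, h2⟩ | ⟨⟨h1, _⟩, h2⟩ <;> exact ⟨h1, h2⟩
        rcases List.mem_cons.1 hx with h2 | h2
        · rw [h2]; exact h1.2
        · exact h1.1 x h2
    · rw [Set.disjoint_left]
      rintro c ⟨⟨_, h1⟩, _⟩ ⟨⟨_, h2⟩, _⟩
      have h1' : elC c τ = elC c t := h1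
      have h2' : elC c τ < elC c t := h2
      omega
    · exact (hA.inter hlt).inter hst
  have hE1 : (edgeLaw P).real (elA L ∩ {c | elC c τ = elC c t} ∩ {c | edgeState c t = b}) =
      (if b' = b then 1 else 0) * (Real.exp (-(P.mu * (t - τ))) * (edgeLaw P).real (elA L)) := by
    have hr : (edgeLaw P).real (elA L ∩ {c | elC c τ = elC c t}) =
        Real.exp (-(P.mu * (t - τ))) * (edgeLaw P).real (elA L) := by
      rw [measureReal_def, hA1, ENNReal.toReal_mul, ENNReal.toReal_ofReal (Real.exp_pos _).le,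
        measureReal_def]
    have hs : ∀ c ∈ elA L ∩ {c | elC c τ = elC c t}, edgeState c t = b' := by
      rintro c ⟨h1, h2⟩
      have h3 : edgeState c τ = b' := h1 (τ, b') (by rw [hL]; exact List.mem_cons_self)
      have h4 : elC c τ = elC c t := h2
      rw [el_state, ← h4, ← el_state]
      exact h3
    by_cases hb : b' = b
    · rw [if_pos hb, one_mul, ← hr]
      congr 1
      ext c
      simp only [Set.mem_inter_iff, Set.mem_ofPred_eq, and_iff_left_iff_imp]
      intro h
      rw [← hb]
      exact hs c h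
    · rw [if_neg hb, zero_mul]
      have : elA L ∩ {c | elC c τ = elC c t} ∩ {c | edgeState c t = b} = ∅ := by
        ext c
        simp only [Set.mem_inter_iff, Set.mem_ofPred_eq, Set.mem_empty_iff_false, iff_false]
        rintro ⟨h1, h2⟩
        exact hb ((hs c h1).symm.trans h2)
      rw [this]
      simp
  have hE2 : (edgeLaw P).real (elA L ∩ {c | elC c τ < elC c t} ∩ {c | edgeState c t = b}) =
      elq P b * ((1 - Real.exp (-(P.mu * (t - τ)))) * (edgeLaw P).real (elA L)) := by
    have hr : (edgeLaw P).real (elA L ∩ {c | elC c τ < elC c t}) =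
        (1 - Real.exp (-(P.mu * (t - τ)))) * (edgeLaw P).real (elA L) := by
      have h1 : (edgeLaw P).real (elA L) =
          (edgeLaw P).real (elA L ∩ {c | elC c τ = elC c t}) +
          (edgeLaw P).real (elA L ∩ {c | elC c τ < elC c t}) := by
        rw [← measureReal_union]
        · refine measureReal_congr ?_
          filter_upwards [el_ae_good P] with c hc
          refine propext ?_
          have hle : elC c τ ≤ elC c t := elC_mono hτt (hc.2 t)
          constructor
          · intro h
            rcases hle.lt_or_eq with h3 | h3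
            · exact Or.inr ⟨h, h3⟩
            · exact Or.inl ⟨h, h3⟩
          · rintro (⟨h, _⟩ | ⟨h, _⟩) <;> exact h
        · rw [Set.disjoint_left]
          rintro c ⟨_, h1⟩ ⟨_, h2⟩
          have h1' : elC c τ = elC c t := h1
          have h2' : elC c τ < elC c t := h2
          omega
        · exact hA.inter hlt
      have h2 : (edgeLaw P).real (elA L ∩ {c | elC c τ = elC c t}) =
          Real.exp (-(P.mu * (t - τ))) * (edgeLaw P).real (elA L) := by
        rw [measureReal_def, hA1, ENNReal.toReal_mul, ENNReal.toReal_ofReal (Real.exp_pos _).le,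
          measureReal_def]
      linarith
    rw [← hr, measureReal_def, hA2, ENNReal.toReal_mul,
      ENNReal.toReal_ofReal (elq_nonneg P b), measureReal_def]
  rw [hsplit, hE1, hE2]
  ring

/-- The first examination. -/
lemma el_single (hm : ClaimMeas) (P : Par) {t : ℝ} (h0 : 0 ≤ t) (b : Bool) :
    (edgeLaw P).real (elA [(t, b)]) = elq P b := by
  have hst : MeasurableSet {c : ℕ → ℝ × Bool | edgeState c t = b} :=
    (hm.2.1.comp (measurable_id.prodMk measurable_const)) (measurableSet_singleton b)
  have e0 : elA [(t, b)] = {c : ℕ → ℝ × Bool | edgeState c t = b} := by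
    ext c
    simp [elA]
  have h1 : edgeLaw P {c : ℕ → ℝ × Bool | edgeState c t = b} = ENNReal.ofReal (elq P b) := by
    have h2 : ENNReal.ofReal (elq P b) = ENNReal.ofReal (elq P b) * edgeLaw P Set.univ := by
      rw [measure_univ, mul_one]
    rw [h2, el_decomp P t hst, el_decomp P t MeasurableSet.univ, ← ENNReal.tsum_mul_left]
    congr 1
    ext n
    have e1 : {c : ℕ → ℝ × Bool | edgeState c t = b} ∩ elE n t =
        {c | (c n).2 = b} ∩ elE n t := by
      ext c
      simp only [Set.mem_inter_iff, Set.mem_ofPred_eq, el_state]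
      refine and_congr_left fun h => ?_
      rw [elE_count h]
    rw [e1]
    have hb : MeasurableSet {c : ℕ → ℝ × Bool | (c n).2 = b} :=
      (measurable_snd.comp (measurable_pi_apply n)) (measurableSet_singleton b)
    unfold edgeLaw
    rw [el_resample _ n (hb.inter (el_measurable_E n t)),
      el_resample _ n (MeasurableSet.univ.inter (el_measurable_E n t)), ← lintegral_const_mul']
    swap
    · exact ENNReal.ofReal_ne_top
    refine lintegral_congr fun c => ?_
    have hE : ∀ (g : ℝ) (v : Bool), Function.update c n (g, v) ∈ elE n t ↔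
        Function.update c n (g, b) ∈ elE n t := by
      intro g v
      simp only [elE, Set.mem_ofPred_eq, elS_update_snd c n g v b]
    have e2 : {x | Function.update c n x ∈ {c : ℕ → ℝ × Bool | (c n).2 = b} ∩ elE n t} =
        {g | Function.update c n (g, b) ∈ elE n t} ×ˢ {b} := by
      ext ⟨g, v⟩
      simp only [Set.mem_ofPred_eq, Set.mem_inter_iff, Function.update_self, Set.mem_prod,
        Set.mem_singleton_iff, hE g v]
      exact and_comm
    have e3 : {x | Function.update c n x ∈ Set.univ ∩ elE n t} =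
        {g | Function.update c n (g, b) ∈ elE n t} ×ˢ Set.univ := by
      ext ⟨g, v⟩
      simp only [Set.mem_ofPred_eq, Set.mem_inter_iff, Set.mem_univ, true_and, Set.mem_prod,
        and_true, hE g v]
    rw [e2, e3, Measure.prod_prod, Measure.prod_prod, measure_univ, mul_one, el_ber, mul_comm]
  rw [e0, measureReal_def, h1, ENNReal.toReal_ofReal (elq_nonneg P b)]

/-- Item B1. -/
theorem claimEdge (hm : ClaimMeas) : ClaimEdge := by
  intro P l
  change l.Pairwise (fun x y => y.1 ≤ x.1) → (∀ x ∈ l, 0 ≤ x.1) →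
    (edgeLaw P).real (elA l) = edgeW P l
  induction l with
  | nil =>
    intro _ _
    have : elA [] = Set.univ := by
      ext c
      simp [elA]
    rw [this]
    simp [edgeW]
  | cons x l ih =>
    intro hp h0
    have ih' := ih (List.Pairwise.of_cons hp) (fun y hy => h0 y (List.mem_cons_of_mem _ hy))
    obtain ⟨t, b⟩ := x
    cases l with
    | nil =>
      rw [el_single hm P (h0 (t, b) (by simp)) b]
      cases b <;> simp [edgeW, memVal, elq]
    | cons y l =>
      obtain ⟨τ, b'⟩ := y
      have hτt : τ ≤ t := by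
        have := (List.pairwise_cons.1 hp).1 (τ, b') (by simp)
        exact this
      have hl : ∀ x ∈ (τ, b') :: l, x.1 ≤ τ := by
        intro x hx
        rcases List.mem_cons.1 hx with h | h
        · rw [h]
        · exact (List.pairwise_cons.1 (List.pairwise_cons.1 hp).2).1 x h
      rw [el_step hm P l (h0 (τ, b') (by simp)) hτt hl, ih']
      conv_rhs => rw [edgeW]
      congr 1
      cases b <;> cases b' <;> simp [memVal, elq] <;> ring

end DynPerc
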