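import Pool.Agent.Work.MP_f058f1_pr.Stmts

/-!
# Law of the outcomes for given clock and directions
-/

open MeasureTheory ProbabilityTheory Filter Topology

noncomputable section

namespace DynPerc

variable {d : ℕ}

/-- The edge examined at ring `l`. -/
def evE (w : ℕ → ℝ × Dir d) (o : ℕ → Bool) (l : ℕ) : Edge d := edgeOf (rpos w o l) (w l).2

/-- Time before ring `n`. -/
def elT (w : ℕ → ℝ × Dir d) (n : ℕ) : ℝ := ∑ j ∈ Finset.range n, (w j).1

/-- History of an edge. -/
def elH (w : ℕ → ℝ × Dir d) (o : ℕ → Bool) : ℕ → Edge d → List (ℝ × Bool)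
  | 0, _ => []
  | n + 1, e => if evE w o n = e then (elT w (n + 1), o n) :: elH w o n e else elH w o n e

lemma elT_succ (w : ℕ → ℝ × Dir d) (n : ℕ) : elT w (n + 1) = elT w n + (w n).1 := by
  unfold elT
  rw [Finset.sum_range_succ]

lemma ringTime_eq (w : ℕ → ℝ × Dir d) (n : ℕ) : ringTime w n = elT w (n + 1) := rfl

lemma elT_mono {w : ℕ → ℝ × Dir d} (hw : ∀ n, 0 ≤ (w n).1) : Monotone (elT w) := by
  refine monotone_nat_of_le_succ fun n => ?_
  rw [elT_succ]
  linarith [hw n]

lemma elH_mem {w : ℕ → ℝ × Dir d} {o : ℕ → Bool} (n : ℕ) (e : Edge d) (x : ℝ × Bool) :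
    x ∈ elH w o n e ↔ ∃ l < n, evE w o l = e ∧ x = (elT w (l + 1), o l) := by
  induction n with
  | zero => simp [elH]
  | succ n ih =>
    unfold elH
    constructor
    · intro hx
      by_cases h : evE w o n = e
      · rw [if_pos h, List.mem_cons] at hx
        rcases hx with hx | hx
        · exact ⟨n, Nat.lt_succ_self n, h, hx⟩
        · obtain ⟨l, hl, h1, h2⟩ := ih.1 hx
          exact ⟨l, hl.trans (Nat.lt_succ_self n), h1, h2⟩
      · rw [if_neg h] at hx
        obtain ⟨l, hl, h1, h2⟩ := ih.1 hx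
        exact ⟨l, hl.trans (Nat.lt_succ_self n), h1, h2⟩
    · rintro ⟨l, hl, h1, h2⟩
      rcases Nat.lt_succ_iff_lt_or_eq.1 hl with h3 | h3
      · have h4 := ih.2 ⟨l, h3, h1, h2⟩
        split_ifs
        · exact List.mem_cons_of_mem _ h4
        · exact h4
      · subst h3
        rw [if_pos h1, h2]
        exact List.mem_cons_self

lemma elH_pairwise {w : ℕ → ℝ × Dir d} {o : ℕ → Bool} (hw : ∀ n, 0 ≤ (w n).1) (n : ℕ)
    (e : Edge d) : (elH w o n e).Pairwise (fun x y => y.1 ≤ x.1) := by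
  induction n with
  | zero => simp [elH]
  | succ n ih =>
    unfold elH
    split_ifs with h
    · refine List.pairwise_cons.2 ⟨fun x hx => ?_, ih⟩
      obtain ⟨l, hl, -, h2⟩ := (elH_mem n e x).1 hx
      rw [h2]
      exact elT_mono hw (by omega)
    · exact ih

lemma elH_nonneg {w : ℕ → ℝ × Dir d} {o : ℕ → Bool} (hw : ∀ n, 0 ≤ (w n).1) (n : ℕ)
    (e : Edge d) : ∀ x ∈ elH w o n e, 0 ≤ x.1 := by
  intro x hx
  obtain ⟨l, hl, -, h2⟩ := (elH_mem n e x).1 hx
  rw [h2]
  have h3 := elT_mono hw (Nat.zero_le (l + 1))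
  simpa [elT] using h3

lemma memVal_add (P : Par) (l : List (ℝ × Bool)) (t g : ℝ) :
    Real.exp (-(P.mu * g)) * memVal P l t = memVal P l (t + g) := by
  cases l with
  | nil => simp [memVal]
  | cons x l =>
    obtain ⟨τ, b⟩ := x
    simp only [memVal]
    rw [show -(P.mu * (t + g - τ)) = -(P.mu * g) + -(P.mu * (t - τ)) by ring, Real.exp_add]
    ring

lemma edgeOf_eq (x : Site d) (a : Dir d) :
    edgeOf x a = ((edgeOf 0 a).1 + x, (edgeOf 0 a).2) := by
  unfold edgeOf
  split_ifs
  · simp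
  · simp only [zero_sub]
    rw [neg_add_eq_sub]

lemma rpos_succ (w : ℕ → ℝ × Dir d) (o : ℕ → Bool) (n : ℕ) :
    rpos w o (n + 1) = (if o n then stepVec (w n).2 else 0) + rpos w o n := by
  have : rpos w o (n + 1) = if o n then rpos w o n + stepVec (w n).2 else rpos w o n := rfl
  rw [this]
  split_ifs
  · rw [add_comm]
  · rw [zero_add]

lemma elMem (P : Par) (w : ℕ → ℝ × Dir d) (o : ℕ → Bool) (n : ℕ) : ∀ (y : Site d)
    (j : Fin (d + 1)), rmem P w o n (y, j) = memVal P (elH w o n (y + rpos w o n, j)) (elT w n) := by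
  induction n with
  | zero =>
    intro y j
    simp [rmem, elH, memVal]
  | succ n ih =>
    intro y j
    have h1 : rmem P w o (n + 1) = next P (rmem P w o n) (w n).2 (w n).1 (o n) := rfl
    rw [h1, rpos_succ, ← add_assoc]
    set y' : Site d := y + (if o n then stepVec (w n).2 else 0) with hy'
    have h2 : next P (rmem P w o n) (w n).2 (w n).1 (o n) (y, j) =
        if ((y', j) : Edge d) = edgeOf 0 (w n).2 then (if o n then 1 - P.p else -P.p)
        else Real.exp (-(P.mu * (w n).1)) * rmem P w o n (y', j) := rfl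
    have h3 : elH w o (n + 1) (y' + rpos w o n, j) =
        if evE w o n = (y' + rpos w o n, j) then
          (elT w (n + 1), o n) :: elH w o n (y' + rpos w o n, j)
        else elH w o n (y' + rpos w o n, j) := rfl
    have h4 : evE w o n = (y' + rpos w o n, j) ↔ ((y', j) : Edge d) = edgeOf 0 (w n).2 := by
      unfold evE
      rw [edgeOf_eq, Prod.mk.injEq, add_left_inj, Prod.ext_iff]
      constructor
      · rintro ⟨h5, h6⟩
        exact ⟨h5.symm, h6.symm⟩
      · rintro ⟨h5, h6⟩
        exact ⟨h5.symm, h6.symm⟩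
    rw [h2, h3]
    by_cases h : ((y', j) : Edge d) = edgeOf 0 (w n).2
    · rw [if_pos h, if_pos (h4.2 h)]
      unfold memVal
      simp
    · rw [if_neg h, if_neg (fun h5 => h (h4.1 h5)), ih, memVal_add, elT_succ]

lemma elFactor (P : Par) (w : ℕ → ℝ × Dir d) (o : ℕ → Bool) (n : ℕ) :
    wt P (rmem P w o n) (w n).2 (w n).1 (o n) =
      if o n then P.p + memVal P (elH w o n (evE w o n)) (elT w (n + 1))
      else 1 - P.p - memVal P (elH w o n (evE w o n)) (elT w (n + 1)) := by
  have h1 : Real.exp (-(P.mu * (w n).1)) * rmem P w o n (edgeOf 0 (w n).2) =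
      memVal P (elH w o n (evE w o n)) (elT w (n + 1)) := by
    have h2 := elMem P w o n (edgeOf 0 (w n).2).1 (edgeOf 0 (w n).2).2
    have h3 : evE w o n = ((edgeOf 0 (w n).2).1 + rpos w o n, (edgeOf 0 (w n).2).2) := by
      unfold evE
      exact edgeOf_eq _ _
    rw [h3, elT_succ, ← memVal_add, ← h2]
  unfold wt pOpen
  rw [h1]
  split_ifs
  · rfl
  · ring

lemma el_measurable (h2 : ClaimMeas) (l : List (ℝ × Bool)) :
    MeasurableSet {c : ℕ → ℝ × Bool | ∀ x ∈ l, edgeState c x.1 = x.2} := by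
  have hm : ∀ t : ℝ, Measurable fun c : ℕ → ℝ × Bool => edgeState c t := fun t =>
    h2.2.1.comp (measurable_id.prodMk measurable_const)
  induction l with
  | nil => simp
  | cons x l ih =>
    have : {c : ℕ → ℝ × Bool | ∀ y ∈ x :: l, edgeState c y.1 = y.2} =
        {c | edgeState c x.1 = x.2} ∩ {c | ∀ y ∈ l, edgeState c y.1 = y.2} := by
      ext c
      simp
    rw [this]
    exact (measurableSet_eq_fun (hm x.1) measurable_const).inter ih

lemma el_box (h1 : ClaimEdge) (h2 : ClaimMeas) (P : Par) {w : ℕ → ℝ × Dir d} (o : ℕ → Bool)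
    (hw : ∀ n, 0 ≤ (w n).1) (n : ℕ) (E : Finset (Edge d)) (hE : ∀ l < n, evE w o l ∈ E) :
    (envLaw P d).real {η | ∀ l < n,
      edgeState (η (edgeOf (rpos w o l) (w l).2)) (ringTime w l) = o l} =
    ∏ e ∈ E, edgeW P (elH w o n e) := by
  have e1 : {η : Edge d → ℕ → ℝ × Bool | ∀ l < n,
      edgeState (η (edgeOf (rpos w o l) (w l).2)) (ringTime w l) = o l} =
      Set.pi (E : Set (Edge d)) fun e => {c | ∀ x ∈ elH w o n e, edgeState c x.1 = x.2} := by
    ext η
    simp only [Set.mem_ofPred_eq, Set.mem_pi, Finset.mem_coe]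
    constructor
    · intro h e _ x hx
      obtain ⟨l, hl, h3, h4⟩ := (elH_mem n e x).1 hx
      rw [h4, ← h3]
      exact h l hl
    · intro h l hl
      exact h (evE w o l) (hE l hl) (elT w (l + 1), o l) ((elH_mem n _ _).2 ⟨l, hl, rfl, rfl⟩)
  rw [e1, measureReal_def]
  unfold envLaw
  rw [Measure.infinitePi_pi _ fun e _ => el_measurable h2 _, ENNReal.toReal_prod]
  refine Finset.prod_congr rfl fun e _ => ?_
  exact h1 P (elH w o n e) (elH_pairwise hw n e) (elH_nonneg hw n e)

theorem claimEnv (h1 : ClaimEdge) (h2 : ClaimMeas) : ClaimEnv := by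
  classical
  intro P d w o hw n
  induction n with
  | zero =>
    rw [el_box h1 h2 P o hw 0 ∅ (by simp)]
    simp
  | succ n ih =>
    set E : Finset (Edge d) := (Finset.range (n + 1)).image (evE w o) with hE
    have hE1 : ∀ l < n + 1, evE w o l ∈ E := fun l hl =>
      Finset.mem_image_of_mem _ (Finset.mem_range.2 hl)
    rw [el_box h1 h2 P o hw n E fun l hl => hE1 l (hl.trans (Nat.lt_succ_self n))] at ih
    rw [el_box h1 h2 P o hw (n + 1) E hE1, Finset.prod_range_succ, ← ih]
    have hn : evE w o n ∈ E := hE1 n (Nat.lt_succ_self n)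
    rw [← Finset.mul_prod_erase E _ hn, ← Finset.mul_prod_erase E _ hn]
    have e1 : ∏ e ∈ E.erase (evE w o n), edgeW P (elH w o (n + 1) e) =
        ∏ e ∈ E.erase (evE w o n), edgeW P (elH w o n e) := by
      refine Finset.prod_congr rfl fun e he => ?_
      have : elH w o (n + 1) e = elH w o n e := if_neg (Finset.ne_of_mem_erase he).symm
      rw [this]
    have e2 : elH w o (n + 1) (evE w o n) =
        (elT w (n + 1), o n) :: elH w o n (evE w o n) := if_pos rfl
    have e3 : edgeW P (elH w o (n + 1) (evE w o n)) =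
        wt P (rmem P w o n) (w n).2 (w n).1 (o n) * edgeW P (elH w o n (evE w o n)) := by
      rw [e2, elFactor]
      rfl
    rw [e1, e3]
    ring

end DynPerc
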