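import Pool.Agent.Work.MP_f058f1_pr.Stmts

/-!
# Item A3: the speed is holomorphic along holomorphic curves of complex direction weights
-/

open MeasureTheory ProbabilityTheory Filter Topology

noncomputable section

namespace DynPerc

variable {d : ℕ}

lemma holo_reg (P : Par) (i : Fin (d + 1)) (b : Dir d) (l : List (Dir d)) :
    Reg P (GG P i b l) := by
  induction l with
  | nil => exact Reg.hh P i b
  | cons a l ih => exact opT_reg ih

lemma holo_bd {P : Par} {K : ℕ} {ρ : ℝ} (hρ : 0 ≤ ρ)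
    (hb : ∀ (i : Fin (d + 1)) (b : Dir d), Bd P K (hh P i b) 1)
    (hc : ∀ (f : St d → ℝ) (c : ℝ), 0 ≤ c → Reg P f → Bd P K f c → ∀ a,
      Bd P K (opT P a f) (ρ * c))
    (i : Fin (d + 1)) (b : Dir d) (l : List (Dir d)) : Bd P K (GG P i b l) (ρ ^ l.length) := by
  induction l with
  | nil =>
    rw [List.length_nil, pow_zero]
    exact hb i b
  | cons a l ih =>
    rw [List.length_cons, pow_succ, mul_comm]
    exact hc _ _ (pow_nonneg hρ _) (holo_reg P i b l) ih a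

lemma holo_diff {P : Par} {K : ℕ} {ρ : ℝ} (hK : 1 ≤ K) (hρ : 0 ≤ ρ)
    (hb : ∀ (i : Fin (d + 1)) (b : Dir d), Bd P K (hh P i b) 1)
    (hc : ∀ (f : St d → ℝ) (c : ℝ), 0 ≤ c → Reg P f → Bd P K f c → ∀ a,
      Bd P K (opT P a f) (ρ * c))
    (i : Fin (d + 1)) (b a : Dir d) (l : List (Dir d)) :
    |GG P i b (a :: l) 0 - GG P i b l 0| ≤ ρ ^ l.length := by
  have hp := P.p_pos
  have hp1 := P.p_lt
  have h0 : Valid P (0 : St d) := valid_zero P
  have hbd : ∀ S : St d, Valid P S → |GG P i b l S - GG P i b l 0| ≤ ρ ^ l.length := by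
    intro S hS
    have h1 := holo_bd hρ hb hc i b l 1 ⟨zero_le_one, le_rfl⟩ S 0 hS h0 (by
      intro e
      right
      have := hS e
      simp only [mul_one, Pi.zero_apply]
      refine ⟨this, ?_, ?_⟩ <;> linarith)
    have h2 : phi K 1 = 1 := by
      unfold phi
      rw [sub_self, zero_pow (by omega), sub_zero]
    rwa [h2, mul_one] at h1
  have e : GG P i b (a :: l) 0 - GG P i b l 0 =
      opT P a (fun S => GG P i b l S - GG P i b l 0) 0 := by
    have h3 := opT_sub (P := P) (a := a) (f := GG P i b l) (g := fun _ => GG P i b l 0)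
      (holo_reg P i b l) (Reg.const P _) h0
    rw [h3, opT_const]
    rfl
  rw [e]
  exact opT_bound (C := ρ ^ l.length) hbd h0

lemma holo_hh (P : Par) (i : Fin (d + 1)) (b : Dir d) : |hh P i b 0| ≤ 1 := by
  have hp := P.p_pos
  have hp1 := P.p_lt
  unfold hh
  rw [abs_mul]
  have h1 : |((stepVec b i : ℤ) : ℝ)| ≤ 1 := by
    unfold stepVec
    split_ifs
    · by_cases h : i = b.1
      · subst h; simp
      · rw [Pi.single_eq_of_ne h]; simp
    · rw [Pi.neg_apply]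
      by_cases h : i = b.1
      · subst h; simp
      · rw [Pi.single_eq_of_ne h]; simp
  have h2 : |P.p + ca P * (0 : St d) (edgeOf 0 b)| ≤ 1 := by
    simp only [Pi.zero_apply, mul_zero, add_zero]
    rw [abs_of_pos hp]
    exact hp1.le
  calc _ ≤ 1 * 1 := mul_le_mul h1 h2 (abs_nonneg _) zero_le_one
    _ = 1 := one_mul 1

lemma holo_zero (P : Par) (i : Fin (d + 1)) (ν : Dir d → ℂ) :
    ‖PkC P i 0 ν‖ ≤ ∑ a, ‖ν a‖ := by
  unfold PkC
  rw [Fintype.sum_unique]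
  refine (norm_sum_le _ _).trans (Finset.sum_le_sum fun b _ => ?_)
  simp only [Finset.univ_eq_empty, Finset.prod_empty, one_mul, List.ofFn_zero, GG, norm_mul,
    Complex.norm_real, Real.norm_eq_abs]
  have := holo_hh P i b
  have h2 := norm_nonneg (ν b)
  nlinarith

lemma holo_succ (P : Par) (i : Fin (d + 1)) (k : ℕ) (ν : Dir d → ℂ) :
    PkC P i (k + 1) ν = ∑ a, ∑ l : Fin k → Dir d, ∑ b, (ν a * ∏ j, ν (l j)) * ν b *
      ((GG P i b (a :: List.ofFn l) 0 : ℝ) : ℂ) := by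
  unfold PkC
  rw [← (Fin.consEquiv (fun _ : Fin (k + 1) => Dir d)).sum_comp, Fintype.sum_prod_type]
  refine Finset.sum_congr rfl fun a _ => Finset.sum_congr rfl fun l _ =>
    Finset.sum_congr rfl fun b _ => ?_
  simp only [Fin.consEquiv, Equiv.coe_fn_mk, Fin.prod_univ_succ, Fin.cons_zero, Fin.cons_succ,
    List.ofFn_succ]

lemma holo_same (P : Par) (i : Fin (d + 1)) (k : ℕ) (ν : Dir d → ℂ) (hν : ∑ a, ν a = 1) :
    PkC P i k ν = ∑ a, ∑ l : Fin k → Dir d, ∑ b, (ν a * ∏ j, ν (l j)) * ν b *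
      ((GG P i b (List.ofFn l) 0 : ℝ) : ℂ) := by
  have h : PkC P i k ν = (∑ a, ν a) * PkC P i k ν := by rw [hν, one_mul]
  rw [h, Finset.sum_mul]
  refine Finset.sum_congr rfl fun a _ => ?_
  unfold PkC
  rw [Finset.mul_sum]
  refine Finset.sum_congr rfl fun l _ => ?_
  rw [Finset.mul_sum]
  refine Finset.sum_congr rfl fun b _ => ?_
  ring

lemma holo_step {P : Par} {K : ℕ} {ρ : ℝ} (hK : 1 ≤ K) (hρ : 0 ≤ ρ)
    (hb : ∀ (i : Fin (d + 1)) (b : Dir d), Bd P K (hh P i b) 1)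
    (hc : ∀ (f : St d → ℝ) (c : ℝ), 0 ≤ c → Reg P f → Bd P K f c → ∀ a,
      Bd P K (opT P a f) (ρ * c))
    (i : Fin (d + 1)) (k : ℕ) (ν : Dir d → ℂ) (hν : ∑ a, ν a = 1) :
    ‖PkC P i (k + 1) ν - PkC P i k ν‖ ≤ ρ ^ k * (∑ a, ‖ν a‖) ^ (k + 2) := by
  rw [holo_succ, holo_same P i k ν hν]
  simp only [← Finset.sum_sub_distrib]
  have h1 : (∑ a, ‖ν a‖) ^ (k + 2) =
      ∑ a, ∑ l : Fin k → Dir d, ∑ b, (‖ν a‖ * ∏ j, ‖ν (l j)‖) * ‖ν b‖ := by
    have h2 : (∑ a, ‖ν a‖) ^ k = ∑ l : Fin k → Dir d, ∏ j, ‖ν (l j)‖ :=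
      Fintype.sum_pow (fun a => ‖ν a‖) k
    rw [pow_succ, pow_succ, h2, mul_comm (∑ l : Fin k → Dir d, ∏ j, ‖ν (l j)‖), Finset.sum_mul,
      Finset.sum_mul]
    refine Finset.sum_congr rfl fun a _ => ?_
    rw [Finset.sum_comm, Finset.mul_sum]
    refine Finset.sum_congr rfl fun b _ => ?_
    rw [Finset.mul_sum, Finset.sum_mul]
  rw [h1, Finset.mul_sum]
  refine (norm_sum_le _ _).trans (Finset.sum_le_sum fun a _ => ?_)
  rw [Finset.mul_sum]
  refine (norm_sum_le _ _).trans (Finset.sum_le_sum fun l _ => ?_)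
  rw [Finset.mul_sum]
  refine (norm_sum_le _ _).trans (Finset.sum_le_sum fun b _ => ?_)
  have h3 := holo_diff hK hρ hb hc i b a (List.ofFn l)
  rw [List.length_ofFn] at h3
  rw [← mul_sub, norm_mul, norm_mul, norm_mul, norm_prod, ← Complex.ofReal_sub, Complex.norm_real,
    Real.norm_eq_abs, mul_comm (ρ ^ k)]
  exact mul_le_mul_of_nonneg_left h3 (by positivity)

theorem claimHolo (h1 : ClaimPhi) (h2 : ClaimContr) : ClaimHolo := by
  intro P d i
  obtain ⟨K, ρ, hphi⟩ := h1 P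
  obtain ⟨hK, hρ, hρ1, -⟩ := id hphi
  obtain ⟨hb, hc⟩ := h2 P d K ρ hphi
  set r : ℝ := 2 / (1 + ρ) with hr
  have hr1 : 1 < r := by
    rw [hr, lt_div_iff₀ (by linarith)]
    linarith
  have hr0 : 0 < r := by linarith
  have hρr : ρ * r < 1 := by
    rw [hr, mul_div_assoc', div_lt_one (by linarith)]
    linarith
  have hstep : ∀ ν : Dir d → ℂ, ∑ a, ν a = 1 → ∑ a, ‖ν a‖ ≤ r → ∀ k,
      dist (PkC P i k ν) (PkC P i (k + 1) ν) ≤ r ^ 2 * (ρ * r) ^ k := by
    intro ν hν hνr k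
    rw [dist_comm, dist_eq_norm]
    refine (holo_step hK hρ hb hc i k ν hν).trans ?_
    have h3 : (∑ a, ‖ν a‖) ^ (k + 2) ≤ r ^ (k + 2) :=
      pow_le_pow_left₀ (Finset.sum_nonneg fun a _ => norm_nonneg _) hνr _
    calc ρ ^ k * (∑ a, ‖ν a‖) ^ (k + 2) ≤ ρ ^ k * r ^ (k + 2) :=
          mul_le_mul_of_nonneg_left h3 (pow_nonneg hρ k)
      _ = r ^ 2 * (ρ * r) ^ k := by rw [mul_pow]; ring
  set V : (Dir d → ℂ) → ℂ := fun ν => limUnder atTop fun k => PkC P i k ν with hV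
  have hlim : ∀ ν : Dir d → ℂ, ∑ a, ν a = 1 → ∑ a, ‖ν a‖ ≤ r →
      Tendsto (fun k => PkC P i k ν) atTop (𝓝 (V ν)) := by
    intro ν hν hνr
    exact (cauchySeq_of_le_geometric (ρ * r) (r ^ 2) hρr (hstep ν hν hνr)).tendsto_limUnder
  refine ⟨r, hr1, r + r ^ 2 / (1 - ρ * r), V, ?_, ?_⟩
  · intro ν hν hνr
    refine ⟨hlim ν hν hνr, ?_⟩
    have h3 := dist_le_of_le_geometric_of_tendsto₀ (ρ * r) (r ^ 2) hρr (hstep ν hν hνr)
      (hlim ν hν hνr)
    have h4 := (holo_zero P i ν).trans hνr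
    calc ‖V ν‖ = ‖PkC P i 0 ν - (PkC P i 0 ν - V ν)‖ := by rw [sub_sub_cancel]
      _ ≤ ‖PkC P i 0 ν‖ + ‖PkC P i 0 ν - V ν‖ := norm_sub_le _ _
      _ ≤ r + r ^ 2 / (1 - ρ * r) := by
        rw [← dist_eq_norm]
        exact add_le_add h4 h3
  · intro U c hU hdiff hsum hnorm
    have hunif : TendstoUniformlyOn (fun k z => PkC P i k (c z)) (fun z => V (c z)) atTop U := by
      rw [Metric.tendstoUniformlyOn_iff]
      intro ε hε
      have h3 : Tendsto (fun k : ℕ => r ^ 2 * (ρ * r) ^ k / (1 - ρ * r)) atTop (𝓝 0) := by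
        have h4 := tendsto_pow_atTop_nhds_zero_of_lt_one (mul_nonneg hρ hr0.le) hρr
        have h5 := (h4.const_mul (r ^ 2)).div_const (1 - ρ * r)
        simpa using h5
      filter_upwards [h3.eventually_lt_const hε] with k hk z hz
      rw [dist_comm]
      exact (dist_le_of_le_geometric_of_tendsto (ρ * r) (r ^ 2) hρr
        (hstep _ (hsum z hz) (hnorm z hz)) (hlim _ (hsum z hz) (hnorm z hz)) k).trans_lt hk
    refine hunif.tendstoLocallyUniformlyOn.differentiableOn ?_ hU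
    refine Eventually.of_forall fun k => ?_
    unfold PkC
    refine DifferentiableOn.fun_sum fun l _ => DifferentiableOn.fun_sum fun b _ => ?_
    refine DifferentiableOn.mul (DifferentiableOn.mul ?_ (hdiff b)) (differentiableOn_const _)
    exact DifferentiableOn.fun_finsetProd fun j _ => hdiff (l j)

end DynPerc
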