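import Pool.Agent.Work.MP_f058f1_pr.Stmts

/-!
# MP_f058f1_pr, item B4: resampling one coordinate of an iid sequence
-/

open MeasureTheory ProbabilityTheory Filter Topology

noncomputable section

namespace DynPerc

lemma in_meas {X : Type} [MeasurableSpace X] (n : ℕ) :
    Measurable (fun q : X × (ℕ → X) => Function.update q.2 n q.1) := by
  refine measurable_pi_lambda _ fun j => ?_
  by_cases h : j = n
  · subst h
    simpa using measurable_fst
  · have e : (fun q : X × (ℕ → X) => Function.update q.2 n q.1 j) = fun q => q.2 j := by
      funext q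
      rw [Function.update_of_ne h]
    rw [e]
    exact (measurable_pi_apply j).comp measurable_snd

/-- Item B4. -/
theorem claimInd : ClaimInd := by
  intro X _ κ _ n
  refine Measure.eq_infinitePi _ fun s t ht => ?_
  rw [Measure.map_apply (in_meas n) (MeasurableSet.pi s.countable_toSet fun i _ => ht i)]
  by_cases hn : n ∈ s
  · have e : (fun q : X × (ℕ → X) => Function.update q.2 n q.1) ⁻¹' (Set.pi (s : Set ℕ) t) =
        (t n) ×ˢ (Set.pi ((s.erase n : Finset ℕ) : Set ℕ) t) := by
      ext q
      simp only [Set.mem_preimage, Set.mem_pi, Finset.mem_coe, Set.mem_prod, Finset.mem_erase]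
      constructor
      · intro h
        refine ⟨by simpa using h n hn, fun i hi => ?_⟩
        have := h i hi.2
        rwa [Function.update_of_ne hi.1] at this
      · rintro ⟨h1, h2⟩ i hi
        by_cases hin : i = n
        · subst hin
          simpa using h1
        · rw [Function.update_of_ne hin]
          exact h2 i ⟨hin, hi⟩
    rw [e, Measure.prod_prod, Measure.infinitePi_pi _ (fun i _ => ht i)]
    rw [Finset.mul_prod_erase s (fun i => κ (t i)) hn]
  · have e : (fun q : X × (ℕ → X) => Function.update q.2 n q.1) ⁻¹' (Set.pi (s : Set ℕ) t) =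
        Set.univ ×ˢ (Set.pi (s : Set ℕ) t) := by
      ext q
      simp only [Set.mem_preimage, Set.mem_pi, Finset.mem_coe, Set.mem_prod, Set.mem_univ, true_and]
      refine forall₂_congr fun i hi => ?_
      have hin : i ≠ n := fun h => hn (by rw [← h]; exact hi)
      rw [Function.update_of_ne hin]
    rw [e, Measure.prod_prod, Measure.infinitePi_pi _ (fun i _ => ht i), measure_univ, one_mul]

end DynPerc
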