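import Pool.Agent.Work.MP_f058f1_pr.Stmts

/-!
# Item C2: law of large numbers from a variance bound
-/

open MeasureTheory ProbabilityTheory Filter Topology

noncomputable section

namespace DynPerc

theorem lln_step (x : ℕ → ℝ) (h : ∀ n, |x (n + 1) - x n| ≤ 1) (n m : ℕ) :
    |x (n + m) - x n| ≤ m := by
  induction m with
  | zero => simp
  | succ m ih =>
    have e : x (n + (m + 1)) - x n = (x (n + m + 1) - x (n + m)) + (x (n + m) - x n) := by
      rw [← add_assoc]; ring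
    rw [e]
    refine (abs_add_le _ _).trans ?_
    have := h (n + m)
    push_cast
    linarith

theorem lln_det (x : ℕ → ℝ) (V : ℝ) (h : ∀ n, |x (n + 1) - x n| ≤ 1)
    (hk : Tendsto (fun k : ℕ => x ((k + 1) ^ 2) / ((k : ℝ) + 1) ^ 2) atTop (𝓝 V)) :
    Tendsto (fun n : ℕ => x n / n) atTop (𝓝 V) := by
  have hk' : Tendsto (fun k : ℕ => x (k ^ 2) / (k : ℝ) ^ 2) atTop (𝓝 V) := by
    rw [← tendsto_add_atTop_iff_nat 1]
    refine hk.congr fun k => ?_
    push_cast
    rfl
  have hs : Tendsto Nat.sqrt atTop atTop := by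
    refine tendsto_atTop_atTop.2 fun b => ⟨b * b, fun n hn => Nat.le_sqrt.2 hn⟩
  have h1 : Tendsto (fun n : ℕ => |x (n.sqrt ^ 2) / (n.sqrt : ℝ) ^ 2 - V|) atTop (𝓝 0) := by
    have := (hk'.comp hs).sub_const V
    rw [sub_self] at this
    simpa using this.abs
  have h2 : Tendsto (fun n : ℕ => (2 + 2 * |V|) * ((n.sqrt : ℝ))⁻¹) atTop (𝓝 0) := by
    have := ((tendsto_inv_atTop_zero.comp (tendsto_natCast_atTop_atTop (R := ℝ))).comp hs).const_mul
      (2 + 2 * |V|)
    rw [mul_zero] at this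
    exact this
  rw [tendsto_iff_norm_sub_tendsto_zero]
  have h3 := h2.add h1
  rw [add_zero] at h3
  refine squeeze_zero' (Eventually.of_forall fun n => norm_nonneg _) ?_ h3
  filter_upwards [eventually_ge_atTop 1] with n hn
  set k := n.sqrt with hkdef
  have k1 : 1 ≤ k := Nat.le_sqrt.2 (by simpa using hn)
  have k2 : k * k ≤ n := Nat.sqrt_le n
  have k3 : n ≤ k * k + k + k := Nat.sqrt_le_add n
  obtain ⟨m, hm⟩ := Nat.exists_eq_add_of_le k2
  have hm2 : m ≤ 2 * k := by omega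
  have kr : (1 : ℝ) ≤ k := by exact_mod_cast k1
  have hkp : (0 : ℝ) < k := by linarith
  have nr : (n : ℝ) = (k : ℝ) ^ 2 + m := by rw [hm]; push_cast; ring
  have mr : (m : ℝ) ≤ 2 * k := by exact_mod_cast hm2
  have m0 : (0 : ℝ) ≤ m := Nat.cast_nonneg m
  have hnp : (0 : ℝ) < n := by exact_mod_cast hn
  have a1 : |x n - x (k ^ 2)| ≤ m := by
    have := lln_step x h (k ^ 2) m
    rw [hm, ← pow_two]
    exact this
  have e : x n / n - V = (x n - x (k ^ 2)) / n + (x (k ^ 2) / (k : ℝ) ^ 2 - V) * ((k : ℝ) ^ 2 / n)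
      - V * (m / n) := by
    have : (m : ℝ) = n - (k : ℝ) ^ 2 := by rw [nr]; ring
    rw [this]
    field_simp
    ring
  rw [Real.norm_eq_abs, e]
  have b1 : |(x n - x (k ^ 2)) / n| ≤ 2 * (k : ℝ)⁻¹ := by
    rw [abs_div, abs_of_pos hnp, div_le_iff₀ hnp]
    calc |x n - x (k ^ 2)| ≤ m := a1
      _ ≤ 2 * k := mr
      _ = 2 * (k : ℝ)⁻¹ * (k : ℝ) ^ 2 := by field_simp
      _ ≤ 2 * (k : ℝ)⁻¹ * n := by
        refine mul_le_mul_of_nonneg_left ?_ (by positivity)
        rw [nr]; linarith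
  have b2 : |(x (k ^ 2) / (k : ℝ) ^ 2 - V) * ((k : ℝ) ^ 2 / n)| ≤
      |x (k ^ 2) / (k : ℝ) ^ 2 - V| := by
    rw [abs_mul]
    refine mul_le_of_le_one_right (abs_nonneg _) ?_
    rw [abs_of_nonneg (by positivity), div_le_one hnp, nr]
    linarith
  have b3 : |V * (m / n)| ≤ 2 * |V| * (k : ℝ)⁻¹ := by
    rw [abs_mul, abs_of_nonneg (by positivity : (0 : ℝ) ≤ m / n)]
    have : (m : ℝ) / n ≤ 2 * (k : ℝ)⁻¹ := by
      rw [div_le_iff₀ hnp]
      calc (m : ℝ) ≤ 2 * k := mr
        _ = 2 * (k : ℝ)⁻¹ * (k : ℝ) ^ 2 := by field_simp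
        _ ≤ 2 * (k : ℝ)⁻¹ * n := by
          refine mul_le_mul_of_nonneg_left ?_ (by positivity)
          rw [nr]; linarith
    nlinarith [abs_nonneg V]
  refine (abs_sub _ _).trans ((add_le_add (abs_add_le _ _) le_rfl).trans ?_)
  linarith

theorem claimLLN : ClaimLLN := by
  intro Ω _ μ _ X V C hm h0 hX hv
  have hC : 0 ≤ C := by
    have := hv 0
    have h1 : 0 ≤ ∫ ω, (X 0 ω - (0 : ℕ) * V) ^ 2 ∂μ := integral_nonneg fun ω => sq_nonneg _
    push_cast at this h1
    linarith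
  have hb : ∀ n ω, |X n ω| ≤ n := by
    intro n ω
    have := lln_step (fun n => X n ω) (fun n => hX n ω) 0 n
    simpa [h0 ω] using this
  -- the functions
  set f : ℕ → Ω → ℝ := fun k ω => (X ((k + 1) ^ 2) ω / ((k : ℝ) + 1) ^ 2 - V) ^ 2 with hf
  have fm : ∀ k, Measurable (f k) := fun k => (((hm _).div_const _).sub_const _).pow_const _
  have fi : ∀ k, Integrable (f k) μ := by
    intro k
    refine Integrable.of_bound (fm k).aestronglyMeasurable ((1 + |V|) ^ 2)
      (Eventually.of_forall fun ω => ?_)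
    rw [Real.norm_eq_abs, abs_of_nonneg (sq_nonneg _)]
    refine sq_le_sq' ?_ ?_
    · have h1 : |X ((k + 1) ^ 2) ω / ((k : ℝ) + 1) ^ 2| ≤ 1 := by
        rw [abs_div, abs_of_nonneg (by positivity : (0 : ℝ) ≤ ((k : ℝ) + 1) ^ 2),
          div_le_one (by positivity)]
        have := hb ((k + 1) ^ 2) ω
        push_cast at this
        exact this
      have h2 := abs_le.1 h1
      have h3 := le_abs_self V
      linarith [h2.1]
    · have h1 : |X ((k + 1) ^ 2) ω / ((k : ℝ) + 1) ^ 2| ≤ 1 := by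
        rw [abs_div, abs_of_nonneg (by positivity : (0 : ℝ) ≤ ((k : ℝ) + 1) ^ 2),
          div_le_one (by positivity)]
        have := hb ((k + 1) ^ 2) ω
        push_cast at this
        exact this
      have h2 := abs_le.1 h1
      have h3 := neg_abs_le V
      linarith [h2.2]
  have fint : ∀ k, ∫ ω, f k ω ∂μ ≤ 2 * C * (1 / ((k : ℝ) + 1) ^ 2) := by
    intro k
    have hp : (0 : ℝ) < (k : ℝ) + 1 := by positivity
    have e : ∀ ω, f k ω = (1 / ((k : ℝ) + 1) ^ 4) *
        (X ((k + 1) ^ 2) ω - (((k + 1) ^ 2 : ℕ) : ℝ) * V) ^ 2 := by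
      intro ω
      simp only [hf]
      push_cast
      field_simp
    simp only [e]
    rw [integral_const_mul]
    have h1 := hv ((k + 1) ^ 2)
    refine (mul_le_mul_of_nonneg_left h1 (by positivity)).trans ?_
    push_cast
    rw [div_mul_eq_mul_div, one_mul, div_le_iff₀ (by positivity)]
    have h2 : 2 * C * (1 / ((k : ℝ) + 1) ^ 2) * ((k : ℝ) + 1) ^ 4 = 2 * C * ((k : ℝ) + 1) ^ 2 := by
      field_simp
    rw [h2]
    have h3 : (1 : ℝ) ≤ ((k : ℝ) + 1) ^ 2 := by
      have : (0 : ℝ) ≤ k := Nat.cast_nonneg k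
      nlinarith
    nlinarith
  have hsum : Summable fun k : ℕ => 2 * C * (1 / ((k : ℝ) + 1) ^ 2) := by
    refine Summable.mul_left _ ?_
    have := (summable_nat_add_iff 1).2 (Real.summable_one_div_nat_pow.2 one_lt_two)
    refine this.congr fun k => ?_
    push_cast
    rfl
  have hlt : ∫⁻ ω, ∑' k, ENNReal.ofReal (f k ω) ∂μ ≠ ⊤ := by
    rw [lintegral_tsum fun k => (fm k).ennreal_ofReal.aemeasurable]
    have h1 : ∀ k, ∫⁻ ω, ENNReal.ofReal (f k ω) ∂μ ≤
        ENNReal.ofReal (2 * C * (1 / ((k : ℝ) + 1) ^ 2)) := by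
      intro k
      rw [← ofReal_integral_eq_lintegral_ofReal (fi k) (Eventually.of_forall fun ω => sq_nonneg _)]
      exact ENNReal.ofReal_le_ofReal (fint k)
    refine ne_top_of_le_ne_top ?_ (ENNReal.tsum_le_tsum h1)
    rw [← ENNReal.ofReal_tsum_of_nonneg (fun k => by positivity) hsum]
    exact ENNReal.ofReal_ne_top
  have hae := ae_lt_top' (Measurable.ennreal_tsum fun k => (fm k).ennreal_ofReal).aemeasurable hlt
  filter_upwards [hae] with ω hω
  refine lln_det (fun n => X n ω) V (fun n => hX n ω) ?_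
  have h1 : Tendsto (fun k => ENNReal.ofReal (f k ω)) atTop (𝓝 0) :=
    ENNReal.tendsto_atTop_zero_of_tsum_ne_top hω.ne
  have h2 : Tendsto (fun k => f k ω) atTop (𝓝 0) := by
    have := (ENNReal.tendsto_toReal ENNReal.zero_ne_top).comp h1
    refine (this.congr fun k => ?_)
    show (ENNReal.ofReal (f k ω)).toReal = _
    exact ENNReal.toReal_ofReal (sq_nonneg _)
  have h3 : Tendsto (fun k : ℕ => Real.sqrt (f k ω)) atTop (𝓝 0) := by
    have := (Real.continuous_sqrt.tendsto 0).comp h2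
    rw [Real.sqrt_zero] at this
    exact this
  rw [tendsto_iff_norm_sub_tendsto_zero]
  refine h3.congr fun k => ?_
  simp only [hf]
  rw [Real.sqrt_sq_eq_abs, Real.norm_eq_abs]

end DynPerc
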