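import Pool.Agent.Work.MP_f058f1_pr.Stmts

/-!
# Item D3 of MP_f058f1_pr: upper bound of the speed with small lateral weights
-/

open MeasureTheory ProbabilityTheory Filter Topology

noncomputable section

namespace DynPerc

variable {d : ℕ}

lemma lat_card (d : ℕ) : ((lat d).card : ℝ) = 2 * d := by
  have h : (lat d).card = 2 * d := by
    rw [lat, Finset.card_filter, Fintype.sum_prod_type, Fin.sum_univ_succ]
    simp [Fin.succ_ne_zero]
    ring
  rw [h]; push_cast; ring

lemma lat_sum (s : ℝ) (F : Dir d → ℝ) :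
    ∑ a, nu2 d s 0 a * F a = (1 - 2 * d * s) * F (0, true) + s * ∑ b ∈ lat d, F b := by
  rw [lat, Finset.sum_filter, Fintype.sum_prod_type, Fintype.sum_prod_type, Fin.sum_univ_succ,
    Fin.sum_univ_succ]
  simp only [Fintype.sum_bool, nu2, Fin.succ_ne_zero, ne_eq, not_true_eq_false,
    not_false_eq_true, zero_mul, add_zero, sub_zero, zero_add, ↓reduceIte, Bool.false_eq_true]
  rw [Finset.mul_sum]
  congr 1
  exact Finset.sum_congr rfl fun i _ => by ring

lemma lat_split (P : Par) (s : ℝ) (f : St d → ℝ) (S : St d) :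
    opN P (nu2 d s 0) f S = (1 - 2 * d * s) * opT P (0, true) f S +
      s * ∑ b ∈ lat d, opT P b f S :=
  lat_sum s fun a => opT P a f S

lemma lat_inv_zero (P : Par) : Inv P (0 : St d) :=
  ⟨valid_zero P, fun _ _ => rfl, fun _ _ => le_rfl⟩

/-- Expectation after `n` steps. -/
def latE (P : Par) (s : ℝ) (n : ℕ) (f : St d → ℝ) : ℝ := ((opN P (nu2 d s 0))^[n] f) 0

lemma latE_succ (P : Par) (s : ℝ) (n : ℕ) (f : St d → ℝ) :
    latE P s (n + 1) f = latE P s n (opN P (nu2 d s 0) f) := rfl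

lemma lat_mem_ne {b : Dir d} (hb : b ∈ lat d) : b ≠ (0, false) := by
  rintro rfl
  simp [lat] at hb

section

variable (P : Par) (s : ℝ) (hs : 0 ≤ s) (hz : 0 ≤ 1 - 2 * d * s) (h1 : ClaimOne)

include h1 in
lemma lat_opT_mono {f g : St d → ℝ} (hf : Reg P f) (hg : Reg P g)
    (h : ∀ S, Inv P S → f S ≤ g S) (a : Dir d) (ha : a ≠ (0, false)) (S : St d)
    (hS : Inv P S) : opT P a f S ≤ opT P a g S :=
  opT_mono hf hg hS.1 (fun t ht => h _ ((h1 P d).2.1 S hS a ha t ht true))
    (fun t ht => h _ ((h1 P d).2.1 S hS a ha t ht false))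

include hs hz h1 in
lemma lat_mono {f g : St d → ℝ} (hf : Reg P f) (hg : Reg P g)
    (h : ∀ S, Inv P S → f S ≤ g S) (S : St d) (hS : Inv P S) :
    opN P (nu2 d s 0) f S ≤ opN P (nu2 d s 0) g S := by
  rw [lat_split, lat_split]
  refine add_le_add (mul_le_mul_of_nonneg_left
    (lat_opT_mono P h1 hf hg h _ (by simp) S hS) hz)
    (mul_le_mul_of_nonneg_left (Finset.sum_le_sum fun b hb => ?_) hs)
  exact lat_opT_mono P h1 hf hg h b (lat_mem_ne hb) S hS

include hs hz h1 in
lemma latE_mono {f g : St d → ℝ} (hf : Reg P f) (hg : Reg P g)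
    (h : ∀ S, Inv P S → f S ≤ g S) (n : ℕ) : latE P s n f ≤ latE P s n g := by
  induction n generalizing f g with
  | zero => exact h 0 (lat_inv_zero P)
  | succ n ih =>
    rw [latE_succ, latE_succ]
    exact ih (hf.opN _) (hg.opN _) (lat_mono P s hs hz h1 hf hg h)

include hs hz h1 in
lemma latE_congr {f g : St d → ℝ} (hf : Reg P f) (hg : Reg P g)
    (h : ∀ S, Inv P S → f S = g S) (n : ℕ) : latE P s n f = latE P s n g :=
  le_antisymm (latE_mono P s hs hz h1 hf hg (fun S hS => (h S hS).le) n)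
    (latE_mono P s hs hz h1 hg hf (fun S hS => (h S hS).ge) n)

lemma lat_reg_lin {f g : St d → ℝ} (hf : Reg P f) (hg : Reg P g) (c0 c1 c2 : ℝ) :
    Reg P (fun S => c0 + c1 * f S + c2 * g S) :=
  ((Reg.const P c0).add (hf.const_mul c1)).add (hg.const_mul c2)

lemma lat_opT_lin {f g : St d → ℝ} (hf : Reg P f) (hg : Reg P g) (c0 c1 c2 : ℝ) (a : Dir d)
    (S : St d) (hS : Valid P S) :
    opT P a (fun S => c0 + c1 * f S + c2 * g S) S = c0 + c1 * opT P a f S + c2 * opT P a g S := by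
  rw [opT_add ((Reg.const P c0).add (hf.const_mul c1)) (hg.const_mul c2) hS,
    opT_add (Reg.const P c0) (hf.const_mul c1) hS, opT_const, opT_const_mul, opT_const_mul]

lemma lat_opN_lin {f g : St d → ℝ} (hf : Reg P f) (hg : Reg P g) (c0 c1 c2 : ℝ)
    (S : St d) (hS : Valid P S) :
    opN P (nu2 d s 0) (fun S => c0 + c1 * f S + c2 * g S) S =
      c0 + c1 * opN P (nu2 d s 0) f S + c2 * opN P (nu2 d s 0) g S := by
  rw [lat_split, lat_split, lat_split, lat_opT_lin P hf hg c0 c1 c2 _ S hS]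
  rw [Finset.sum_congr rfl fun b _ => lat_opT_lin P hf hg c0 c1 c2 b S hS,
    Finset.sum_add_distrib, Finset.sum_add_distrib, Finset.sum_const, nsmul_eq_mul, lat_card,
    ← Finset.mul_sum, ← Finset.mul_sum]
  ring

include hs hz h1 in
lemma latE_lin {f g : St d → ℝ} (hf : Reg P f) (hg : Reg P g) (c0 c1 c2 : ℝ) (n : ℕ) :
    latE P s n (fun S => c0 + c1 * f S + c2 * g S) =
      c0 + c1 * latE P s n f + c2 * latE P s n g := by
  induction n generalizing f g with
  | zero => rfl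
  | succ n ih =>
    rw [latE_succ, latE_succ, latE_succ, ← ih (hf.opN _) (hg.opN _)]
    exact latE_congr P s hs hz h1 ((lat_reg_lin P hf hg c0 c1 c2).opN _)
      (lat_reg_lin P (hf.opN _) (hg.opN _) c0 c1 c2)
      (fun S hS => lat_opN_lin P s hf hg c0 c1 c2 S hS.1) n

lemma lat_NN_zero : NN (0 : St d) = 0 := by
  unfold NN
  rw [if_pos]
  exact ⟨fun _ _ _ _ => rfl, fun _ _ _ => rfl⟩

lemma lat_NN_le (S : St d) : NN S ≤ 1 := by
  unfold NN; split_ifs <;> simp

lemma lat_NN_nonneg (S : St d) : 0 ≤ NN S := by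
  unfold NN; split_ifs <;> simp

include hs hz h1 in
lemma lat_NNbound (η : ℝ) (hη0 : 0 ≤ η)
    (hη : 2 * d * s + (1 - 2 * d * s) * (1 - P.p * (1 - ca P)) * η ≤ η)
    (hc : 0 ≤ 1 - P.p * (1 - ca P)) (n : ℕ) :
    latE P s n (NN : St d → ℝ) ≤ η := by
  induction n with
  | zero => show NN (0 : St d) ≤ η; rw [lat_NN_zero]; exact hη0
  | succ n ih =>
    have hR : Reg P (NN : St d → ℝ) := (h1 P d).1
    rw [latE_succ]
    have key := latE_mono P s hs hz h1 (hR.opN (nu2 d s 0))
      (lat_reg_lin P hR hR (2 * d * s) ((1 - 2 * d * s) * (1 - P.p * (1 - ca P))) 0)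
      (fun S hS => by
        rw [lat_split]
        have e1 := (h1 P d).2.2.2.2.2.2 S hS
        have e2 : ∑ b ∈ lat d, opT P b NN S ≤ 2 * d := by
          have : ∑ b ∈ lat d, opT P b NN S ≤ ∑ b ∈ lat d, (1 : ℝ) := by
            refine Finset.sum_le_sum fun b _ => ?_
            have := opT_mono (a := b) hR (Reg.const P 1) hS.1 (fun t _ => lat_NN_le _)
              (fun t _ => lat_NN_le _)
            rwa [opT_const] at this
          refine this.trans ?_
          rw [Finset.sum_const, nsmul_eq_mul, lat_card, mul_one]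
        have e3 := mul_le_mul_of_nonneg_left e1 hz
        have e4 := mul_le_mul_of_nonneg_left e2 hs
        nlinarith) n
    rw [latE_lin P s hs hz h1 hR hR] at key
    refine key.trans ?_
    have := mul_le_mul_of_nonneg_left ih (mul_nonneg hz hc)
    linarith

lemma lat_FF_reg (A B : ℝ) : Reg P (FF A B : St d → ℝ) :=
  (Reg.sum _ fun b _ => Reg.apply P (edgeOf 0 b)).mul
    ((Reg.const P A).add ((Reg.apply P _).const_mul B))

lemma lat_FF_le {A B : ℝ} (hA : 0 ≤ A) (hB : B ≤ 0) (S : St d) (hS : Inv P S) :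
    FF A B S ≤ 2 * d * (A - P.p * B) := by
  obtain ⟨hv, h0, hr⟩ := hS
  have hp := P.p_pos
  have e1 : ∑ b ∈ lat d, S (edgeOf 0 b) ≤ 2 * d := by
    have : ∑ b ∈ lat d, S (edgeOf 0 b) ≤ ∑ b ∈ lat d, (1 : ℝ) :=
      Finset.sum_le_sum fun b _ => (hv _).2.trans (by linarith)
    refine this.trans ?_
    rw [Finset.sum_const, nsmul_eq_mul, lat_card, mul_one]
  have e2 : S (0, 0) ≤ 0 := hr 0 rfl
  have e3 := (hv (0, 0)).1
  have e4 : 0 ≤ A + B * S (0, 0) := by nlinarith
  have e5 : A + B * S (0, 0) ≤ A - P.p * B := by nlinarith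
  unfold FF
  calc (∑ b ∈ lat d, S (edgeOf 0 b)) * (A + B * S (0, 0)) ≤ 2 * d * (A + B * S (0, 0)) :=
        mul_le_mul_of_nonneg_right e1 e4
    _ ≤ _ := mul_le_mul_of_nonneg_left e5 (by positivity)

lemma lat_FF_zero (A B : ℝ) : FF A B (0 : St d) = 0 := by
  simp [FF]

include hs hz h1 in
lemma lat_FFbound (η Q : ℝ) (hη : ∀ n, latE P s n (NN : St d → ℝ) ≤ η) (hQ0 : 0 ≤ Q)
    (hQ : (1 - 2 * d * s) * Q * ((1 - P.p) * ca P + P.p * ca2 P) + s * (2 * d) ^ 2 * η ≤ Q)
    (ha : 0 ≤ ca P) (ha2 : 0 ≤ ca2 P) (n : ℕ) :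
    ∀ A B : ℝ, 0 ≤ A → B ≤ 0 → latE P s n (FF A B : St d → ℝ) ≤ Q * (A - P.p * B) := by
  have hp := P.p_pos
  have hp1 := P.p_lt
  induction n with
  | zero =>
    intro A B hA hB
    show FF A B (0 : St d) ≤ _
    rw [lat_FF_zero]
    exact mul_nonneg hQ0 (by nlinarith)
  | succ n ih =>
    intro A B hA hB
    have hD : 0 ≤ A - P.p * B := by nlinarith
    set A' := (A - B * P.p) * ((1 - P.p) * ca P) with hA'
    set B' := -((A - B * P.p) * ca2 P) with hB'
    have hA0 : 0 ≤ A' := mul_nonneg (by linarith) (mul_nonneg (by linarith) ha)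
    have hB0 : B' ≤ 0 := by
      rw [hB']; have := mul_nonneg (by linarith : 0 ≤ A - B * P.p) ha2; linarith
    rw [latE_succ]
    have key := latE_mono P s hs hz h1 ((lat_FF_reg P A B).opN (nu2 d s 0))
      (lat_reg_lin P (lat_FF_reg P A' B') (h1 P d).1 0 (1 - 2 * d * s)
        (s * (2 * d) ^ 2 * (A - P.p * B)))
      (fun S hS => by
        rw [lat_split, (h1 P d).2.2.2.2.1 A B S hS, ← hA', ← hB']
        have e1 : ∑ b ∈ lat d, opT P b (FF A B) S ≤ (2 * d) ^ 2 * (A - P.p * B) * NN S := by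
          by_cases hC : Clean S
          · have : NN S = 0 := by unfold NN; rw [if_pos hC]
            rw [this, mul_zero]
            exact Finset.sum_nonpos fun b hb => (h1 P d).2.2.2.2.2.1 A B S hB hS hC b hb
          · have : NN S = 1 := by unfold NN; rw [if_neg hC]
            rw [this, mul_one]
            have h3 : ∑ b ∈ lat d, opT P b (FF A B) S ≤
                ∑ b ∈ lat d, (2 * d * (A - P.p * B)) := by
              refine Finset.sum_le_sum fun b hb => ?_
              have := lat_opT_mono P h1 (lat_FF_reg P A B)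
                (Reg.const P (2 * d * (A - P.p * B)))
                (fun S hS => lat_FF_le P hA hB S hS) b (lat_mem_ne hb) S hS
              rwa [opT_const] at this
            refine h3.trans (le_of_eq ?_)
            rw [Finset.sum_const, nsmul_eq_mul, lat_card]
            ring
        have e2 := mul_le_mul_of_nonneg_left e1 hs
        nlinarith) n
    rw [latE_lin P s hs hz h1 (lat_FF_reg P A' B') (h1 P d).1] at key
    refine key.trans ?_
    have e1 := mul_le_mul_of_nonneg_left (ih A' B' hA0 hB0) hz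
    have e2 := mul_le_mul_of_nonneg_left (hη n)
      (mul_nonneg (mul_nonneg hs (by positivity : (0:ℝ) ≤ (2 * d) ^ 2)) hD)
    have e3 : A' - P.p * B' = (A - P.p * B) * ((1 - P.p) * ca P + P.p * ca2 P) := by
      rw [hA', hB']; ring
    rw [e3] at e1
    have e4 := mul_le_mul_of_nonneg_right hQ hD
    nlinarith

lemma lat_YY_reg : Reg P (YY P : St d → ℝ) := (Reg.apply P _).const_mul _

include hs hz h1 in
lemma lat_YYstep (n : ℕ) :
    (1 - 2 * d * s) * (ca P * (1 - P.p)) +
      ((1 - 2 * d * s) * (ca P * P.p) + 2 * d * s * ((1 - P.p) * ca P)) *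
        latE P s n (YY P : St d → ℝ) +
      -(s * ca2 P) * latE P s n (FF 0 (-(ca P / P.p)) : St d → ℝ) ≤
    latE P s (n + 1) (YY P : St d → ℝ) := by
  rw [latE_succ, ← latE_lin P s hs hz h1 (lat_YY_reg P) (lat_FF_reg P _ _)]
  refine latE_mono P s hs hz h1 (lat_reg_lin P (lat_YY_reg P) (lat_FF_reg P _ _) _ _ _)
    ((lat_YY_reg P).opN _) (fun S hS => ?_) n
  rw [lat_split, (h1 P d).2.2.1 S hS]
  have e1 : ∑ b ∈ lat d, (((1 - P.p) * ca P - ca2 P * S (edgeOf 0 b)) * YY P S) ≤
      ∑ b ∈ lat d, opT P b (YY P) S :=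
    Finset.sum_le_sum fun b hb => (h1 P d).2.2.2.1 S hS b hb
  have e2 : ∑ b ∈ lat d, (((1 - P.p) * ca P - ca2 P * S (edgeOf 0 b)) * YY P S) =
      2 * d * ((1 - P.p) * ca P) * YY P S - ca2 P * FF 0 (-(ca P / P.p)) S := by
    rw [← Finset.sum_mul, Finset.sum_sub_distrib, Finset.sum_const, nsmul_eq_mul, lat_card,
      ← Finset.mul_sum]
    unfold FF YY
    ring
  rw [e2] at e1
  have e3 := mul_le_mul_of_nonneg_left e1 hs
  nlinarith

lemma lat_step_zero {b : Dir d} (hb : b.1 ≠ 0) : stepVec b 0 = 0 := by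
  obtain ⟨i, t⟩ := b
  simp only [ne_eq] at hb
  cases t with
  | true =>
    simp only [stepVec, if_true]
    rw [Pi.single_eq_of_ne (Ne.symm hb)]
  | false =>
    simp [stepVec, Pi.single_eq_of_ne (Ne.symm hb)]

lemma lat_hN (S : St d) :
    hN P (nu2 d s 0) 0 S = (1 - 2 * d * s) * P.p + (-((1 - 2 * d * s) * P.p)) * YY P S +
      0 * YY P S := by
  have hp := P.p_pos
  unfold hN
  rw [lat_sum s fun b => hh P 0 b S]
  have e1 : ∑ b ∈ lat d, hh P 0 b S = 0 := by
    refine Finset.sum_eq_zero fun b hb => ?_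
    have hb1 : b.1 ≠ 0 := by simpa [lat] using hb
    unfold hh
    rw [lat_step_zero hb1]
    simp
  rw [e1]
  have e2 : hh P 0 ((0, true) : Dir d) S = P.p + ca P * S (0, 0) := by
    unfold hh
    simp [stepVec, edgeOf]
  rw [e2]
  unfold YY
  field_simp
  ring

include hs hz h1 in
lemma lat_EhN (n : ℕ) : latE P s n (hN P (nu2 d s 0) 0) =
    (1 - 2 * d * s) * P.p * (1 - latE P s n (YY P : St d → ℝ)) := by
  rw [latE_congr P s hs hz h1 (Reg.hN P _ _)
    (lat_reg_lin P (lat_YY_reg P) (lat_YY_reg P) ((1 - 2 * d * s) * P.p)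
      (-((1 - 2 * d * s) * P.p)) 0) (fun S _ => lat_hN P s S) n,
    latE_lin P s hs hz h1 (lat_YY_reg P) (lat_YY_reg P)]
  ring

end

lemma lat_ca (P : Par) : 0 < ca2 P ∧ ca2 P ≤ ca P ∧ 0 < ca P ∧ ca P < 1 := by
  have hmu := P.mu_pos
  unfold ca ca2
  refine ⟨by positivity, ?_, by positivity, ?_⟩
  · apply one_div_le_one_div_of_le <;> linarith
  · rw [div_lt_one (by positivity)]; linarith

/-- The limit of `E_n YY`. -/
lemma lat_tendsto (P : Par) (s : ℝ) (hs : 0 ≤ s) (hz : 0 < 1 - 2 * d * s) (h1 : ClaimOne) (L : ℝ)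
    (hL : Tendsto (fun k => ((opN P (nu2 d s 0))^[k] (hN P (nu2 d s 0) 0)) 0) atTop (𝓝 L)) :
    Tendsto (fun k => latE P s k (YY P : St d → ℝ)) atTop
      (𝓝 (1 - L / ((1 - 2 * d * s) * P.p))) := by
  have hp := P.p_pos
  have hzp : 0 < (1 - 2 * d * s) * P.p := mul_pos hz hp
  have h2 : Tendsto (fun k => 1 - latE P s k (hN P (nu2 d s 0) 0) / ((1 - 2 * d * s) * P.p))
      atTop (𝓝 (1 - L / ((1 - 2 * d * s) * P.p))) := (hL.div_const _).const_sub 1
  refine h2.congr fun k => ?_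
  rw [lat_EhN P s hs hz.le h1]
  field_simp
  ring

/-- The first part of D3 for one value of `s`. -/
lemma lat_upper (P : Par) (s : ℝ) (hs : 0 ≤ s) (hz : 1 / 2 ≤ 1 - 2 * d * s) (h1 : ClaimOne)
    (L : ℝ)
    (hL : Tendsto (fun k => ((opN P (nu2 d s 0))^[k] (hN P (nu2 d s 0) 0)) 0) atTop (𝓝 L)) :
    L ≤ (1 - 2 * d * s) * P.p * (P.mu + P.p * (2 * d * s)) /
        (P.mu + 1 - P.p + (2 * P.p - 1) * (2 * d * s)) +
      (2 * (2 * d) ^ 3 / (P.p * (1 - ca P) * (1 - ((1 - P.p) * ca P + P.p * ca2 P)) *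
        (1 - ca P))) * s ^ 3 := by
  have hp := P.p_pos
  have hp1 := P.p_lt
  have hmu := P.mu_pos
  obtain ⟨c1, c2, c3, c4⟩ := lat_ca P
  set E : ℝ := 2 * d * s with hE
  have hE0 : 0 ≤ E := by positivity
  set z : ℝ := 1 - E with hzdef
  have hz1 : z ≤ 1 := by linarith
  have hz0 : 0 < z := by linarith
  set a := ca P with ha
  set a2 := ca2 P with ha2
  set c : ℝ := P.p * (1 - a) with hc
  have hc0 : 0 < c := mul_pos hp (by linarith)
  have hc1 : c ≤ 1 := by nlinarith
  set κ : ℝ := (1 - P.p) * a + P.p * a2 with hκ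
  have hκ0 : 0 ≤ κ := by
    have := mul_nonneg (by linarith : 0 ≤ 1 - P.p) c3.le
    have := mul_nonneg hp.le c1.le
    linarith
  have hκ1 : κ ≤ a := by nlinarith
  have hκ2 : 0 < 1 - κ := by linarith
  set η : ℝ := 2 * E / c with hη
  have hη0 : 0 ≤ η := by positivity
  have hηc : η * c = 2 * E := by rw [hη]; field_simp
  set Q : ℝ := s * (2 * d) ^ 2 * η / (1 - κ) with hQ
  have hQ0 : 0 ≤ Q := by positivity
  have hQκ : Q * (1 - κ) = s * (2 * d) ^ 2 * η := by rw [hQ]; field_simp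
  have bN := lat_NNbound P s hs (by linarith : 0 ≤ 1 - 2 * d * s) h1 η hη0
    (by
      rw [← hE, ← hzdef, ← ha, ← hc]
      have e1 : 0 ≤ η * E := mul_nonneg hη0 hE0
      have e2 : z * η * c = z * (2 * E) := by rw [mul_assoc, hηc]
      have e3 : E ≤ z * (2 * E) := by nlinarith
      have e4 : z * η = η - η * E := by rw [hzdef]; ring
      nlinarith) (by rw [← ha, ← hc]; linarith)
  have bF := fun n => lat_FFbound P s hs (by linarith : 0 ≤ 1 - 2 * d * s) h1 η Q bN hQ0
    (by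
      rw [← hE, ← hzdef, ← ha, ← ha2, ← hκ, ← hQκ]
      have e1 : z * Q * κ ≤ Q * κ := by
        have := mul_nonneg (mul_nonneg (by linarith : 0 ≤ 1 - z) hQ0) hκ0
        linarith
      linarith) c3.le c1.le n 0 (-(a / P.p)) le_rfl (by
        have : 0 < a / P.p := by positivity
        linarith)
  have hQa : Q * (0 - P.p * -(a / P.p)) = Q * a := by field_simp; ring
  have hy := lat_tendsto P s hs (by linarith : 0 < 1 - 2 * d * s) h1 L hL
  set y : ℝ := 1 - L / ((1 - 2 * d * s) * P.p) with hydef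
  set θ : ℝ := z * (a * P.p) + E * ((1 - P.p) * a) with hθ
  have hθ1 : θ ≤ a := by
    have e1 : z * P.p + E * (1 - P.p) ≤ z + E := by nlinarith
    have e2 : z + E = 1 := by rw [hzdef]; ring
    have e3 : θ = a * (z * P.p + E * (1 - P.p)) := by rw [hθ]; ring
    rw [e3]; nlinarith
  have hθ2 : 0 < 1 - θ := by linarith
  have hstep : ∀ n, z * (a * (1 - P.p)) + θ * latE P s n (YY P : St d → ℝ) -
      s * a2 * (Q * a) ≤ latE P s (n + 1) (YY P : St d → ℝ) := by
    intro n
    have e1 := lat_YYstep P s hs (by linarith : 0 ≤ 1 - 2 * d * s) h1 n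
    have e2 := bF n
    rw [hQa] at e2
    have e3 := mul_le_mul_of_nonneg_left e2 (mul_nonneg hs c1.le)
    rw [← hE, ← hzdef, ← ha, ← ha2, ← hθ] at e1
    linarith
  have hlim : z * (a * (1 - P.p)) + θ * y - s * a2 * (Q * a) ≤ y := by
    refine le_of_tendsto_of_tendsto' (((hy.const_mul θ).const_add (z * (a * (1 - P.p)))).sub_const
      (s * a2 * (Q * a))) ((tendsto_add_atTop_iff_nat 1).2 hy) hstep
  have hzp : 0 < z * P.p := mul_pos hz0 hp
  have hLy : L = z * P.p * (1 - y) := by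
    rw [hydef, ← hE, ← hzdef]; field_simp; ring
  -- the main term
  have hamu : a * (1 + P.mu) = 1 := by
    rw [ha]; unfold ca; field_simp
  have hden : 0 < P.mu + 1 - P.p + (2 * P.p - 1) * E := by
    have : (1 + P.mu) * (1 - θ) = P.mu + 1 - P.p + (2 * P.p - 1) * E := by
      have : θ = a * (z * P.p + E * (1 - P.p)) := by rw [hθ]; ring
      rw [this]
      have : (1 + P.mu) * (1 - a * (z * P.p + E * (1 - P.p))) =
        (1 + P.mu) - (a * (1 + P.mu)) * (z * P.p + E * (1 - P.p)) := by ring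
      rw [this, hamu, hzdef]; ring
    rw [← this]; positivity
  have hfrac : z * P.p * (P.mu + P.p * E) / (P.mu + 1 - P.p + (2 * P.p - 1) * E) =
      z * P.p * (1 - θ - z * (a * (1 - P.p))) / (1 - θ) := by
    rw [div_eq_div_iff hden.ne' hθ2.ne']
    have e1 : (1 + P.mu) * (1 - θ) = P.mu + 1 - P.p + (2 * P.p - 1) * E := by
      have : θ = a * (z * P.p + E * (1 - P.p)) := by rw [hθ]; ring
      rw [this]
      have : (1 + P.mu) * (1 - a * (z * P.p + E * (1 - P.p))) =
        (1 + P.mu) - (a * (1 + P.mu)) * (z * P.p + E * (1 - P.p)) := by ring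
      rw [this, hamu, hzdef]; ring
    have e2 : (1 + P.mu) * (1 - θ - z * (a * (1 - P.p))) = P.mu + P.p * E := by
      have : (1 + P.mu) * (1 - θ - z * (a * (1 - P.p))) =
        (1 + P.mu) * (1 - θ) - z * (1 - P.p) * (a * (1 + P.mu)) := by ring
      rw [this, e1, hamu, hzdef]; ring
    rw [← e1, ← e2]; ring
  rw [hfrac]
  have hmain : (1 - y) * (1 - θ) ≤ (1 - θ - z * (a * (1 - P.p))) + s * a2 * (Q * a) := by
    nlinarith
  have hmain2 : L ≤ z * P.p * (1 - θ - z * (a * (1 - P.p))) / (1 - θ) +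
      z * P.p * (s * a2 * (Q * a)) / (1 - θ) := by
    rw [← add_div, le_div_iff₀ hθ2, hLy]
    have := mul_le_mul_of_nonneg_left hmain hzp.le
    nlinarith
  refine hmain2.trans (add_le_add le_rfl ?_)
  -- the error term
  have hQval : Q = 2 * (2 * d) ^ 3 * s ^ 2 / (c * (1 - κ)) := by
    rw [hQ, hη, hE]; field_simp
  have h5 : z * P.p * (s * a2 * (Q * a)) / (1 - θ) ≤ s * Q / (1 - a) := by
    have e1 : z * P.p * (s * a2 * (Q * a)) ≤ s * Q := by
      have e2 : z * P.p ≤ 1 := by nlinarith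
      have e3 : a2 * a ≤ 1 := by nlinarith
      have e4 : z * P.p * (a2 * a) ≤ 1 := by
        have := mul_le_mul e2 e3 (by positivity) zero_le_one
        linarith
      have e5 : 0 ≤ s * Q := by positivity
      calc z * P.p * (s * a2 * (Q * a)) = (z * P.p * (a2 * a)) * (s * Q) := by ring
        _ ≤ 1 * (s * Q) := mul_le_mul_of_nonneg_right e4 e5
        _ = s * Q := one_mul _
    exact div_le_div₀ (by positivity) e1 (by linarith) (by linarith)
  refine h5.trans (le_of_eq ?_)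
  rw [hQval]
  have : 0 < 1 - a := by linarith
  field_simp

/-- Item D3. -/
theorem claimLat (h : ClaimOne) : ClaimLat := by
  intro P d
  have hp := P.p_pos
  have hp1 := P.p_lt
  have hmu := P.mu_pos
  refine ⟨⟨2 * (2 * d) ^ 3 / (P.p * (1 - ca P) * (1 - ((1 - P.p) * ca P + P.p * ca2 P)) *
        (1 - ca P)), 1 / (4 * d + 1), by positivity, ?_⟩, ?_⟩
  · intro s hs L hL
    refine lat_upper P s hs.1 ?_ h L hL
    have h2 := hs.2
    have hd : (0 : ℝ) ≤ d := Nat.cast_nonneg d
    rw [le_div_iff₀ (by positivity)] at h2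
    nlinarith [hs.1]
  · intro L hL
    have hz : (0:ℝ) < 1 - 2 * d * (0:ℝ) := by norm_num
    have hy := lat_tendsto P 0 le_rfl hz h L hL
    obtain ⟨c1, c2, c3, c4⟩ := lat_ca P
    have hstep : ∀ n, latE P 0 (n + 1) (YY P : St d → ℝ) =
        ca P * (1 - P.p) + (ca P * P.p) * latE P 0 n (YY P : St d → ℝ) := by
      intro n
      rw [latE_succ, latE_congr P 0 le_rfl hz.le h ((lat_YY_reg P).opN _)
        (lat_reg_lin P (lat_YY_reg P) (lat_YY_reg P) (ca P * (1 - P.p)) (ca P * P.p) 0)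
        (fun S hS => by rw [lat_split, (h P d).2.2.1 S hS]; ring) n,
        latE_lin P 0 le_rfl hz.le h (lat_YY_reg P) (lat_YY_reg P)]
      ring
    set y : ℝ := 1 - L / ((1 - 2 * d * (0:ℝ)) * P.p) with hydef
    have hlim : y = ca P * (1 - P.p) + (ca P * P.p) * y := by
      refine tendsto_nhds_unique ((tendsto_add_atTop_iff_nat 1).2 hy) ?_
      have h2 := (hy.const_mul (ca P * P.p)).const_add (ca P * (1 - P.p))
      exact h2.congr fun n => (hstep n).symm
    have hLy : L = P.p * (1 - y) := by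
      rw [hydef]; field_simp; ring
    have hamu : ca P * (1 + P.mu) = 1 := by
      unfold ca; field_simp
    rw [hLy, eq_div_iff (by linarith)]
    have e1 : (P.mu + 1 - P.p) * y = 1 - P.p := by
      have : (1 + P.mu) * y = (1 + P.mu) * (ca P * (1 - P.p) + ca P * P.p * y) := by
        rw [← hlim]
      have e2 : (1 + P.mu) * (ca P * (1 - P.p) + ca P * P.p * y) =
        (ca P * (1 + P.mu)) * ((1 - P.p) + P.p * y) := by ring
      rw [e2, hamu] at this
      linarith
    have : P.p * (1 - y) * (P.mu + 1 - P.p) = P.p * ((P.mu + 1 - P.p) -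
      (P.mu + 1 - P.p) * y) := by ring
    rw [this, e1]; ring

end DynPerc
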