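import Pool.Agent.Work.MP_f058f1_pr.Stmts

/-!
# MP_f058f1_pr, item D1: among the walks without lateral moves the one without left moves is the
fastest
-/

open MeasureTheory ProbabilityTheory Filter Topology

noncomputable section

namespace DynPerc

/-- The walk inputs with all directions replaced by `+e_1`. -/
def le_R {d : ℕ} (w : ℕ → ℝ × Dir d) : ℕ → ℝ × Dir d := fun n => ((w n).1, (0, true))

/-- The walk inputs with gaps `ξ` and all directions `+e_1`. -/
def le_h (d : ℕ) (ξ : ℕ → ℝ) : ℕ → ℝ × Dir d := fun n => (ξ n, (0, true))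

lemma le_ring {d : ℕ} (w : ℕ → ℝ × Dir d) (n : ℕ) : ringTime (le_R w) n = ringTime w n := rfl

lemma le_step_abs {d : ℕ} (a : Dir d) (i : Fin (d + 1)) : |stepVec a i| ≤ 1 := by
  unfold stepVec
  by_cases h : i = a.1
  · subst h
    split_ifs <;> simp
  · split_ifs <;> simp [Pi.single_eq_of_ne h]

lemma le_pos_abs {d : ℕ} (η : Edge d → ℕ → ℝ × Bool) (w : ℕ → ℝ × Dir d) (n : ℕ)
    (i : Fin (d + 1)) : |pos η w n i| ≤ n := by
  induction n with
  | zero => simp [pos]
  | succ n ih =>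
    have h1 := le_step_abs (w n).2 i
    rw [pos]
    split_ifs
    · rw [Pi.add_apply]
      rw [abs_le] at *
      push_cast
      constructor <;> linarith
    · push_cast
      linarith

lemma le_couple {d : ℕ} (η : Edge d → ℕ → ℝ × Bool) (w : ℕ → ℝ × Dir d)
    (hw : ∀ n, (w n).2.1 = 0) (n : ℕ) :
    (∀ i ≠ 0, pos η w n i = 0) ∧ (∀ i ≠ 0, pos η (le_R w) n i = 0) ∧
      pos η w n 0 ≤ pos η (le_R w) n 0 := by
  induction n with
  | zero => simp [pos]
  | succ n ih =>
    obtain ⟨h1, h2, h3⟩ := ih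
    have hR : (le_R w n).2 = (0, true) := rfl
    have hmono : pos η (le_R w) n 0 ≤ pos η (le_R w) (n + 1) 0 := by
      rw [pos, hR]
      split_ifs
      · simp [stepVec]
      · exact le_rfl
    have hlat : ∀ a : Dir d, a.1 = 0 → ∀ i ≠ 0, stepVec a i = 0 := by
      intro a ha i hi
      unfold stepVec
      rw [ha]
      split_ifs <;> simp [Pi.single_eq_of_ne hi]
    refine ⟨?_, ?_, ?_⟩
    · intro i hi
      rw [pos]
      split_ifs
      · rw [Pi.add_apply, h1 i hi, hlat _ (hw n) i hi, add_zero]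
      · exact h1 i hi
    · intro i hi
      rw [pos]
      split_ifs
      · rw [Pi.add_apply, h2 i hi, hlat _ rfl i hi, add_zero]
      · exact h2 i hi
    · rcases lt_or_eq_of_le h3 with hlt | heq
      · have hs := le_step_abs (w n).2 0
        have : pos η w (n + 1) 0 ≤ pos η w n 0 + 1 := by
          rw [pos]
          split_ifs
          · rw [Pi.add_apply]
            rw [abs_le] at hs
            linarith
          · linarith
        linarith
      · have hpe : pos η w n = pos η (le_R w) n := by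
          funext i
          by_cases hi : i = 0
          · rw [hi, heq]
          · rw [h1 i hi, h2 i hi]
        rcases hb : (w n).2.2 with _ | _
        · have ha : (w n).2 = (0, false) := Prod.ext (hw n) hb
          have : pos η w (n + 1) 0 ≤ pos η w n 0 := by
            rw [pos, ha]
            split_ifs
            · simp [stepVec]
            · exact le_rfl
          linarith
        · have ha : (w n).2 = (0, true) := Prod.ext (hw n) hb
          rw [pos, pos, hR, ha, hpe, le_ring]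

lemma le_eq {d : ℕ} (w : ℕ → ℝ × Dir d) (hw : ∀ n, (w n).2 = (0, true)) : le_R w = w := by
  funext n
  exact Prod.ext rfl (hw n).symm

lemma le_meas_R {d : ℕ} : Measurable (le_R : (ℕ → ℝ × Dir d) → ℕ → ℝ × Dir d) := by
  unfold le_R
  exact measurable_pi_lambda _ fun n => ((measurable_pi_apply n).fst).prodMk measurable_const

/-- Law of the gaps. -/
lemma le_gaps {d : ℕ} (ν : stdSimplex ℝ (Dir d)) :
    Measure.map (fun w : ℕ → ℝ × Dir d => fun n => (w n).1) (walkLaw ν) =
      Measure.infinitePi fun _ : ℕ => clockLaw := by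
  unfold walkLaw
  have h := Measure.infinitePi_map_pi (μ := fun _ : ℕ => clockLaw.prod (dirLaw ν))
    (f := fun _ : ℕ => (Prod.fst : ℝ × Dir d → ℝ)) (fun _ => measurable_fst)
  rw [h]
  congr 1
  funext n
  rw [Measure.map_fst_prod, measure_univ, one_smul]

lemma le_map_R {d : ℕ} (ν ν0 : stdSimplex ℝ (Dir d)) :
    Measure.map le_R (walkLaw ν) = Measure.map le_R (walkLaw ν0) := by
  have hg : Measurable (fun w : ℕ → ℝ × Dir d => fun n => (w n).1) :=
    measurable_pi_lambda _ fun n => (measurable_pi_apply n).fst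
  have hh : Measurable (le_h d) := by
    unfold le_h
    exact measurable_pi_lambda _ fun n => (measurable_pi_apply n).prodMk measurable_const
  have e : (le_R : (ℕ → ℝ × Dir d) → ℕ → ℝ × Dir d) =
      le_h d ∘ (fun w : ℕ → ℝ × Dir d => fun n => (w n).1) := rfl
  rw [e, ← Measure.map_map hh hg, ← Measure.map_map hh hg, le_gaps, le_gaps]

lemma le_dir_ae {d : ℕ} (ν : stdSimplex ℝ (Dir d)) (p : Dir d → Prop)
    (h : ∀ a, ¬ p a → ν.1 a = 0) : ∀ᵐ w ∂(walkLaw ν), ∀ n, p (w n).2 := by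
  rw [ae_all_iff]
  intro n
  have h1 : ∀ᵐ a ∂(dirLaw ν), p a := by
    rw [ae_iff]
    unfold dirLaw
    rw [Measure.coe_finsetSum, Finset.sum_apply]
    refine Finset.sum_eq_zero fun a _ => ?_
    rw [Measure.smul_apply]
    by_cases ha : p a
    · have : Measure.dirac a {a | ¬ p a} = 0 := by
        rw [Measure.dirac_apply' _ (Set.toFinite _).measurableSet]
        simp [ha]
      rw [this, smul_zero]
    · rw [h a ha]
      simp
  have h2 : ∀ᵐ q ∂(clockLaw.prod (dirLaw ν)), p q.2 :=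
    Measure.quasiMeasurePreserving_snd.ae h1
  have h3 : Measure.map (fun w : ℕ → ℝ × Dir d => w n) (walkLaw ν) =
      clockLaw.prod (dirLaw ν) := by
    unfold walkLaw
    exact Measure.infinitePi_map_eval _ n
  rw [← h3] at h2
  exact ae_of_ae_map (measurable_pi_apply n).aemeasurable h2

/-- Item D1. -/
theorem claimLeft (hm : ClaimMeas) : ClaimLeft := by
  intro P d ν ν0 h0 h1 n
  obtain ⟨-, -, hmp⟩ := hm
  have hpm : Measurable fun ω : (Edge d → ℕ → ℝ × Bool) × (ℕ → ℝ × Dir d) =>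
      (pos ω.1 ω.2 n 0 : ℝ) := by
    have h2 := (measurable_pi_apply (0 : Fin (d + 1))).comp (hmp d n)
    exact (measurable_from_top (f := fun z : ℤ => (z : ℝ))).comp h2
  have hRm : Measurable fun ω : (Edge d → ℕ → ℝ × Bool) × (ℕ → ℝ × Dir d) =>
      ((ω.1, le_R ω.2) : (Edge d → ℕ → ℝ × Bool) × (ℕ → ℝ × Dir d)) :=
    measurable_fst.prodMk (le_meas_R.comp measurable_snd)
  have hpR : Measurable fun ω : (Edge d → ℕ → ℝ × Bool) × (ℕ → ℝ × Dir d) =>
      (pos ω.1 (le_R ω.2) n 0 : ℝ) := hpm.comp hRm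
  have hb : ∀ (η : Edge d → ℕ → ℝ × Bool) (w : ℕ → ℝ × Dir d), |(pos η w n 0 : ℝ)| ≤ n := by
    intro η w
    have := le_pos_abs η w n 0
    exact_mod_cast this
  have hi1 : Integrable (fun ω : (Edge d → ℕ → ℝ × Bool) × (ℕ → ℝ × Dir d) =>
      (pos ω.1 ω.2 n 0 : ℝ)) (law P ν) :=
    Integrable.of_bound hpm.aestronglyMeasurable n
      (Eventually.of_forall fun ω => by rw [Real.norm_eq_abs]; exact hb _ _)
  have hi2 : Integrable (fun ω : (Edge d → ℕ → ℝ × Bool) × (ℕ → ℝ × Dir d) =>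
      (pos ω.1 (le_R ω.2) n 0 : ℝ)) (law P ν) :=
    Integrable.of_bound hpR.aestronglyMeasurable n
      (Eventually.of_forall fun ω => by rw [Real.norm_eq_abs]; exact hb _ _)
  have hmap : Measure.map (fun ω : (Edge d → ℕ → ℝ × Bool) × (ℕ → ℝ × Dir d) =>
      ((ω.1, le_R ω.2) : (Edge d → ℕ → ℝ × Bool) × (ℕ → ℝ × Dir d))) (law P ν) =
      Measure.map (fun ω => (ω.1, le_R ω.2)) (law P ν0) := by
    have e : ∀ ν' : stdSimplex ℝ (Dir d), Measure.map
        (fun ω : (Edge d → ℕ → ℝ × Bool) × (ℕ → ℝ × Dir d) =>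
          ((ω.1, le_R ω.2) : (Edge d → ℕ → ℝ × Bool) × (ℕ → ℝ × Dir d))) (law P ν') =
        (envLaw P d).prod (Measure.map le_R (walkLaw ν')) := by
      intro ν'
      have h3 := Measure.map_prod_map (envLaw P d) (walkLaw ν') measurable_id (le_meas_R (d := d))
      rw [Measure.map_id] at h3
      rw [h3]
      rfl
    rw [e, e, le_map_R ν ν0]
  have s1 : ∫ ω, (pos ω.1 ω.2 n 0 : ℝ) ∂(law P ν) ≤
      ∫ ω, (pos ω.1 (le_R ω.2) n 0 : ℝ) ∂(law P ν) := by
    refine integral_mono_ae hi1 hi2 ?_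
    have h4 := le_dir_ae ν (fun a => a.1 = 0) h0
    have h5 : ∀ᵐ ω ∂(law P ν), ∀ n, (ω.2 n).2.1 = 0 := by
      unfold law
      exact Measure.quasiMeasurePreserving_snd.ae h4
    filter_upwards [h5] with ω hω
    exact_mod_cast (le_couple ω.1 ω.2 hω n).2.2
  have s2 : ∫ ω, (pos ω.1 (le_R ω.2) n 0 : ℝ) ∂(law P ν) =
      ∫ ω, (pos ω.1 (le_R ω.2) n 0 : ℝ) ∂(law P ν0) := by
    have e : ∀ ν' : stdSimplex ℝ (Dir d), ∫ ω, (pos ω.1 (le_R ω.2) n 0 : ℝ) ∂(law P ν') =
        ∫ ω, (pos ω.1 ω.2 n 0 : ℝ) ∂(Measure.map (fun ω => (ω.1, le_R ω.2)) (law P ν')) := by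
      intro ν'
      rw [integral_map hRm.aemeasurable hpm.aestronglyMeasurable]
    rw [e, e, hmap]
  have s3 : ∫ ω, (pos ω.1 (le_R ω.2) n 0 : ℝ) ∂(law P ν0) =
      ∫ ω, (pos ω.1 ω.2 n 0 : ℝ) ∂(law P ν0) := by
    refine integral_congr_ae ?_
    have h6 : ∀ a : Dir d, ¬ a = (0, true) → ν0.1 a = 0 := by
      intro a ha
      have h7 := ν0.2.2
      have h8 : ∑ b ∈ Finset.univ.erase ((0, true) : Dir d), ν0.1 b = 0 := by
        have := Finset.add_sum_erase Finset.univ (fun b => ν0.1 b) (Finset.mem_univ ((0, true) : Dir d))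
        rw [h1, h7] at this
        linarith
      exact (Finset.sum_eq_zero_iff_of_nonneg (fun b _ => ν0.2.1 b)).1 h8 a
        (Finset.mem_erase.2 ⟨ha, Finset.mem_univ _⟩)
    have h4 := le_dir_ae ν0 (fun a => a = (0, true)) h6
    have h5 : ∀ᵐ ω ∂(law P ν0), ∀ n, (ω.2 n).2 = (0, true) := by
      unfold law
      exact Measure.quasiMeasurePreserving_snd.ae h4
    filter_upwards [h5] with ω hω
    rw [le_eq ω.2 hω]
  linarith

end DynPerc
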