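import Pool.Agent.Work.MP_f058f1_pr.Stmts

/-!
# MP_f058f1_pr, item B2: measurability of the graphical construction
-/

open MeasureTheory ProbabilityTheory Filter Topology

noncomputable section

namespace DynPerc

/-- Evaluation at a measurable random index of a countable type. -/
lemma me_eval {α ι β : Type*} [MeasurableSpace α] [MeasurableSpace ι] [Countable ι]
    [MeasurableSingletonClass ι] [MeasurableSpace β] {f : α → ι → β} {g : α → ι}
    (hf : ∀ i, Measurable fun a => f a i) (hg : Measurable g) :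
    Measurable fun a => f a (g a) := by
  intro s hs
  have h : (fun a => f a (g a)) ⁻¹' s = ⋃ i, (g ⁻¹' {i} ∩ (fun a => f a i) ⁻¹' s) := by
    ext a
    simp
  rw [h]
  exact MeasurableSet.iUnion fun i => (hg (measurableSet_singleton i)).inter (hf i hs)

lemma me_set (n : ℕ) :
    MeasurableSet {q : (ℕ → ℝ) × ℝ | q.2 < ∑ j ∈ Finset.range (n + 1), q.1 j} := by
  refine measurableSet_lt measurable_snd ?_
  exact Finset.measurable_sum _ fun j _ => (measurable_pi_apply j).comp measurable_fst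

lemma me_count_iff (ξ : ℕ → ℝ) (t : ℝ) (n : ℕ) :
    count ξ t = n ↔
      (t < ∑ j ∈ Finset.range (n + 1), ξ j ∧ ∀ m < n, ¬ t < ∑ j ∈ Finset.range (m + 1), ξ j) ∨
      (n = 0 ∧ ∀ m, ¬ t < ∑ j ∈ Finset.range (m + 1), ξ j) := by
  unfold count
  constructor
  · intro h
    by_cases hne : {n : ℕ | t < ∑ j ∈ Finset.range (n + 1), ξ j}.Nonempty
    · left
      have h1 := Nat.sInf_mem hne
      rw [h] at h1
      refine ⟨h1, fun m hm hc => ?_⟩
      have h2 : sInf {n : ℕ | t < ∑ j ∈ Finset.range (n + 1), ξ j} ≤ m := Nat.sInf_le hc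
      omega
    · right
      have he := Set.not_nonempty_iff_eq_empty.1 hne
      rw [he, Nat.sInf_empty] at h
      exact ⟨h.symm, fun m hc => hne ⟨m, hc⟩⟩
  · rintro (⟨h1, h2⟩ | ⟨h1, h2⟩)
    · have h3 : sInf {n : ℕ | t < ∑ j ∈ Finset.range (n + 1), ξ j} ≤ n := Nat.sInf_le h1
      have h4 := Nat.sInf_mem (s := {n : ℕ | t < ∑ j ∈ Finset.range (n + 1), ξ j}) ⟨n, h1⟩
      by_contra hne
      exact h2 _ (lt_of_le_of_ne h3 hne) h4
    · have he : {n : ℕ | t < ∑ j ∈ Finset.range (n + 1), ξ j} = ∅ := by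
        ext m
        simpa using h2 m
      rw [he, Nat.sInf_empty, h1]

lemma me_count : Measurable fun q : (ℕ → ℝ) × ℝ => count q.1 q.2 := by
  refine measurable_to_countable' fun n => ?_
  have h : (fun q : (ℕ → ℝ) × ℝ => count q.1 q.2) ⁻¹' {n} =
      ({q | q.2 < ∑ j ∈ Finset.range (n + 1), q.1 j} ∩
        ⋂ m, ⋂ (_ : m < n), {q | q.2 < ∑ j ∈ Finset.range (m + 1), q.1 j}ᶜ) ∪
      ({_q | n = 0} ∩ ⋂ m, {q | q.2 < ∑ j ∈ Finset.range (m + 1), q.1 j}ᶜ) := by
    ext q
    simp only [Set.mem_preimage, Set.mem_singleton_iff, me_count_iff, Set.mem_union, Set.mem_inter_iff,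
      Set.mem_iInter, Set.mem_compl_iff, Set.mem_ofPred_eq]
  rw [h]
  refine MeasurableSet.union ?_ ?_
  · exact (me_set n).inter (MeasurableSet.iInter fun m => MeasurableSet.iInter fun _ =>
      (me_set m).compl)
  · exact (MeasurableSet.const _).inter (MeasurableSet.iInter fun m => (me_set m).compl)

lemma me_edgeState : Measurable fun q : (ℕ → ℝ × Bool) × ℝ => edgeState q.1 q.2 := by
  unfold edgeState
  refine me_eval (f := fun q : (ℕ → ℝ × Bool) × ℝ => fun n : ℕ => (q.1 n).2)
    (g := fun q => count (fun j => (q.1 j).1) q.2)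
    (fun i => ((measurable_pi_apply i).comp measurable_fst).snd) ?_
  refine me_count.comp (Measurable.prodMk ?_ measurable_snd)
  exact measurable_pi_lambda _ fun j => ((measurable_pi_apply j).comp measurable_fst).fst

lemma me_ring {d : ℕ} (n : ℕ) : Measurable fun w : ℕ → ℝ × Dir d => ringTime w n := by
  unfold ringTime
  exact Finset.measurable_sum _ fun j _ => (measurable_pi_apply j).fst

lemma me_pos (d n : ℕ) : Measurable fun ω : (Edge d → ℕ → ℝ × Bool) × (ℕ → ℝ × Dir d) =>
    pos ω.1 ω.2 n := by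
  induction n with
  | zero => exact measurable_const
  | succ n ih =>
    have hidx : Measurable fun ω : (Edge d → ℕ → ℝ × Bool) × (ℕ → ℝ × Dir d) =>
        ((pos ω.1 ω.2 n, (ω.2 n).2) : Site d × Dir d) :=
      ih.prodMk ((measurable_pi_apply n).comp measurable_snd).snd
    refine me_eval (f := fun ω : (Edge d → ℕ → ℝ × Bool) × (ℕ → ℝ × Dir d) =>
      fun q : Site d × Dir d =>
        if edgeState (ω.1 (edgeOf q.1 q.2)) (ringTime ω.2 n) then q.1 + stepVec q.2 else q.1)
      (g := fun ω => (pos ω.1 ω.2 n, (ω.2 n).2)) (fun q => ?_) hidx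
    refine Measurable.ite ?_ measurable_const measurable_const
    have h : Measurable fun ω : (Edge d → ℕ → ℝ × Bool) × (ℕ → ℝ × Dir d) =>
        edgeState (ω.1 (edgeOf q.1 q.2)) (ringTime ω.2 n) :=
      me_edgeState.comp (g := fun q : (ℕ → ℝ × Bool) × ℝ => edgeState q.1 q.2)
        (f := fun ω : (Edge d → ℕ → ℝ × Bool) × (ℕ → ℝ × Dir d) =>
          (ω.1 (edgeOf q.1 q.2), ringTime ω.2 n))
        (((measurable_pi_apply (edgeOf q.1 q.2)).comp measurable_fst).prodMk
        ((me_ring n).comp measurable_snd))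
    exact h (measurableSet_singleton true)

/-- Item B2. -/
theorem claimMeas : ClaimMeas := ⟨me_count, me_edgeState, me_pos⟩

end DynPerc
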