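import Pool.Agent.Work.MP_f058f1_pr.Stmts

/-!
# Item D2 of MP_f058f1_pr: one-step facts for the walk without left moves
-/

open MeasureTheory ProbabilityTheory Filter Topology

noncomputable section

namespace DynPerc

variable {d : ℕ}

lemma one_edgeOf_right : edgeOf (0 : Site d) (0, true) = (0, 0) := by
  simp [edgeOf]

lemma one_step_right : stepVec ((0, true) : Dir d) = Pi.single 0 1 := by
  simp [stepVec]

lemma one_step_nonneg {a : Dir d} (ha : a ≠ (0, false)) : 0 ≤ stepVec a 0 := by
  obtain ⟨i, b⟩ := a
  cases b with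
  | true =>
    simp only [stepVec, if_true]
    by_cases hi : i = 0
    · subst hi; simp
    · rw [Pi.single_eq_of_ne (Ne.symm hi)]
  | false =>
    have hi : i ≠ 0 := by
      rintro rfl; exact ha rfl
    simp [stepVec, Pi.single_eq_of_ne (Ne.symm hi)]

lemma one_step_lat {a : Dir d} (ha : a.1 ≠ 0) : stepVec a 0 = 0 := by
  obtain ⟨i, b⟩ := a
  simp only [ne_eq] at ha
  cases b with
  | true =>
    simp only [stepVec, if_true]
    rw [Pi.single_eq_of_ne (Ne.symm ha)]
  | false =>
    simp [stepVec, Pi.single_eq_of_ne (Ne.symm ha)]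

lemma one_step_ne {a : Dir d} : stepVec a ≠ 0 := by
  obtain ⟨i, b⟩ := a
  intro h
  have := congrFun h i
  cases b <;> simp [stepVec] at this

lemma one_edge_snd (x : Site d) (a : Dir d) : (edgeOf x a).2 = a.1 := by
  unfold edgeOf; split_ifs <;> rfl

lemma one_edge_fst_zero {a : Dir d} (ha : a ≠ (0, false)) : (edgeOf (0 : Site d) a).1 0 = 0 := by
  obtain ⟨i, b⟩ := a
  cases b with
  | true => simp [edgeOf]
  | false =>
    have hi : i ≠ 0 := by
      rintro rfl; exact ha rfl
    simp [edgeOf, Pi.single_eq_of_ne (Ne.symm hi)]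

lemma one_lat_ne {a : Dir d} (ha : a.1 ≠ 0) : a ≠ (0, false) := by
  rintro rfl; exact ha rfl

lemma one_edgeOf_inj {a b : Dir d} (h : edgeOf (0 : Site d) a = edgeOf 0 b) : a = b := by
  obtain ⟨i, s⟩ := a
  obtain ⟨j, t⟩ := b
  have h2 : i = j := by
    have := congrArg Prod.snd h
    simpa [one_edge_snd] using this
  subst h2
  have h1 := congrFun (congrArg Prod.fst h) i
  cases s <;> cases t <;> simp [edgeOf] at h1 ⊢

/-- The reverse direction. -/
def one_rev (a : Dir d) : Dir d := (a.1, !a.2)

lemma one_rev_edge (b b' : Dir d) :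
    ((((edgeOf (0 : Site d) b).1 + stepVec b', (edgeOf (0 : Site d) b).2) : Edge d) =
      edgeOf 0 b') ↔ b = one_rev b' := by
  obtain ⟨i, s⟩ := b
  obtain ⟨j, t⟩ := b'
  constructor
  · intro h
    have h2 : i = j := by
      have := congrArg Prod.snd h
      simpa [one_edge_snd] using this
    subst h2
    have h1 := congrFun (congrArg Prod.fst h) i
    cases s <;> cases t <;> simp [edgeOf, stepVec, one_rev] at h1 ⊢
  · intro h
    rw [one_rev] at h
    obtain ⟨h1, h2⟩ := Prod.mk.inj h
    simp only at h1 h2
    subst h1 h2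
    cases t <;> simp [edgeOf, stepVec]

/-! ### The value of `next` -/

lemma one_next_true (P : Par) (S : St d) (a : Dir d) (g : ℝ) (e : Edge d) :
    next P S a g true e = if ((e.1 + stepVec a, e.2) : Edge d) = edgeOf 0 a then 1 - P.p
      else Real.exp (-(P.mu * g)) * S (e.1 + stepVec a, e.2) := by
  simp [next]

lemma one_next_false (P : Par) (S : St d) (a : Dir d) (g : ℝ) (e : Edge d) :
    next P S a g false e = if e = edgeOf 0 a then -P.p
      else Real.exp (-(P.mu * g)) * S e := by
  simp [next]

lemma one_reg_NN (P : Par) : Reg P (NN : St d → ℝ) := by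
  refine ⟨?_, 1, fun S _ => ?_⟩
  · have hm : MeasurableSet {S : St d | Clean S} := by
      have : {S : St d | Clean S} =
          (⋂ (y : Site d), ⋂ (i : Fin (d + 1)), ⋂ (_ : y 0 = 0), ⋂ (_ : i ≠ 0),
            {S : St d | S (y, i) = 0}) ∩
          (⋂ (y : Site d), ⋂ (_ : y 0 = 0), ⋂ (_ : y ≠ 0), {S : St d | S (y, 0) = 0}) := by
        ext S
        simp only [Clean, Set.mem_ofPred_eq, Set.mem_inter_iff, Set.mem_iInter]
      rw [this]
      refine MeasurableSet.inter ?_ ?_
      · refine MeasurableSet.iInter fun y => MeasurableSet.iInter fun i =>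
          MeasurableSet.iInter fun _ => MeasurableSet.iInter fun _ => ?_
        exact (measurableSet_singleton (0 : ℝ)).preimage (measurable_pi_apply (y, i))
      · refine MeasurableSet.iInter fun y =>
          MeasurableSet.iInter fun _ => MeasurableSet.iInter fun _ => ?_
        exact (measurableSet_singleton (0 : ℝ)).preimage (measurable_pi_apply (y, 0))
    unfold NN
    exact Measurable.ite hm measurable_const measurable_const
  · unfold NN
    split_ifs <;> simp

lemma one_inv (P : Par) (S : St d) (hS : Inv P S) (a : Dir d) (ha : a ≠ (0, false)) (g : ℝ)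
    (hg : 0 < g) (o : Bool) : Inv P (next P S a g o) := by
  obtain ⟨hv, h0, hr⟩ := hS
  have hst := one_step_nonneg ha
  have hs : ∀ o : Bool, 0 ≤ (if o then stepVec a else (0 : Site d)) 0 := by
    intro o; cases o <;> simp [hst]
  refine ⟨next_valid hv a hg.le o, ?_, ?_⟩
  · intro e he
    have h1 : 0 < (e.1 + if o then stepVec a else (0 : Site d)) 0 := by
      rw [Pi.add_apply]; exact add_pos_of_pos_of_nonneg he (hs o)
    unfold next
    rw [if_neg, h0 _ h1, mul_zero]
    intro h
    have := congrArg (fun q : Edge d => q.1 0) h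
    simp only [one_edge_fst_zero ha] at this
    exact h1.ne' this
  · intro y hy
    have hE := Real.exp_pos (-(P.mu * g))
    unfold next
    by_cases h : (((y + if o then stepVec a else (0 : Site d)), (0 : Fin (d + 1))) : Edge d) =
      edgeOf 0 a
    · rw [if_pos h]
      cases o with
      | false => simpa using P.p_pos.le
      | true =>
        exfalso
        have ha0 : a.1 = 0 := by
          have := congrArg Prod.snd h
          rw [one_edge_snd] at this
          exact this.symm
        have haa : a = (0, true) := by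
          obtain ⟨i, b⟩ := a
          simp only at ha0
          subst ha0
          cases b with
          | true => rfl
          | false => exact absurd rfl ha
        subst haa
        have := congrArg (fun q : Edge d => q.1 0) h
        simp [one_edgeOf_right, one_step_right, hy] at this
    · rw [if_neg h]
      have h1 : 0 ≤ (y + if o then stepVec a else (0 : Site d)) 0 := by
        rw [Pi.add_apply, hy, zero_add]; exact hs o
      rcases h1.eq_or_lt with h2 | h2
      · exact mul_nonpos_of_nonneg_of_nonpos hE.le (hr _ h2.symm)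
      · rw [h0 (_, 0) h2, mul_zero]

lemma one_YY (P : Par) (S : St d) (hS : Inv P S) :
    opT P (0, true) (YY P) S = ca P * (1 - P.p + P.p * YY P S) := by
  obtain ⟨hv, h0, hr⟩ := hS
  have hp := P.p_pos
  rw [opT_eval (A := 0) (B := 0) (A' := ca P) (B' := 0)]
  · rw [one_edgeOf_right]
    unfold YY
    field_simp
    ring
  · intro g hg
    unfold YY
    rw [one_next_true, if_neg, h0 _ (by simp [one_step_right])]
    · simp
    · intro h
      have := congrArg (fun q : Edge d => q.1 0) h
      simp [one_edgeOf_right, one_step_right] at this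
  · intro g hg
    unfold YY
    rw [one_next_false, if_pos one_edgeOf_right.symm]
    field_simp
    ring

lemma one_ca_le (P : Par) : 0 < ca2 P ∧ ca2 P ≤ ca P ∧ 0 < ca P ∧ ca P < 1 := by
  have hmu := P.mu_pos
  unfold ca ca2
  refine ⟨by positivity, ?_, by positivity, ?_⟩
  · apply one_div_le_one_div_of_le <;> linarith
  · rw [div_lt_one (by positivity)]; linarith

lemma one_ne_of_snd {e : Edge d} {a : Dir d} (h : e.2 ≠ a.1) : e ≠ edgeOf 0 a := by
  intro h1
  apply h
  rw [h1, one_edge_snd]

lemma one_YYlat (P : Par) (S : St d) (hS : Inv P S) (b : Dir d) (hb : b ∈ lat d) :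
    ((1 - P.p) * ca P - ca2 P * S (edgeOf 0 b)) * YY P S ≤ opT P b (YY P) S := by
  obtain ⟨hv, h0, hr⟩ := hS
  have hp := P.p_pos
  obtain ⟨c1, c2, c3, c4⟩ := one_ca_le P
  have hb1 : b.1 ≠ 0 := by simpa [lat] using hb
  rw [opT_eval (A := 0) (B := -(ca P / P.p) * S (stepVec b, 0)) (A' := 0) (B' := YY P S)]
  · have h1 : S (stepVec b, 0) ≤ 0 := hr _ (one_step_lat hb1)
    have h2 := (hv (edgeOf 0 b)).1
    have h3 : 0 ≤ -(ca P / P.p) * S (stepVec b, 0) := by
      have : 0 < ca P / P.p := by positivity
      nlinarith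
    have h4 : 0 ≤ ca P * P.p + ca2 P * S (edgeOf 0 b) := by nlinarith
    nlinarith [mul_nonneg h3 h4]
  · intro g hg
    unfold YY
    rw [one_next_true, if_neg]
    · simp only [zero_add]; ring
    · exact one_ne_of_snd hb1.symm
  · intro g hg
    unfold YY
    rw [one_next_false, if_neg]
    · ring
    · exact one_ne_of_snd hb1.symm

lemma one_FF (P : Par) (A B : ℝ) (S : St d) (hS : Inv P S) :
    opT P (0, true) (FF A B) S =
      FF ((A - B * P.p) * ((1 - P.p) * ca P)) (-((A - B * P.p) * ca2 P)) S := by
  obtain ⟨hv, h0, hr⟩ := hS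
  rw [opT_eval (A := 0) (B := 0) (A' := 0)
    (B' := (∑ b ∈ lat d, S (edgeOf 0 b)) * (A - B * P.p))]
  · rw [one_edgeOf_right]
    unfold FF
    ring
  · intro g hg
    unfold FF
    have : ∑ b ∈ lat d, next P S (0, true) g true (edgeOf 0 b) = 0 := by
      refine Finset.sum_eq_zero fun b hb => ?_
      have hb1 : b.1 ≠ 0 := by simpa [lat] using hb
      rw [one_next_true, if_neg, h0, mul_zero]
      · show 0 < ((edgeOf (0 : Site d) b).1 + stepVec ((0, true) : Dir d) : Site d) 0
        rw [Pi.add_apply, one_edge_fst_zero (one_lat_ne hb1), one_step_right]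
        simp
      · apply one_ne_of_snd
        simpa [one_edge_snd] using hb1
    rw [this]; ring
  · intro g hg
    unfold FF
    have : ∑ b ∈ lat d, next P S (0, true) g false (edgeOf 0 b) =
        (∑ b ∈ lat d, S (edgeOf 0 b)) * Real.exp (-(P.mu * g)) := by
      rw [Finset.sum_mul]
      refine Finset.sum_congr rfl fun b hb => ?_
      have hb1 : b.1 ≠ 0 := by simpa [lat] using hb
      rw [one_next_false, if_neg, mul_comm]
      apply one_ne_of_snd
      simpa [one_edge_snd] using hb1
    rw [this, one_next_false, if_pos one_edgeOf_right.symm]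
    ring

lemma one_FFclean (P : Par) (A B : ℝ) (S : St d) (hB : B ≤ 0) (hS : Inv P S) (hC : Clean S)
    (b' : Dir d) (hb' : b' ∈ lat d) : opT P b' (FF A B) S ≤ 0 := by
  obtain ⟨hv, h0, hr⟩ := hS
  obtain ⟨hC1, hC2⟩ := hC
  have hp := P.p_pos
  have hp1 := P.p_lt
  obtain ⟨c1, c2, c3, c4⟩ := one_ca_le P
  have hb1 : b'.1 ≠ 0 := by simpa [lat] using hb'
  have hrev : one_rev b' ∈ lat d := by simpa [lat, one_rev] using hb1
  have hz : ∀ b ∈ lat d, S (edgeOf 0 b) = 0 := by
    intro b hb
    have hb2 : b.1 ≠ 0 := by simpa [lat] using hb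
    have h2 : (edgeOf (0 : Site d) b).2 ≠ 0 := by rw [one_edge_snd]; exact hb2
    exact hC1 (edgeOf (0 : Site d) b).1 (edgeOf (0 : Site d) b).2
      (one_edge_fst_zero (one_lat_ne hb2)) h2
  rw [opT_eval (A := (1 - P.p) * A) (B := 0) (A' := -P.p * A) (B' := -P.p * B * S (0, 0))]
  · rw [hz b' hb']
    have h1 : S (0, 0) ≤ 0 := hr 0 rfl
    have h2 : 0 ≤ B * S (0, 0) := mul_nonneg_of_nonpos_of_nonpos hB h1
    have h3 : 0 ≤ ca P * (P.p * (1 - P.p)) := by
      have : 0 < 1 - P.p := by linarith
      positivity
    nlinarith [mul_nonneg h3 h2]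
  · intro g hg
    unfold FF
    have e1 : ∑ b ∈ lat d, next P S b' g true (edgeOf 0 b) = 1 - P.p := by
      rw [Finset.sum_eq_single_of_mem _ hrev]
      · rw [one_next_true, if_pos ((one_rev_edge _ _).2 rfl)]
      · intro b hb hne
        have hb2 : b.1 ≠ 0 := by simpa [lat] using hb
        rw [one_next_true, if_neg (fun h => hne ((one_rev_edge _ _).1 h)), hC1, mul_zero]
        · rw [Pi.add_apply, one_edge_fst_zero (one_lat_ne hb2), one_step_lat hb1, add_zero]
        · rw [one_edge_snd]; exact hb2
    rw [e1, one_next_true, if_neg, zero_add, hC2 _ (one_step_lat hb1) one_step_ne]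
    · ring
    · exact one_ne_of_snd hb1.symm
  · intro g hg
    unfold FF
    have e1 : ∑ b ∈ lat d, next P S b' g false (edgeOf 0 b) = -P.p := by
      rw [Finset.sum_eq_single_of_mem _ hb']
      · rw [one_next_false, if_pos rfl]
      · intro b hb hne
        rw [one_next_false, if_neg (fun h => hne (one_edgeOf_inj h)), hz b hb, mul_zero]
    rw [e1, one_next_false, if_neg]
    · ring
    · exact one_ne_of_snd hb1.symm

lemma one_NN (P : Par) (S : St d) (hS : Inv P S) :
    opT P (0, true) NN S ≤ (1 - P.p * (1 - ca P)) * NN S := by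
  obtain ⟨hv, h0, hr⟩ := hS
  obtain ⟨c1, c2, c3, c4⟩ := one_ca_le P
  rw [opT_eval (A := 0) (B := 0) (A' := NN S) (B' := 0)]
  · rw [one_edgeOf_right]
    have h1 := (hv (0, 0)).1
    have h2 : 0 ≤ NN S := by unfold NN; split_ifs <;> simp
    have h3 : 0 ≤ ca P * (S (0, 0) + P.p) := mul_nonneg c3.le (by linarith)
    nlinarith [mul_nonneg h3 h2]
  · intro g hg
    have : Clean (next P S (0, true) g true) := by
      refine ⟨fun y i hy hi => ?_, fun y hy hne => ?_⟩
      · rw [one_next_true, if_neg (one_ne_of_snd (by simpa using hi)), h0, mul_zero]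
        show 0 < (y + stepVec ((0, true) : Dir d) : Site d) 0
        rw [Pi.add_apply, hy, one_step_right]; simp
      · rw [one_next_true, if_neg, h0, mul_zero]
        · show 0 < (y + stepVec ((0, true) : Dir d) : Site d) 0
          rw [Pi.add_apply, hy, one_step_right]; simp
        · intro h
          have := congrArg (fun q : Edge d => q.1 0) h
          simp [one_edgeOf_right, one_step_right, hy] at this
    unfold NN
    rw [if_pos this]; ring
  · intro g hg
    have hE := (Real.exp_pos (-(P.mu * g))).ne'
    have : Clean (next P S (0, true) g false) ↔ Clean S := by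
      unfold Clean
      refine and_congr ?_ ?_
      · refine forall_congr' fun y => forall_congr' fun i => forall_congr' fun _ =>
          forall_congr' fun hi => ?_
        rw [one_next_false, if_neg (one_ne_of_snd (by simpa using hi))]
        simp [hE]
      · refine forall_congr' fun y => forall_congr' fun hy => forall_congr' fun hne => ?_
        rw [one_next_false, if_neg]
        · simp [hE]
        · rw [one_edgeOf_right]
          intro h
          exact hne (congrArg Prod.fst h)
    unfold NN
    by_cases hc : Clean S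
    · rw [if_pos hc, if_pos (this.2 hc)]; ring
    · rw [if_neg hc, if_neg (fun h => hc (this.1 h))]; ring

/-- Item D2. -/
theorem claimOne : ClaimOne := fun P _ =>
  ⟨one_reg_NN P, fun S hS a ha g hg o => one_inv P S hS a ha g hg o, one_YY P, one_YYlat P,
    one_FF P, fun A B S hB hS hC b hb => one_FFclean P A B S hB hS hC b hb, one_NN P⟩

end DynPerc
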