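import Pool.Agent.Work.MP_f058f1_pr.Stmts

/-!
Item A5: exponential convergence of the expected increments.
-/

open MeasureTheory ProbabilityTheory Filter Topology

noncomputable section

namespace DynPerc

variable {d : ℕ}

lemma rt_rel {P : Par} {S S' : St d} (h : Valid P S) (h' : Valid P S') : Rel P 1 S S' := by
  intro e
  right
  obtain ⟨a1, a2⟩ := h e
  obtain ⟨b1, b2⟩ := h' e
  rw [mul_one, mul_one]
  exact ⟨⟨a1, a2⟩, ⟨b1, b2⟩⟩

lemma rt_bd {P : Par} {K : ℕ} (hK : 1 ≤ K) {f : St d → ℝ} {c : ℝ} (h : Bd P K f c)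
    {S S' : St d} (hS : Valid P S) (hS' : Valid P S') : |f S - f S'| ≤ c := by
  have h1 := h 1 ⟨zero_le_one, le_rfl⟩ S S' hS hS' (rt_rel hS hS')
  have h2 : phi K 1 = 1 := by
    unfold phi
    rw [sub_self, zero_pow (by omega), sub_zero]
  rw [h2, mul_one] at h1
  exact h1

lemma rt_conv {P : Par} {K : ℕ} (ν : stdSimplex ℝ (Dir d)) {F : Dir d → St d → ℝ} {c : ℝ}
    (h : ∀ a, Bd P K (F a) c) : Bd P K (fun S => ∑ a, ν.1 a * F a S) c := by
  intro G hG S S' hS hS' hR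
  have e1 : (∑ a, ν.1 a * F a S) - (∑ a, ν.1 a * F a S') = ∑ a, ν.1 a * (F a S - F a S') := by
    rw [← Finset.sum_sub_distrib]
    refine Finset.sum_congr rfl fun a _ => ?_
    ring
  show |(∑ a, ν.1 a * F a S) - (∑ a, ν.1 a * F a S')| ≤ _
  rw [e1]
  refine (Finset.abs_sum_le_sum_abs _ _).trans ?_
  have e2 : c * phi K G = ∑ a, ν.1 a * (c * phi K G) := by
    rw [← Finset.sum_mul, ν.2.2, one_mul]
  rw [e2]
  refine Finset.sum_le_sum fun a _ => ?_
  rw [abs_mul, abs_of_nonneg (ν.2.1 a)]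
  exact mul_le_mul_of_nonneg_left (h a G hG S S' hS hS' hR) (ν.2.1 a)

theorem claimRates (h1 : ClaimPhi) (h2 : ClaimContr) : ClaimRates := by
  intro P d ν i
  obtain ⟨K, ρ, hρ⟩ := h1 P
  obtain ⟨hh1, hT⟩ := h2 P d K ρ hρ
  obtain ⟨hK, hρ0, hρ1, -⟩ := hρ
  set f : ℕ → St d → ℝ := fun k => (opN P ν.1)^[k] (hN P ν.1 i) with hf
  have hreg : ∀ k, Reg P (f k) := fun k => (Reg.hN P ν.1 i).iterate ν.1 k
  have hsucc : ∀ k S, f (k + 1) S = ∑ a, ν.1 a * opT P a (f k) S := by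
    intro k S
    simp only [hf, Function.iterate_succ_apply']
    rfl
  have hbd : ∀ k, Bd P K (f k) (ρ ^ k) := by
    intro k
    induction k with
    | zero =>
      rw [pow_zero]
      exact rt_conv ν fun b => hh1 i b
    | succ k ih =>
      have e : f (k + 1) = fun S => ∑ a, ν.1 a * opT P a (f k) S := funext fun S => hsucc k S
      rw [e, pow_succ']
      exact rt_conv ν fun a => hT (f k) (ρ ^ k) (pow_nonneg hρ0 k) (hreg k) ih a
  have hstep : ∀ k S, Valid P S → |f (k + 1) S - f k S| ≤ ρ ^ k := by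
    intro k S hS
    have e1 : f (k + 1) S - f k S = ∑ a, ν.1 a * opT P a (fun S' => f k S' - f k S) S := by
      have e2 : ∀ a, opT P a (fun S' => f k S' - f k S) S = opT P a (f k) S - f k S := by
        intro a
        rw [opT_sub (hreg k) (Reg.const P (f k S)) hS, opT_const]
      simp only [e2, mul_sub, Finset.sum_sub_distrib]
      rw [← hsucc, ← Finset.sum_mul, ν.2.2, one_mul]
    rw [e1]
    refine (Finset.abs_sum_le_sum_abs _ _).trans ?_
    have e3 : ρ ^ k = ∑ a, ν.1 a * ρ ^ k := by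
      rw [← Finset.sum_mul, ν.2.2, one_mul]
    rw [e3]
    refine Finset.sum_le_sum fun a _ => ?_
    rw [abs_mul, abs_of_nonneg (ν.2.1 a)]
    refine mul_le_mul_of_nonneg_left ?_ (ν.2.1 a)
    exact opT_bound (fun S' hS' => rt_bd hK (hbd k) hS' hS) hS
  have h0 := valid_zero (d := d) P
  have hc : CauchySeq fun k => f k 0 := by
    refine cauchySeq_of_le_geometric ρ 1 hρ1 fun n => ?_
    rw [one_mul, dist_comm, Real.dist_eq]
    exact hstep n 0 h0
  obtain ⟨V, hV⟩ := cauchySeq_tendsto_of_complete hc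
  have h1ρ : 0 < 1 - ρ := by linarith
  refine ⟨V, 1 + 1 / (1 - ρ), ρ, by positivity, hρ0, hρ1, fun k S hS => ?_⟩
  have a1 : |f k S - f k 0| ≤ ρ ^ k := rt_bd hK (hbd k) hS h0
  have a2 : |f k 0 - V| ≤ 1 * ρ ^ k / (1 - ρ) := by
    have := dist_le_of_le_geometric_of_tendsto ρ 1 hρ1 (f := fun k => f k 0) (fun n => by
      rw [one_mul, dist_comm, Real.dist_eq]
      exact hstep n 0 h0) hV k
    rwa [Real.dist_eq] at this
  have a3 : (1 + 1 / (1 - ρ)) * ρ ^ k = ρ ^ k + 1 * ρ ^ k / (1 - ρ) := by ring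
  rw [a3]
  have a4 : f k S - V = (f k S - f k 0) + (f k 0 - V) := by ring
  show |f k S - V| ≤ _
  rw [a4]
  exact (abs_add_le _ _).trans (add_le_add a1 a2)

end DynPerc
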