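import Pool.Agent.Work.MP_f058f1_pr.Stmts

/-!
# Item A4: for real weights the polynomial is the iterate of the transition operator
-/

open MeasureTheory ProbabilityTheory Filter Topology

noncomputable section

namespace DynPerc

variable {d : ℕ}

lemma rw_opT_congr {P : Par} {a : Dir d} {f g : St d → ℝ} (h : ∀ S, Valid P S → f S = g S)
    {S : St d} (hS : Valid P S) : opT P a f S = opT P a g S := by
  unfold opT
  refine integral_congr_ae ?_
  filter_upwards [clock_ae_pos] with t ht
  rw [h _ (next_valid hS a ht.le true), h _ (next_valid hS a ht.le false)]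

lemma rw_GG_reg (P : Par) (i : Fin (d + 1)) (b : Dir d) (l : List (Dir d)) :
    Reg P (GG P i b l) := by
  induction l with
  | nil => exact Reg.hh P i b
  | cons a l ih => exact opT_reg ih

lemma rw_main (P : Par) (i : Fin (d + 1)) (ν : Dir d → ℝ) (k : ℕ) :
    ∀ S : St d, Valid P S → ((opN P ν)^[k] (hN P ν i)) S =
      ∑ l : Fin k → Dir d, ∑ b, (∏ j, ν (l j)) * ν b * GG P i b (List.ofFn l) S := by
  induction k with
  | zero =>
    intro S hS
    simp [hN, GG]
  | succ k ih =>
    intro S hS
    rw [Function.iterate_succ_apply']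
    unfold opN
    have key : ∀ a : Dir d, opT P a ((opN P ν)^[k] (hN P ν i)) S =
        ∑ l : Fin k → Dir d, ∑ b, (∏ j, ν (l j)) * ν b * GG P i b (a :: List.ofFn l) S := by
      intro a
      rw [rw_opT_congr ih hS, opT_sum _ _ hS]
      · refine Finset.sum_congr rfl fun l _ => ?_
        rw [opT_sum _ _ hS]
        · refine Finset.sum_congr rfl fun b _ => ?_
          rw [opT_const_mul]
          rfl
        · intro b _
          exact (rw_GG_reg P i b _).const_mul _
      · intro l _
        exact Reg.sum _ fun b _ => (rw_GG_reg P i b _).const_mul _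
    change ∑ a, ν a * opT P a ((opN P ν)^[k] (hN P ν i)) S = _
    have re := (Fin.consEquiv (fun _ : Fin (k + 1) => Dir d)).sum_comp
      (fun l => ∑ b, (∏ j, ν (l j)) * ν b * GG P i b (List.ofFn l) S)
    refine Eq.trans ?_ re
    refine Eq.trans ?_ (Fintype.sum_prod_type _).symm
    refine Finset.sum_congr rfl fun a _ => ?_
    rw [key a, Finset.mul_sum]
    refine Finset.sum_congr rfl fun l _ => ?_
    rw [Finset.mul_sum]
    refine Finset.sum_congr rfl fun b _ => ?_
    simp only [Fin.consEquiv_apply, Fin.prod_univ_succ, Fin.cons_zero, Fin.cons_succ,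
      List.ofFn_succ]
    ring

theorem claimReal : ClaimReal := by
  intro P d i ν k
  rw [rw_main P i ν k 0 (valid_zero P)]
  unfold PkC
  push_cast
  rfl

end DynPerc
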