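import Pool.Agent.Work.MP_f058f1_pr.Stmts

/-!
# Item A6: reflection symmetry of a lateral coordinate
-/

open MeasureTheory ProbabilityTheory Filter Topology

noncomputable section

namespace DynPerc

variable {d : ℕ}

/-- Reflection of the coordinate `i` of a site. -/
def rfSite (i : Fin (d + 1)) (y : Site d) : Site d := fun j => if j = i then -y j else y j

/-- Reflection of the coordinate `i` of a direction. -/
def rfDir (i : Fin (d + 1)) (a : Dir d) : Dir d := if a.1 = i then (a.1, !a.2) else a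

/-- Reflection of the coordinate `i` of an edge. -/
def rfEdge (i : Fin (d + 1)) (e : Edge d) : Edge d :=
  (rfSite i e.1 - (if e.2 = i then Pi.single i 1 else 0), e.2)

/-- Reflection of the coordinate `i` of a memory. -/
def rfSt (i : Fin (d + 1)) (S : St d) : St d := fun e => S (rfEdge i e)

lemma rfSite_add (i : Fin (d + 1)) (x y : Site d) :
    rfSite i (x + y) = rfSite i x + rfSite i y := by
  funext j
  by_cases h : j = i
  · simp [rfSite, h]; ring
  · simp [rfSite, h]

lemma rfSite_zero (i : Fin (d + 1)) : rfSite i (0 : Site d) = 0 := by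
  funext j
  simp [rfSite]

lemma rfSite_single_self (i : Fin (d + 1)) :
    rfSite i (Pi.single i 1 : Site d) = -Pi.single i 1 := by
  funext j
  by_cases h : j = i
  · subst h; simp [rfSite]
  · simp [rfSite, h]

lemma rfSite_single_ne {i k : Fin (d + 1)} (h : k ≠ i) :
    rfSite i (Pi.single k 1 : Site d) = Pi.single k 1 := by
  funext j
  by_cases h' : j = i
  · subst h'; simp [rfSite, Ne.symm h]
  · simp [rfSite, h']

lemma rfSite_neg (i : Fin (d + 1)) (x : Site d) : rfSite i (-x) = -rfSite i x := by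
  funext j
  by_cases h : j = i
  · simp [rfSite, h]
  · simp [rfSite, h]

lemma rfSite_rfSite (i : Fin (d + 1)) (x : Site d) : rfSite i (rfSite i x) = x := by
  funext j
  by_cases h : j = i
  · simp [rfSite, h]
  · simp [rfSite, h]

lemma rfDir_rfDir (i : Fin (d + 1)) (a : Dir d) : rfDir i (rfDir i a) = a := by
  obtain ⟨k, b⟩ := a
  by_cases h : k = i
  · simp [rfDir, h]
  · simp [rfDir, h]

lemma stepVec_rfDir (i : Fin (d + 1)) (a : Dir d) :
    stepVec (rfDir i a) = rfSite i (stepVec a) := by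
  obtain ⟨k, b⟩ := a
  by_cases h : k = i
  · subst h
    cases b
    · simp [rfDir, stepVec, rfSite_neg, rfSite_single_self]
    · simp [rfDir, stepVec, rfSite_single_self]
  · cases b
    · simp [rfDir, stepVec, h, rfSite_neg, rfSite_single_ne h]
    · simp [rfDir, stepVec, h, rfSite_single_ne h]

lemma rfEdge_edgeOf_zero (i : Fin (d + 1)) (a : Dir d) :
    rfEdge i (edgeOf 0 a) = edgeOf 0 (rfDir i a) := by
  obtain ⟨k, b⟩ := a
  by_cases h : k = i
  · subst h
    cases b
    · simp [rfDir, edgeOf, rfEdge, rfSite_neg, rfSite_single_self]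
    · simp [rfDir, edgeOf, rfEdge, rfSite_zero]
  · cases b
    · simp [rfDir, edgeOf, rfEdge, h, rfSite_neg, rfSite_single_ne h]
    · simp [rfDir, edgeOf, rfEdge, h, rfSite_zero]

lemma rfEdge_rfEdge (i : Fin (d + 1)) (e : Edge d) : rfEdge i (rfEdge i e) = e := by
  obtain ⟨y, k⟩ := e
  by_cases h : k = i
  · subst h
    simp only [rfEdge, if_true, sub_eq_add_neg, rfSite_add, rfSite_neg, rfSite_rfSite,
      rfSite_single_self, neg_neg, add_neg_cancel_right]
  · simp only [rfEdge, h, if_false, sub_zero, rfSite_rfSite]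

lemma rfEdge_inj (i : Fin (d + 1)) {e e' : Edge d} : rfEdge i e = rfEdge i e' ↔ e = e' :=
  ⟨fun h => by rw [← rfEdge_rfEdge i e, h, rfEdge_rfEdge], fun h => by rw [h]⟩

lemma rfEdge_shift (i : Fin (d + 1)) (e : Edge d) (v : Site d) :
    rfEdge i (e.1 + v, e.2) = ((rfEdge i e).1 + rfSite i v, (rfEdge i e).2) := by
  simp only [rfEdge, rfSite_add]
  congr 1
  abel

lemma rfSt_zero (i : Fin (d + 1)) : rfSt i (0 : St d) = 0 := rfl

lemma pOpen_rfSt (P : Par) (i : Fin (d + 1)) (S : St d) (a : Dir d) (g : ℝ) :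
    pOpen P (rfSt i S) (rfDir i a) g = pOpen P S a g := by
  unfold pOpen rfSt
  rw [rfEdge_edgeOf_zero, rfDir_rfDir]

lemma next_rfSt (P : Par) (i : Fin (d + 1)) (S : St d) (a : Dir d) (g : ℝ) (o : Bool) :
    next P (rfSt i S) (rfDir i a) g o = rfSt i (next P S a g o) := by
  funext e
  have hv : (if o then stepVec (rfDir i a) else 0) = rfSite i (if o then stepVec a else 0) := by
    cases o
    · simp [rfSite_zero]
    · simp [stepVec_rfDir]
  have key : ((rfEdge i e).1 + (if o then stepVec a else 0), (rfEdge i e).2) =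
      rfEdge i (e.1 + (if o then stepVec (rfDir i a) else 0), e.2) := by
    rw [hv, rfEdge_shift, rfSite_rfSite]
  unfold next rfSt
  beta_reduce
  rw [key]
  have hiff : (((e.1 + if o then stepVec (rfDir i a) else 0, e.2) : Edge d) =
      edgeOf 0 (rfDir i a)) ↔ (rfEdge i (e.1 + (if o then stepVec (rfDir i a) else 0), e.2) =
      edgeOf 0 a) := by
    rw [← rfEdge_edgeOf_zero, ← rfEdge_inj i, rfEdge_rfEdge]
  by_cases h : ((e.1 + if o then stepVec (rfDir i a) else 0, e.2) : Edge d) =
      edgeOf 0 (rfDir i a)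
  · rw [if_pos h, if_pos (hiff.1 h)]
  · rw [if_neg h, if_neg (fun h' => h (hiff.2 h'))]

lemma opT_rfSt (P : Par) (i : Fin (d + 1)) (S : St d) (a : Dir d) (f : St d → ℝ) :
    opT P (rfDir i a) f (rfSt i S) = opT P a (fun S => f (rfSt i S)) S := by
  unfold opT
  simp only [pOpen_rfSt, next_rfSt]

lemma rf_sum (i : Fin (d + 1)) (F : Dir d → ℝ) : ∑ a, F (rfDir i a) = ∑ a, F a :=
  Fintype.sum_equiv ⟨rfDir i, rfDir i, rfDir_rfDir i, rfDir_rfDir i⟩ _ _ fun _ => rfl

lemma bias_rfDir {i : Fin (d + 1)} (hi : i ≠ 0) (lam : ℝ) (a : Dir d) :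
    (bias d lam).1 (rfDir i a) = (bias d lam).1 a := by
  obtain ⟨k, b⟩ := a
  by_cases h : k = i
  · subst h
    simp [bias, rfDir, hi]
  · simp [bias, rfDir, h]

lemma opN_rfSt (P : Par) {i : Fin (d + 1)} (hi : i ≠ 0) (lam : ℝ) (f : St d → ℝ) (S : St d) :
    opN P (bias d lam).1 f (rfSt i S) = opN P (bias d lam).1 (fun S => f (rfSt i S)) S := by
  unfold opN
  rw [← rf_sum i]
  refine Finset.sum_congr rfl fun a _ => ?_
  rw [bias_rfDir hi, opT_rfSt]

lemma hN_rfSt (P : Par) {i : Fin (d + 1)} (hi : i ≠ 0) (lam : ℝ) (S : St d) :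
    hN P (bias d lam).1 i (rfSt i S) = -hN P (bias d lam).1 i S := by
  unfold hN
  rw [← rf_sum i, ← Finset.sum_neg_distrib]
  refine Finset.sum_congr rfl fun a _ => ?_
  rw [bias_rfDir hi]
  unfold hh rfSt
  rw [rfEdge_edgeOf_zero, rfDir_rfDir, stepVec_rfDir]
  simp only [rfSite, if_true]
  push_cast
  ring

lemma iterate_rfSt (P : Par) {i : Fin (d + 1)} (hi : i ≠ 0) (lam : ℝ) (k : ℕ) (S : St d) :
    ((opN P (bias d lam).1)^[k] (hN P (bias d lam).1 i)) (rfSt i S) =
      -((opN P (bias d lam).1)^[k] (hN P (bias d lam).1 i)) S := by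
  induction k generalizing S with
  | zero => exact hN_rfSt P hi lam S
  | succ k ih =>
    rw [Function.iterate_succ_apply', opN_rfSt P hi]
    have h : (fun S => ((opN P (bias d lam).1)^[k] (hN P (bias d lam).1 i)) (rfSt i S)) =
        fun S => (-1 : ℝ) * ((opN P (bias d lam).1)^[k] (hN P (bias d lam).1 i)) S := by
      funext S
      rw [ih]
      ring
    rw [h]
    unfold opN
    rw [← Finset.sum_neg_distrib]
    refine Finset.sum_congr rfl fun a _ => ?_
    rw [opT_const_mul]
    ring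

/-- Item A6. -/
theorem claimRefl : ClaimRefl := by
  intro P d i hi lam k
  have h := iterate_rfSt P hi lam k (0 : St d)
  rw [rfSt_zero] at h
  linarith

end DynPerc
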