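import Pool.Agent.Work.MP_f058f1_pr.Stmts

/-!
# Schwarz lemma twice
-/

open MeasureTheory ProbabilityTheory Filter Topology

noncomputable section

namespace DynPerc

/-- The Schwarz lemma for a function which vanishes at `0`. -/
theorem schw_one {f : ℂ → ℂ} {δ C : ℝ} (hd : DifferentiableOn ℂ f (Metric.ball 0 δ))
    (h0 : f 0 = 0) (hb : ∀ z ∈ Metric.ball (0 : ℂ) δ, ‖f z‖ ≤ C) {z : ℂ}
    (hz : z ∈ Metric.ball (0 : ℂ) δ) : ‖f z‖ ≤ C / δ * ‖z‖ := by
  have h1 : Set.MapsTo f (Metric.ball 0 δ) (Metric.closedBall (f 0) C) := by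
    intro w hw
    rw [h0, mem_closedBall_zero_iff]
    exact hb w hw
  have h2 := Complex.dist_le_div_mul_dist_of_mapsTo_ball hd h1 hz
  rwa [h0, dist_zero_right, dist_zero_right] at h2

/-- Item E1. -/
theorem claimSchw : ClaimSchw := by
  intro W δ C hδ hs ht hC s hs' t ht'
  have h00 : (0 : ℂ) ∈ Metric.ball (0 : ℂ) δ := Metric.mem_ball_self hδ
  -- the difference
  set f : ℂ → ℂ → ℂ := fun s t => W s t - W s 0 - W 0 t + W 0 0 with hf
  have hb : ∀ s ∈ Metric.ball (0 : ℂ) δ, ∀ t ∈ Metric.ball (0 : ℂ) δ, ‖f s t‖ ≤ 4 * C := by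
    intro s hs t ht
    have h1 := hC s hs t ht
    have h2 := hC s hs 0 h00
    have h3 := hC 0 h00 t ht
    have h4 := hC 0 h00 0 h00
    calc ‖W s t - W s 0 - W 0 t + W 0 0‖
        ≤ ‖W s t - W s 0 - W 0 t‖ + ‖W 0 0‖ := norm_add_le _ _
      _ ≤ (‖W s t - W s 0‖ + ‖W 0 t‖) + ‖W 0 0‖ := by gcongr; exact norm_sub_le _ _
      _ ≤ ((‖W s t‖ + ‖W s 0‖) + ‖W 0 t‖) + ‖W 0 0‖ := by gcongr; exact norm_sub_le _ _
      _ ≤ 4 * C := by linarith
  have hb2 : ∀ s ∈ Metric.ball (0 : ℂ) δ, ‖f s t‖ ≤ 4 * C / δ * ‖t‖ := by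
    intro s hs1
    refine schw_one (f := fun t => f s t) ?_ ?_ (hb s hs1) ht'
    · exact (((ht s hs1).sub (differentiableOn_const _)).sub (ht 0 h00)).add
        (differentiableOn_const _)
    · simp [hf]
  have hd : DifferentiableOn ℂ (fun s => f s t) (Metric.ball 0 δ) :=
    (((hs t ht').sub (hs 0 h00)).sub (differentiableOn_const _)).add (differentiableOn_const _)
  have h5 := schw_one (f := fun s => f s t) hd (by simp [hf]) hb2 hs'
  calc ‖f s t‖ ≤ 4 * C / δ * ‖t‖ / δ * ‖s‖ := h5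
    _ = 4 * C / δ ^ 2 * ‖s‖ * ‖t‖ := by
      field_simp

end DynPerc
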