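import Pool.Agent.Work.MP_f058f1_pr.Stmts

/-!
# Item B5: the Markov property of the graphical construction
-/

open MeasureTheory ProbabilityTheory Filter Topology

noncomputable section

namespace DynPerc

variable {d : ℕ}

/-- Outcome of the ring number `k`. -/
def stepOut (η : Edge d → ℕ → ℝ × Bool) (w : ℕ → ℝ × Dir d) (k : ℕ) : Bool :=
  edgeState (η (edgeOf (pos η w k) (w k).2)) (ringTime w k)

lemma step_pos_succ (η : Edge d → ℕ → ℝ × Bool) (w : ℕ → ℝ × Dir d) (k : ℕ) :
    pos η w (k + 1) = if stepOut η w k then pos η w k + stepVec (w k).2 else pos η w k := rfl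

lemma step_memory_succ (P : Par) (η : Edge d → ℕ → ℝ × Bool) (w : ℕ → ℝ × Dir d) (k : ℕ) :
    memory P η w (k + 1) = next P (memory P η w k) (w k).2 (w k).1 (stepOut η w k) := rfl

lemma step_pos_eq (η : Edge d → ℕ → ℝ × Bool) (w : ℕ → ℝ × Dir d) (k : ℕ) :
    pos η w k = rpos w (stepOut η w) k := by
  induction k with
  | zero => rfl
  | succ k ih => rw [step_pos_succ, ih]; rfl

lemma step_memory_eq (P : Par) (η : Edge d → ℕ → ℝ × Bool) (w : ℕ → ℝ × Dir d) (k : ℕ) :
    memory P η w k = rmem P w (stepOut η w) k := by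
  induction k with
  | zero => rfl
  | succ k ih => rw [step_memory_succ, ih]; rfl

lemma step_rpos_congr (w : ℕ → ℝ × Dir d) {o o' : ℕ → Bool} {k : ℕ} (h : ∀ l < k, o l = o' l) :
    rpos w o k = rpos w o' k := by
  induction k with
  | zero => rfl
  | succ k ih =>
    simp only [rpos]
    rw [ih fun l hl => h l (hl.trans (Nat.lt_succ_self k)), h k (Nat.lt_succ_self k)]

lemma step_rmem_congr (P : Par) (w : ℕ → ℝ × Dir d) {o o' : ℕ → Bool} {k : ℕ}
    (h : ∀ l < k, o l = o' l) : rmem P w o k = rmem P w o' k := by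
  induction k with
  | zero => rfl
  | succ k ih =>
    simp only [rmem]
    rw [ih fun l hl => h l (hl.trans (Nat.lt_succ_self k)), h k (Nat.lt_succ_self k)]

lemma step_ringTime_congr {w w' : ℕ → ℝ × Dir d} {k : ℕ} (h : ∀ l < k + 1, w l = w' l) :
    ringTime w k = ringTime w' k := by
  unfold ringTime
  exact Finset.sum_congr rfl fun j hj => by rw [h j (Finset.mem_range.1 hj)]

lemma step_pos_congr (η : Edge d → ℕ → ℝ × Bool) {w w' : ℕ → ℝ × Dir d} {k : ℕ}
    (h : ∀ l < k, w l = w' l) : pos η w k = pos η w' k := by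
  induction k with
  | zero => rfl
  | succ k ih =>
    have h1 := ih fun l hl => h l (hl.trans (Nat.lt_succ_self k))
    simp only [pos]
    rw [h1, h k (Nat.lt_succ_self k), step_ringTime_congr h]

lemma step_out_congr (η : Edge d → ℕ → ℝ × Bool) {w w' : ℕ → ℝ × Dir d} {k : ℕ}
    (h : ∀ l < k + 1, w l = w' l) : stepOut η w k = stepOut η w' k := by
  unfold stepOut
  rw [step_pos_congr η fun l hl => h l (hl.trans (Nat.lt_succ_self k)),
    h k (Nat.lt_succ_self k), step_ringTime_congr h]

lemma step_memory_congr (P : Par) (η : Edge d → ℕ → ℝ × Bool) {w w' : ℕ → ℝ × Dir d} {k : ℕ}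
    (h : ∀ l < k, w l = w' l) : memory P η w k = memory P η w' k := by
  induction k with
  | zero => rfl
  | succ k ih =>
    rw [step_memory_succ, step_memory_succ, ih fun l hl => h l (hl.trans (Nat.lt_succ_self k)),
      h k (Nat.lt_succ_self k), step_out_congr η h]

lemma step_valid (P : Par) (η : Edge d → ℕ → ℝ × Bool) {w : ℕ → ℝ × Dir d}
    (hw : ∀ k, 0 ≤ (w k).1) (k : ℕ) : Valid P (memory P η w k) := by
  induction k with
  | zero => exact valid_zero P
  | succ k ih => rw [step_memory_succ]; exact next_valid ih _ (hw k) _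

lemma step_stepVec_le (a : Dir d) (i : Fin (d + 1)) : |stepVec a i| ≤ 1 := by
  unfold stepVec
  split_ifs
  · by_cases h : i = a.1
    · subst h; simp
    · simp [Pi.single_eq_of_ne h]
  · by_cases h : i = a.1
    · subst h; simp
    · simp [Pi.single_eq_of_ne h]

lemma step_pos_le (η : Edge d → ℕ → ℝ × Bool) (w : ℕ → ℝ × Dir d) (k : ℕ) (i : Fin (d + 1)) :
    |pos η w k i| ≤ k := by
  induction k with
  | zero => simp [pos]
  | succ k ih =>
    rw [step_pos_succ]
    push_cast
    split_ifs
    · rw [Pi.add_apply]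
      exact (abs_add_le _ _).trans (add_le_add ih (step_stepVec_le _ i))
    · linarith

lemma step_uniform {P : Par} {F : Site d → St d → ℝ} (hF : ∀ x, Reg P (F x)) (n : ℕ) :
    ∃ C : ℝ, ∀ x : Site d, (∀ i, |x i| ≤ n) → ∀ S, Valid P S → |F x S| ≤ C := by
  choose m C hC using hF
  have hfin : (Set.Icc (fun _ => -(n : ℤ)) (fun _ => (n : ℤ)) : Set (Site d)).Finite :=
    Set.finite_Icc _ _
  refine ⟨∑ x ∈ hfin.toFinset, |C x|, fun x hx S hS => ?_⟩
  have hmem : x ∈ hfin.toFinset := by
    rw [Set.Finite.mem_toFinset]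
    exact ⟨fun i => (abs_le.1 (hx i)).1, fun i => (abs_le.1 (hx i)).2⟩
  calc |F x S| ≤ C x := hC x S hS
    _ ≤ |C x| := le_abs_self _
    _ ≤ _ := Finset.single_le_sum (f := fun x => |C x|) (fun _ _ => abs_nonneg _) hmem

/-! ### Measurability -/

lemma step_meas_out (h2 : ClaimMeas) (k : ℕ) :
    Measurable fun ω : (Edge d → ℕ → ℝ × Bool) × (ℕ → ℝ × Dir d) => stepOut ω.1 ω.2 k := by
  obtain ⟨-, h2b, h2c⟩ := h2
  have hp := h2c d k
  have hdir : Measurable fun ω : (Edge d → ℕ → ℝ × Bool) × (ℕ → ℝ × Dir d) => (ω.2 k).2 :=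
    ((measurable_pi_apply k).comp measurable_snd).snd
  have hedge : Measurable fun q : Site d × Dir d => edgeOf q.1 q.2 := measurable_of_countable _
  have he : Measurable fun ω : (Edge d → ℕ → ℝ × Bool) × (ℕ → ℝ × Dir d) =>
      edgeOf (pos ω.1 ω.2 k) (ω.2 k).2 := hedge.comp (hp.prodMk hdir)
  have hev : Measurable fun q : (Edge d → ℕ → ℝ × Bool) × Edge d => q.1 q.2 :=
    measurable_from_prod_countable_left fun e => measurable_pi_apply e
  have hη : Measurable fun ω : (Edge d → ℕ → ℝ × Bool) × (ℕ → ℝ × Dir d) =>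
      ω.1 (edgeOf (pos ω.1 ω.2 k) (ω.2 k).2) := hev.comp (measurable_fst.prodMk he)
  have ht : Measurable fun ω : (Edge d → ℕ → ℝ × Bool) × (ℕ → ℝ × Dir d) =>
      ringTime ω.2 k := by
    unfold ringTime
    exact Finset.measurable_sum _ fun j _ => ((measurable_pi_apply j).comp measurable_snd).fst
  exact h2b.comp (hη.prodMk ht)

lemma step_meas_memory (P : Par) (h2 : ClaimMeas) (k : ℕ) :
    Measurable fun ω : (Edge d → ℕ → ℝ × Bool) × (ℕ → ℝ × Dir d) => memory P ω.1 ω.2 k := by
  induction k with
  | zero => exact measurable_const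
  | succ k ih =>
    have hN : Measurable fun q : (Dir d × Bool) × (St d × ℝ) =>
        next P q.2.1 q.1.1 q.2.2 q.1.2 :=
      measurable_from_prod_countable_right fun ao => measurable_next P ao.1 ao.2
    have hw : Measurable fun ω : (Edge d → ℕ → ℝ × Bool) × (ℕ → ℝ × Dir d) => ω.2 k :=
      (measurable_pi_apply k).comp measurable_snd
    exact hN.comp ((hw.snd.prodMk (step_meas_out h2 k)).prodMk (ih.prodMk hw.fst))

/-- A function of the position and the memory is measurable. -/
lemma step_meas_fun {P : Par} (h2 : ClaimMeas) {F : Site d → St d → ℝ}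
    (hF : ∀ x, Measurable (F x)) (k : ℕ) :
    Measurable fun ω : (Edge d → ℕ → ℝ × Bool) × (ℕ → ℝ × Dir d) =>
      F (pos ω.1 ω.2 k) (memory P ω.1 ω.2 k) := by
  have h : Measurable fun q : Site d × St d => F q.1 q.2 :=
    measurable_from_prod_countable_right fun x => hF x
  exact h.comp ((h2.2.2 d k).prodMk (step_meas_memory P h2 k))

lemma step_meas_K {P : Par} (h2 : ClaimMeas) {F : Site d → St d → ℝ}
    (hF : ∀ x, Measurable (F x)) (k : ℕ) :
    Measurable fun ω : (Edge d → ℕ → ℝ × Bool) × (ℕ → ℝ × Dir d) =>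
      integrand P (ω.2 k).2 F (pos ω.1 ω.2 k) (memory P ω.1 ω.2 k) (ω.2 k).1 := by
  have h : Measurable fun q : (Site d × Dir d) × (St d × ℝ) =>
      integrand P q.1.2 F q.1.1 q.2.1 q.2.2 :=
    measurable_from_prod_countable_right fun x =>
      measurable_integrand (P := P) (a := x.2) (F := F) hF x.1
  have hw : Measurable fun ω : (Edge d → ℕ → ℝ × Bool) × (ℕ → ℝ × Dir d) => ω.2 k :=
    (measurable_pi_apply k).comp measurable_snd
  exact h.comp (((h2.2.2 d k).prodMk hw.snd).prodMk ((step_meas_memory P h2 k).prodMk hw.fst))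

/-! ### The law of the outcomes -/

lemma step_event (w : ℕ → ℝ × Dir d) (o : ℕ → Bool) (n : ℕ) :
    {η : Edge d → ℕ → ℝ × Bool | ∀ l < n, stepOut η w l = o l} =
      {η | ∀ l < n, edgeState (η (edgeOf (rpos w o l) (w l).2)) (ringTime w l) = o l} := by
  ext η
  simp only [Set.mem_ofPred_eq]
  constructor
  · intro h l hl
    have h1 : pos η w l = rpos w o l := by
      rw [step_pos_eq]
      exact step_rpos_congr w fun j hj => h j (hj.trans hl)
    rw [← h1]
    exact h l hl
  · intro h
    have key : ∀ l ≤ n, pos η w l = rpos w o l := by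
      intro l
      induction l with
      | zero => intro _; rfl
      | succ l ih =>
        intro hl
        have h1 := ih (by omega)
        simp only [pos, rpos]
        rw [h1, h l (by omega)]
    intro l hl
    unfold stepOut
    rw [key l hl.le]
    exact h l hl

/-- Extension of a finite list of outcomes. -/
def stepExt (n : ℕ) (s : Fin n → Bool) (b : Bool) : ℕ → Bool :=
  fun l => if h : l < n then s ⟨l, h⟩ else b

lemma stepExt_lt {n : ℕ} (s : Fin n → Bool) (b : Bool) {l : ℕ} (h : l < n) :
    stepExt n s b l = s ⟨l, h⟩ := by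
  unfold stepExt; rw [dif_pos h]

lemma stepExt_self {n : ℕ} (s : Fin n → Bool) (b : Bool) : stepExt n s b n = b := by
  unfold stepExt; rw [dif_neg (lt_irrefl n)]

lemma step_env (h1 : ClaimEnv) (h2 : ClaimMeas) (P : Par) (w : ℕ → ℝ × Dir d)
    (hw : ∀ n, 0 ≤ (w n).1) (n : ℕ) (G : Site d → St d → ℝ) :
    ∫ η, G (pos η w (n + 1)) (memory P η w (n + 1)) ∂(envLaw P d) =
      ∫ η, integrand P (w n).2 G (pos η w n) (memory P η w n) (w n).1 ∂(envLaw P d) := by
  classical
  set T : (Edge d → ℕ → ℝ × Bool) → (Fin n → Bool) × Bool :=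
    fun η => (fun l => stepOut η w l, stepOut η w n) with hT
  have hout : ∀ k, Measurable fun η : Edge d → ℕ → ℝ × Bool => stepOut η w k := fun k =>
    (step_meas_out h2 k).comp (measurable_id.prodMk measurable_const)
  have hTm : Measurable T :=
    (measurable_pi_lambda _ fun l : Fin n => hout l).prodMk (hout n)
  set W : (Fin n → Bool) → ℝ := fun s => ∏ l ∈ Finset.range n,
    wt P (rmem P w (stepExt n s false) l) (w l).2 (w l).1 (stepExt n s false l) with hW
  set M : (Fin n → Bool) → St d := fun s => rmem P w (stepExt n s false) n with hM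
  set X : (Fin n → Bool) → Site d := fun s => rpos w (stepExt n s false) n with hX
  have hagree : ∀ (s : Fin n → Bool) (b : Bool), ∀ l < n,
      stepExt n s b l = stepExt n s false l := fun s b l hl => by
    rw [stepExt_lt s b hl, stepExt_lt s false hl]
  -- the law of `T`
  have hlaw : ∀ (s : Fin n → Bool) (b : Bool),
      ((envLaw P d).map T).real {(s, b)} = W s * wt P (M s) (w n).2 (w n).1 b := by
    intro s b
    rw [map_measureReal_apply hTm (measurableSet_singleton _)]
    have hset : T ⁻¹' {(s, b)} = {η : Edge d → ℕ → ℝ × Bool |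
        ∀ l < n + 1, stepOut η w l = stepExt n s b l} := by
      ext η
      simp only [hT, Set.mem_preimage, Set.mem_singleton_iff, Prod.mk.injEq, Set.mem_ofPred_eq]
      constructor
      · rintro ⟨ha, hb⟩ l hl
        rcases Nat.lt_succ_iff_lt_or_eq.1 hl with hl | rfl
        · rw [stepExt_lt s b hl]
          exact congrFun ha ⟨l, hl⟩
        · rw [stepExt_self]; exact hb
      · intro h
        refine ⟨funext fun l => ?_, ?_⟩
        · have := h l.1 (l.2.trans (Nat.lt_succ_self n))
          rw [stepExt_lt s b l.2] at this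
          exact this
        · have := h n (Nat.lt_succ_self n)
          rw [stepExt_self] at this
          exact this
    rw [hset, step_event, h1 P d w (stepExt n s b) hw (n + 1), Finset.prod_range_succ,
      stepExt_self]
    congr 1
    · refine Finset.prod_congr rfl fun l hl => ?_
      have hl' := Finset.mem_range.1 hl
      rw [hagree s b l hl', step_rmem_congr P w fun j hj => hagree s b j (hj.trans hl')]
    · rw [step_rmem_congr P w fun j hj => hagree s b j hj]
  -- integrals of functions of `T`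
  have hint : ∀ f : (Fin n → Bool) × Bool → ℝ, ∫ η, f (T η) ∂(envLaw P d) =
      ∑ s, ∑ b, W s * wt P (M s) (w n).2 (w n).1 b * f (s, b) := by
    intro f
    have : IsProbabilityMeasure ((envLaw P d).map T) :=
      Measure.isProbabilityMeasure_map hTm.aemeasurable
    rw [← integral_map (φ := T) hTm.aemeasurable (f := f)
      (measurable_of_countable f).aestronglyMeasurable,
      integral_fintype (Integrable.of_finite), Fintype.sum_prod_type]
    refine Finset.sum_congr rfl fun s _ => Finset.sum_congr rfl fun b _ => ?_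
    rw [hlaw s b, smul_eq_mul]
  have hTs : ∀ η : Edge d → ℕ → ℝ × Bool, ∀ l < n,
      stepOut η w l = stepExt n (T η).1 false l := fun η l hl => by
    rw [stepExt_lt _ _ hl]
  have hposT : ∀ η, pos η w n = X (T η).1 := fun η => by
    rw [step_pos_eq]; exact step_rpos_congr w (hTs η)
  have hmemT : ∀ η, memory P η w n = M (T η).1 := fun η => by
    rw [step_memory_eq]; exact step_rmem_congr P w (hTs η)
  have hL : ∀ η, G (pos η w (n + 1)) (memory P η w (n + 1)) =
      (fun q : (Fin n → Bool) × Bool => G (if q.2 then X q.1 + stepVec (w n).2 else X q.1)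
        (next P (M q.1) (w n).2 (w n).1 q.2)) (T η) := by
    intro η
    rw [step_pos_succ, step_memory_succ, hposT, hmemT]
  have hR : ∀ η, integrand P (w n).2 G (pos η w n) (memory P η w n) (w n).1 =
      (fun q : (Fin n → Bool) × Bool => integrand P (w n).2 G (X q.1) (M q.1) (w n).1) (T η) := by
    intro η
    rw [hposT, hmemT]
  rw [integral_congr_ae (Eventually.of_forall hL), integral_congr_ae (Eventually.of_forall hR),
    hint (fun q : (Fin n → Bool) × Bool => G (if q.2 then X q.1 + stepVec (w n).2 else X q.1)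
        (next P (M q.1) (w n).2 (w n).1 q.2)),
    hint (fun q : (Fin n → Bool) × Bool => integrand P (w n).2 G (X q.1) (M q.1) (w n).1)]
  refine Finset.sum_congr rfl fun s _ => ?_
  simp only [Fintype.sum_bool, wt, integrand]
  simp
  ring

/-! ### Integration over the clock and the directions -/

lemma step_dirLaw (ν : stdSimplex ℝ (Dir d)) (f : Dir d → ℝ) :
    ∫ a, f a ∂(dirLaw ν) = ∑ a, ν.1 a * f a := by
  unfold dirLaw
  rw [integral_finsetSum_measure fun a _ =>
    haveI := Measure.smul_finite (Measure.dirac a) (c := ENNReal.ofReal (ν.1 a))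
      ENNReal.ofReal_ne_top
    Integrable.of_finite]
  refine Finset.sum_congr rfl fun a _ => ?_
  rw [integral_smul_measure, integral_dirac, ENNReal.toReal_ofReal (ν.2.1 a), smul_eq_mul]

lemma step_kappa {P : Par} (ν : stdSimplex ℝ (Dir d)) {F : Site d → St d → ℝ}
    (hF : ∀ x, Reg P (F x)) (x : Site d) {S : St d} (hS : Valid P S) :
    ∫ z, integrand P z.2 F x S z.1 ∂(clockLaw.prod (dirLaw ν)) = opXN P ν.1 F x S := by
  have hm : Measurable fun z : ℝ × Dir d => integrand P z.2 F x S z.1 := by
    refine measurable_from_prod_countable_left fun a => ?_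
    exact (measurable_integrand (P := P) (a := a) (fun x => (hF x).1) x).comp
      (measurable_const.prodMk measurable_id)
  have hb : ∃ C, ∀ a : Dir d, ∀ g : ℝ, 0 ≤ g → |integrand P a F x S g| ≤ C := by
    have : ∀ a : Dir d, ∃ C, ∀ g : ℝ, 0 ≤ g → |integrand P a F x S g| ≤ C := by
      intro a
      obtain ⟨-, C1, hC1⟩ := hF (x + stepVec a)
      obtain ⟨-, C2, hC2⟩ := hF x
      exact ⟨max C1 C2, fun g hg => integrand_bound
        (fun S hS => (hC1 S hS).trans (le_max_left _ _))
        (fun S hS => (hC2 S hS).trans (le_max_right _ _)) hS hg⟩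
    choose C hC using this
    exact ⟨∑ a, |C a|, fun a g hg => (hC a g hg).trans ((le_abs_self _).trans
      (Finset.single_le_sum (f := fun a => |C a|) (fun _ _ => abs_nonneg _)
        (Finset.mem_univ a)))⟩
  obtain ⟨C, hC⟩ := hb
  have hae : ∀ᵐ z ∂(clockLaw.prod (dirLaw ν)), 0 < z.1 := by
    have := (Measure.quasiMeasurePreserving_fst (μ := clockLaw) (ν := dirLaw ν)).ae clock_ae_pos
    exact this
  have hi : Integrable (fun z : ℝ × Dir d => integrand P z.2 F x S z.1)
      (clockLaw.prod (dirLaw ν)) := by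
    refine Integrable.of_bound hm.aestronglyMeasurable C ?_
    filter_upwards [hae] with z hz
    rw [Real.norm_eq_abs]
    exact hC z.2 z.1 hz.le
  rw [integral_prod_symm _ hi, step_dirLaw]
  rfl

lemma step_ae_walk (ν : stdSimplex ℝ (Dir d)) : ∀ᵐ w ∂(walkLaw ν), ∀ k, 0 < (w k).1 := by
  rw [ae_all_iff]
  intro k
  have h1 : ∀ᵐ z ∂(clockLaw.prod (dirLaw ν)), 0 < z.1 :=
    (Measure.quasiMeasurePreserving_fst (μ := clockLaw) (ν := dirLaw ν)).ae clock_ae_pos
  exact (measurePreserving_eval_infinitePi (fun _ : ℕ => clockLaw.prod (dirLaw ν)) k).quasiMeasurePreserving.ae h1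

lemma step_ae_law (P : Par) (ν : stdSimplex ℝ (Dir d)) :
    ∀ᵐ ω ∂(law P ν), ∀ k, 0 < (ω.2 k).1 :=
  (Measure.quasiMeasurePreserving_snd (μ := envLaw P d) (ν := walkLaw ν)).ae (step_ae_walk ν)

/-- Integration of the gap and the direction number `n`. -/
lemma step_resample (h2 : ClaimMeas) (h4 : ClaimInd) (P : Par) (ν : stdSimplex ℝ (Dir d))
    {F : Site d → St d → ℝ} (hF : ∀ x, Reg P (F x)) (n : ℕ) (η : Edge d → ℕ → ℝ × Bool) {C : ℝ}
    (hC : ∀ x : Site d, (∀ i, |x i| ≤ (n + 1 : ℕ)) → ∀ S, Valid P S → |F x S| ≤ C) :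
    ∫ w, integrand P (w n).2 F (pos η w n) (memory P η w n) (w n).1 ∂(walkLaw ν) =
      ∫ w, opXN P ν.1 F (pos η w n) (memory P η w n) ∂(walkLaw ν) := by
  set κ := clockLaw.prod (dirLaw ν) with hκ
  set U : (ℝ × Dir d) × (ℕ → ℝ × Dir d) → (ℕ → ℝ × Dir d) :=
    fun q => Function.update q.2 n q.1 with hU
  have hUm : Measurable U := by
    rw [measurable_pi_iff]
    intro j
    by_cases hj : j = n
    · subst hj
      simp only [hU, Function.update_self]
      exact measurable_fst
    · simp only [hU, Function.update_of_ne hj]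
      exact (measurable_pi_apply j).comp measurable_snd
  have hmap : Measure.map U (κ.prod (walkLaw ν)) = walkLaw ν := h4 (ℝ × Dir d) κ n
  have hKm : Measurable fun w : ℕ → ℝ × Dir d =>
      integrand P (w n).2 F (pos η w n) (memory P η w n) (w n).1 :=
    (step_meas_K (P := P) h2 (fun x => (hF x).1) n).comp (measurable_const.prodMk measurable_id)
  have hb : ∀ᵐ w ∂(walkLaw ν),
      ‖integrand P (w n).2 F (pos η w n) (memory P η w n) (w n).1‖ ≤ C := by
    filter_upwards [step_ae_walk ν] with w hw
    rw [Real.norm_eq_abs]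
    refine integrand_bound (fun S hS => hC _ (fun i => ?_) S hS) (fun S hS => hC _ (fun i => ?_) S hS)
      (step_valid P η (fun k => (hw k).le) n) (hw n).le
    · rw [Pi.add_apply]
      push_cast
      exact (abs_add_le _ _).trans (add_le_add (step_pos_le η w n i) (step_stepVec_le _ i))
    · have := step_pos_le η w n i
      push_cast
      linarith
  have hKi : Integrable (fun w : ℕ → ℝ × Dir d =>
      integrand P (w n).2 F (pos η w n) (memory P η w n) (w n).1) (walkLaw ν) :=
    Integrable.of_bound hKm.aestronglyMeasurable C hb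
  have hcomp : ∀ q : (ℝ × Dir d) × (ℕ → ℝ × Dir d),
      integrand P (U q n).2 F (pos η (U q) n) (memory P η (U q) n) (U q n).1 =
        integrand P q.1.2 F (pos η q.2 n) (memory P η q.2 n) q.1.1 := by
    intro q
    have e1 : U q n = q.1 := by simp [hU]
    have e2 : ∀ l < n, U q l = q.2 l := fun l hl => by
      simp only [hU]; rw [Function.update_of_ne (Nat.ne_of_lt hl)]
    rw [e1, step_pos_congr η e2, step_memory_congr P η e2]
  have hi : Integrable (fun q : (ℝ × Dir d) × (ℕ → ℝ × Dir d) =>
      integrand P q.1.2 F (pos η q.2 n) (memory P η q.2 n) q.1.1) (κ.prod (walkLaw ν)) := by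
    have h := (integrable_map_measure (μ := κ.prod (walkLaw ν)) (f := U)
      (g := fun w : ℕ → ℝ × Dir d =>
        integrand P (w n).2 F (pos η w n) (memory P η w n) (w n).1)
      hKm.aestronglyMeasurable hUm.aemeasurable).1 (by rw [hmap]; exact hKi)
    refine h.congr (Eventually.of_forall fun q => ?_)
    exact hcomp q
  calc ∫ w, integrand P (w n).2 F (pos η w n) (memory P η w n) (w n).1 ∂(walkLaw ν)
      = ∫ w, integrand P (w n).2 F (pos η w n) (memory P η w n) (w n).1
          ∂(Measure.map U (κ.prod (walkLaw ν))) := by rw [hmap]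
    _ = ∫ q, integrand P (U q n).2 F (pos η (U q) n) (memory P η (U q) n) (U q n).1
          ∂(κ.prod (walkLaw ν)) := integral_map hUm.aemeasurable hKm.aestronglyMeasurable
    _ = ∫ q, integrand P q.1.2 F (pos η q.2 n) (memory P η q.2 n) q.1.1
          ∂(κ.prod (walkLaw ν)) := integral_congr_ae (Eventually.of_forall hcomp)
    _ = ∫ w, ∫ z, integrand P z.2 F (pos η w n) (memory P η w n) z.1 ∂κ ∂(walkLaw ν) :=
        integral_prod_symm _ hi
    _ = ∫ w, opXN P ν.1 F (pos η w n) (memory P η w n) ∂(walkLaw ν) := by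
        refine integral_congr_ae ?_
        filter_upwards [step_ae_walk ν] with w hw
        exact step_kappa ν hF _ (step_valid P η (fun k => (hw k).le) n)

theorem claimStep (h1 : ClaimEnv) (h2 : ClaimMeas) (h4 : ClaimInd) : ClaimStep := by
  intro P d ν F hF
  have hint : ∀ (G : Site d → St d → ℝ), (∀ x, Reg P (G x)) → ∀ n : ℕ,
      Integrable (fun ω => G (pos ω.1 ω.2 n) (memory P ω.1 ω.2 n)) (law P ν) := by
    intro G hG n
    obtain ⟨C, hC⟩ := step_uniform hG n
    refine Integrable.of_bound
      (step_meas_fun h2 (fun x => (hG x).1) n).aestronglyMeasurable C ?_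
    filter_upwards [step_ae_law P ν] with ω hω
    rw [Real.norm_eq_abs]
    exact hC _ (step_pos_le ω.1 ω.2 n) _ (step_valid P ω.1 (fun k => (hω k).le) n)
  intro n
  refine ⟨hint F hF n, ?_⟩
  obtain ⟨C, hC⟩ := step_uniform hF (n + 1)
  have hopReg : ∀ x, Reg P (opXN P ν.1 F x) := fun x =>
    Reg.sum _ fun a _ => (opX_reg hF x).const_mul _
  have hKi : Integrable (fun ω : (Edge d → ℕ → ℝ × Bool) × (ℕ → ℝ × Dir d) =>
      integrand P (ω.2 n).2 F (pos ω.1 ω.2 n) (memory P ω.1 ω.2 n) (ω.2 n).1) (law P ν) := by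
    refine Integrable.of_bound
      (step_meas_K (P := P) h2 (fun x => (hF x).1) n).aestronglyMeasurable C ?_
    filter_upwards [step_ae_law P ν] with ω hω
    rw [Real.norm_eq_abs]
    refine integrand_bound (fun S hS => hC _ (fun i => ?_) S hS)
      (fun S hS => hC _ (fun i => ?_) S hS)
      (step_valid P ω.1 (fun k => (hω k).le) n) (hω n).le
    · rw [Pi.add_apply]
      push_cast
      exact (abs_add_le _ _).trans (add_le_add (step_pos_le ω.1 ω.2 n i) (step_stepVec_le _ i))
    · have := step_pos_le ω.1 ω.2 n i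
      push_cast
      linarith
  have hi1 := hint F hF (n + 1)
  have hi3 := hint (opXN P ν.1 F) hopReg n
  unfold law at hi1 hKi hi3 ⊢
  rw [integral_prod_symm _ hi1]
  calc ∫ w, ∫ η, F (pos η w (n + 1)) (memory P η w (n + 1)) ∂(envLaw P d) ∂(walkLaw ν)
      = ∫ w, ∫ η, integrand P (w n).2 F (pos η w n) (memory P η w n) (w n).1
          ∂(envLaw P d) ∂(walkLaw ν) := by
        refine integral_congr_ae ?_
        filter_upwards [step_ae_walk ν] with w hw
        exact step_env h1 h2 P w (fun k => (hw k).le) n F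
    _ = ∫ ω, integrand P (ω.2 n).2 F (pos ω.1 ω.2 n) (memory P ω.1 ω.2 n) (ω.2 n).1
          ∂((envLaw P d).prod (walkLaw ν)) := (integral_prod_symm _ hKi).symm
    _ = ∫ η, ∫ w, integrand P (w n).2 F (pos η w n) (memory P η w n) (w n).1
          ∂(walkLaw ν) ∂(envLaw P d) := integral_prod _ hKi
    _ = ∫ η, ∫ w, opXN P ν.1 F (pos η w n) (memory P η w n) ∂(walkLaw ν) ∂(envLaw P d) := by
        refine integral_congr_ae (Eventually.of_forall fun η => ?_)
        exact step_resample h2 h4 P ν hF n η hC
    _ = _ := (integral_prod _ hi3).symm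

end DynPerc
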