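import Pool.Agent.Work.MP_f058f1_pr.Stmts

open MeasureTheory ProbabilityTheory Filter Topology

noncomputable section

namespace DynPerc

theorem tay_aux (g g1 g2 : ℝ → ℝ) (δ c C : ℝ) (hδ : 0 < δ) (hc : 0 < c)
    (h1 : ∀ q ∈ Set.Ioo (-δ) δ, HasDerivAt g (g1 q) q)
    (h2 : ∀ q ∈ Set.Ioo (-δ) δ, HasDerivAt g1 (g2 q) q)
    (h3 : ContinuousAt g2 0)
    (hb : ∀ q ∈ Set.Ico (0 : ℝ) δ, g q ≤ g 0 - c * q ^ 2 + C * q ^ 3) :
    ∃ δ' > 0, δ' ≤ δ ∧ ∀ q ∈ Set.Ioo (0 : ℝ) δ', g1 q < 0 := by
  have h0 : (0 : ℝ) ∈ Set.Ioo (-δ) δ := ⟨by linarith, hδ⟩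
  have hg10 : g1 0 ≤ 0 := by
    have hs := (h1 0 h0).tendsto_slope_zero_right
    have ht : Tendsto (fun q : ℝ => -c * q + C * q ^ 2) (𝓝[>] 0) (𝓝 0) := by
      have : Tendsto (fun q : ℝ => -c * q + C * q ^ 2) (𝓝 0) (𝓝 (-c * 0 + C * 0 ^ 2)) := by
        apply Continuous.tendsto; fun_prop
      simp only [mul_zero, ne_eq, OfNat.ofNat_ne_zero, not_false_eq_true, zero_pow, add_zero] at this
      exact this.mono_left nhdsWithin_le_nhds
    refine le_of_tendsto_of_tendsto hs ht ?_
    filter_upwards [Ioo_mem_nhdsGT hδ] with q hq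
    have hq0 : 0 < q := hq.1
    have := hb q ⟨hq.1.le, hq.2⟩
    rw [zero_add, smul_eq_mul, inv_mul_le_iff₀ hq0]
    nlinarith
  rcases hg10.lt_or_eq with hlt | heq
  · have hc1 : ContinuousAt g1 0 := (h2 0 h0).continuousAt
    have := hc1.eventually_lt_const hlt
    obtain ⟨ε, hε, hε2⟩ := Metric.eventually_nhds_iff.mp this
    refine ⟨min ε δ, lt_min hε hδ, min_le_right _ _, fun q hq => hε2 ?_⟩
    rw [Real.dist_eq, sub_zero, abs_of_pos hq.1]
    exact hq.2.trans_le (min_le_left _ _)
  · -- `g1 0 = 0`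
    have hg2 : g2 0 < 0 := by
      by_contra hcon
      push Not at hcon
      have hev : ∀ᶠ q in 𝓝 (0 : ℝ), -c < g2 q :=
        h3.eventually_const_lt (by linarith)
      obtain ⟨ε, hε, hε2⟩ := Metric.eventually_nhds_iff.mp hev
      set r := min ε δ / 2 with hr
      have hr0 : 0 < r := by have := lt_min hε hδ; positivity
      have hre : r < ε := by
        have := min_le_left ε δ; have := lt_min hε hδ; rw [hr]; linarith
      have hrd : r < δ := by
        have := min_le_right ε δ; have := lt_min hε hδ; rw [hr]; linarith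
      have hin : ∀ q ∈ Set.Icc (0 : ℝ) r, q ∈ Set.Ioo (-δ) δ := fun q hq =>
        ⟨by linarith [hq.1], by linarith [hq.2]⟩
      have hg2q : ∀ q ∈ Set.Icc (0 : ℝ) r, -c < g2 q := by
        intro q hq
        refine hε2 ?_
        rw [Real.dist_eq, sub_zero, abs_of_nonneg hq.1]; linarith [hq.2]
      have hm1 : MonotoneOn (fun q => g1 q + c * q) (Set.Icc 0 r) := by
        have hd : ∀ q ∈ Set.Icc (0 : ℝ) r, HasDerivAt (fun q => g1 q + c * q) (g2 q + c) q := by
          intro q hq
          have := (h2 q (hin q hq)).add ((hasDerivAt_id q).const_mul c)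
          refine this.congr_deriv ?_
          simp
        refine monotoneOn_of_deriv_nonneg (convex_Icc _ _)
          (fun q hq => (hd q hq).continuousAt.continuousWithinAt) ?_ ?_
        · intro q hq
          exact (hd q (interior_subset hq)).differentiableAt.differentiableWithinAt
        · intro q hq
          rw [(hd q (interior_subset hq)).deriv]
          linarith [hg2q q (interior_subset hq)]
      have hm1' : ∀ q ∈ Set.Icc (0 : ℝ) r, 0 ≤ g1 q + c * q := by
        intro q hq
        have := hm1 ⟨le_rfl, hr0.le⟩ hq hq.1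
        simpa [heq] using this
      have hm2 : MonotoneOn (fun q => g q + c / 2 * q ^ 2) (Set.Icc 0 r) := by
        have hd : ∀ q ∈ Set.Icc (0 : ℝ) r,
            HasDerivAt (fun q => g q + c / 2 * q ^ 2) (g1 q + c * q) q := by
          intro q hq
          have := (h1 q (hin q hq)).add (((hasDerivAt_id q).pow 2).const_mul (c / 2))
          refine this.congr_deriv ?_
          simp; ring
        refine monotoneOn_of_deriv_nonneg (convex_Icc _ _)
          (fun q hq => (hd q hq).continuousAt.continuousWithinAt) ?_ ?_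
        · intro q hq
          exact (hd q (interior_subset hq)).differentiableAt.differentiableWithinAt
        · intro q hq
          rw [(hd q (interior_subset hq)).deriv]
          exact hm1' q (interior_subset hq)
      -- contradiction at a small point
      set q := min r (c / (4 * (|C| + 1))) with hq
      have hC1 : 0 < |C| + 1 := by positivity
      have hq0 : 0 < q := lt_min hr0 (by positivity)
      have hqr : q ≤ r := min_le_left _ _
      have hqc : q * (|C| + 1) ≤ c / 4 := by
        have h5 : q ≤ c / (4 * (|C| + 1)) := min_le_right _ _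
        calc q * (|C| + 1) ≤ c / (4 * (|C| + 1)) * (|C| + 1) :=
              mul_le_mul_of_nonneg_right h5 hC1.le
          _ = c / 4 := by field_simp
      have h6 := hm2 ⟨le_rfl, hr0.le⟩ ⟨hq0.le, hqr⟩ hq0.le
      simp only [ne_eq, OfNat.ofNat_ne_zero, not_false_eq_true, zero_pow, mul_zero, add_zero] at h6
      have h7 := hb q ⟨hq0.le, by linarith⟩
      have h8 : C * q ≤ c / 4 := by
        have : C * q ≤ |C| * q := mul_le_mul_of_nonneg_right (le_abs_self C) hq0.le
        nlinarith
      have h9 : C * q ^ 3 ≤ c / 4 * q ^ 2 := by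
        have : C * q ^ 3 = (C * q) * q ^ 2 := by ring
        rw [this]
        exact mul_le_mul_of_nonneg_right h8 (by positivity)
      have h10 : 0 < c * q ^ 2 := by positivity
      nlinarith
    have hs := (h2 0 h0).tendsto_slope_zero_right
    have hev := hs.eventually_lt_const hg2
    obtain ⟨ε, hε, hε2⟩ := mem_nhdsGT_iff_exists_Ioo_subset.mp hev
    refine ⟨min ε δ, lt_min hε hδ, min_le_right _ _, fun q hq => ?_⟩
    have h11 : q⁻¹ • (g1 (0 + q) - g1 0) < 0 :=
      hε2 ⟨hq.1, hq.2.trans_le (min_le_left _ _)⟩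
    rw [zero_add, heq, sub_zero, smul_eq_mul] at h11
    have hq0 : 0 < q := hq.1
    by_contra hcon
    push Not at hcon
    have : 0 ≤ q⁻¹ * g1 q := mul_nonneg (by positivity) hcon
    linarith

theorem claimTaylor : ClaimTaylor := by
  intro f u δ c C hδ hc hf hfu hu
  have hopen : IsOpen (Metric.ball (0 : ℂ) δ) := Metric.isOpen_ball
  have hf1 : DifferentiableOn ℂ (deriv f) (Metric.ball 0 δ) := hf.deriv hopen
  have hf2 : DifferentiableOn ℂ (deriv (deriv f)) (Metric.ball 0 δ) := hf1.deriv hopen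
  have hmem : ∀ q : ℝ, q ∈ Set.Ioo (-δ) δ → (q : ℂ) ∈ Metric.ball (0 : ℂ) δ := by
    intro q hq
    rw [mem_ball_zero_iff, Complex.norm_real, Real.norm_eq_abs, abs_lt]
    exact hq
  have h0 : (0 : ℝ) ∈ Set.Ioo (-δ) δ := ⟨by linarith, hδ⟩
  have hg : ∀ q ∈ Set.Ico (0 : ℝ) δ, (f (q : ℂ)).re = u q := by
    intro q hq; rw [hfu q hq]; simp
  obtain ⟨δ', hδ', hle, hneg⟩ := tay_aux (fun q : ℝ => (f (q : ℂ)).re)
    (fun q : ℝ => (deriv f (q : ℂ)).re) (fun q : ℝ => (deriv (deriv f) (q : ℂ)).re) δ c C hδ hc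
    (fun q hq => ((hf.differentiableAt (hopen.mem_nhds (hmem q hq))).hasDerivAt).real_of_complex)
    (fun q hq => ((hf1.differentiableAt (hopen.mem_nhds (hmem q hq))).hasDerivAt).real_of_complex)
    (by
      have h1 : ContinuousAt (deriv (deriv f)) ((0 : ℝ) : ℂ) :=
        (hf2.differentiableAt (hopen.mem_nhds (hmem 0 h0))).continuousAt
      exact Complex.continuous_re.continuousAt.comp
        (ContinuousAt.comp (x := (0 : ℝ)) (f := fun q : ℝ => (q : ℂ)) h1
          Complex.continuous_ofReal.continuousAt))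
    (by
      intro q hq
      have e0 := hg 0 ⟨le_rfl, hδ⟩
      have e1 := hg q hq
      show (f (q : ℂ)).re ≤ (f ((0 : ℝ) : ℂ)).re - c * q ^ 2 + C * q ^ 3
      rw [e0, e1]
      exact hu q hq)
  refine ⟨δ', hδ', ?_⟩
  have hd : ∀ q ∈ Set.Ioo (0 : ℝ) δ', HasDerivAt (fun q : ℝ => (f (q : ℂ)).re)
      ((deriv f (q : ℂ)).re) q := fun q hq =>
    ((hf.differentiableAt (hopen.mem_nhds (hmem q ⟨by linarith [hq.1],
      by linarith [hq.2]⟩))).hasDerivAt).real_of_complex
  have hanti : StrictAntiOn (fun q : ℝ => (f (q : ℂ)).re) (Set.Ioo 0 δ') := by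
    refine strictAntiOn_of_deriv_neg (convex_Ioo _ _)
      (fun q hq => (hd q hq).continuousAt.continuousWithinAt) ?_
    intro q hq
    rw [interior_Ioo] at hq
    rw [(hd q hq).deriv]
    exact hneg q hq
  intro a ha b hb hab
  have := hanti ha hb hab
  simp only at this
  rwa [hg a ⟨ha.1.le, by linarith [ha.2]⟩, hg b ⟨hb.1.le, by linarith [hb.2]⟩] at this

end DynPerc
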