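import Pool.Agent.Work.MP_f058f1_pr.Stmts

/-!
# Item C1: variance bound
-/

open MeasureTheory ProbabilityTheory Filter Topology

noncomputable section

namespace DynPerc

variable {d : ℕ}

/-- Expected displacement during `m` rings. -/
def varChi (P : Par) (ν : Dir d → ℝ) (i : Fin (d + 1)) (m : ℕ) (S : St d) : ℝ :=
  ∑ k ∈ Finset.range m, ((opN P ν)^[k] (hN P ν i)) S

lemma varChi_reg (P : Par) (ν : Dir d → ℝ) (i : Fin (d + 1)) (m : ℕ) :
    Reg P (varChi P ν i m) := Reg.sum _ fun k _ => (Reg.hN P ν i).iterate ν k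

lemma varChi_succ (P : Par) (ν : Dir d → ℝ) (i : Fin (d + 1)) (m : ℕ) {S : St d}
    (hS : Valid P S) : varChi P ν i (m + 1) S = hN P ν i S + opN P ν (varChi P ν i m) S := by
  have e : opN P ν (varChi P ν i m) S =
      ∑ k ∈ Finset.range m, ((opN P ν)^[k + 1] (hN P ν i)) S := by
    have h0 : opN P ν (varChi P ν i m) S = ∑ a, ν a * opT P a (varChi P ν i m) S := rfl
    rw [h0]
    have h1 : ∀ a, opT P a (varChi P ν i m) S =
        ∑ k ∈ Finset.range m, opT P a ((opN P ν)^[k] (hN P ν i)) S := fun a =>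
      opT_sum (Finset.range m) (fun k _ => (Reg.hN P ν i).iterate ν k) hS
    simp only [h1, Finset.mul_sum]
    rw [Finset.sum_comm]
    refine Finset.sum_congr rfl fun k _ => ?_
    rw [Function.iterate_succ_apply' (opN P ν) k (hN P ν i)]
    rfl
  rw [e]
  unfold varChi
  rw [Finset.sum_range_succ']
  simp only [Function.iterate_zero, id_eq]
  ring

lemma varOpX_lin {P : Par} {a : Dir d} (i : Fin (d + 1)) (c : ℝ) {f : St d → ℝ} (hf : Reg P f)
    {x : Site d} {S : St d} (hS : Valid P S) :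
    opX P a (fun x S => ((x i : ℝ) - c) + f S) x S = ((x i : ℝ) - c) + hh P i a S + opT P a f S := by
  rw [opX_add (F := fun x _ => ((x i : ℝ) - c)) (G := fun _ S => f S) (fun x => Reg.const P _)
    (fun _ => hf) hS, ← opT_eq_opX]
  congr 1
  rw [hh_eq, opX_eq]
  have hi : Integrable (fun g => pOpen P S a g * (stepVec a i : ℝ)) clockLaw := by
    have hm : Measurable fun g : ℝ => pOpen P S a g := by
      unfold pOpen; fun_prop
    refine integrable_clock_of_bound (hm.mul_const _) (C := |(stepVec a i : ℝ)|) fun g hg => ?_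
    obtain ⟨h1, h2⟩ := pOpen_mem hS a hg.le
    rw [abs_mul, abs_of_nonneg h1]
    exact mul_le_of_le_one_left (abs_nonneg _) h2
  have e : ∀ g, integrand P a (fun x (_ : St d) => ((x i : ℝ) - c)) x S g =
      ((x i : ℝ) - c) + pOpen P S a g * (stepVec a i : ℝ) := by
    intro g
    unfold integrand
    simp only [Pi.add_apply]
    push_cast
    ring
  simp only [e]
  rw [integral_add (integrable_const _) hi]
  simp

lemma varOpXN_lin {P : Par} (ν : stdSimplex ℝ (Dir d)) (i : Fin (d + 1)) (c : ℝ) (m : ℕ)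
    {x : Site d} {S : St d} (hS : Valid P S) :
    ∑ a, ν.1 a * opX P a (fun x S => ((x i : ℝ) - c) + varChi P ν.1 i m S) x S =
      ((x i : ℝ) - c) + varChi P ν.1 i (m + 1) S := by
  simp only [varOpX_lin i c (varChi_reg P ν.1 i m) hS, mul_add, Finset.sum_add_distrib]
  rw [← Finset.sum_mul, ν.2.2, one_mul, varChi_succ P ν.1 i m hS]
  unfold hN opN
  ring

lemma varStep {P : Par} (ν : stdSimplex ℝ (Dir d)) (i : Fin (d + 1)) (c D : ℝ) (m : ℕ)
    (hD : ∀ S S' : St d, Valid P S → Valid P S' →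
      1 + |varChi P ν.1 i m S' - varChi P ν.1 i (m + 1) S| ≤ D)
    (x : Site d) {S : St d} (hS : Valid P S) :
    opXN P ν.1 (fun x S => (((x i : ℝ) - c) + varChi P ν.1 i m S) ^ 2) x S ≤
      (((x i : ℝ) - c) + varChi P ν.1 i (m + 1) S) ^ 2 + D ^ 2 := by
  set A : ℝ := ((x i : ℝ) - c) + varChi P ν.1 i (m + 1) S with hA
  set G : Site d → St d → ℝ := fun x S => ((x i : ℝ) - c) + varChi P ν.1 i m S with hG
  have rG : ∀ x, Reg P (G x) := fun x => (Reg.const P _).add (varChi_reg P ν.1 i m)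
  have rGA : ∀ x, Reg P (fun S => (G x S - A) ^ 2) := fun x => by
    have := ((rG x).sub (Reg.const P A)).mul ((rG x).sub (Reg.const P A))
    simpa only [pow_two] using this
  have rL : ∀ x, Reg P (fun S => 2 * A * G x S) := fun x => (rG x).const_mul _
  have h1 : ∀ a, opX P a (fun x S => G x S ^ 2) x S =
      opX P a (fun x S => (G x S - A) ^ 2) x S + (2 * A * opX P a G x S - A ^ 2) := by
    intro a
    have e : (fun x S => G x S ^ 2) = fun x S => (G x S - A) ^ 2 + (2 * A * G x S - A ^ 2) := by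
      funext x S; ring
    rw [e, opX_add rGA (fun x => (rL x).sub (Reg.const P _)) hS,
      opX_sub rL (fun x => Reg.const P _) hS, opX_const_mul, opX_const]
  have hstep : ∀ a : Dir d, |(stepVec a i : ℝ)| ≤ 1 := by
    intro a
    unfold stepVec
    split_ifs
    · by_cases h : i = a.1
      · subst h; simp
      · simp [h]
    · by_cases h : i = a.1
      · subst h; simp
      · simp [h]
  have h2 : ∀ a, opX P a (fun x S => (G x S - A) ^ 2) x S ≤ D ^ 2 := by
    intro a
    refine (le_abs_self _).trans (opX_bound (C := D ^ 2) ?_ ?_ hS)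
    · intro S' hS'
      rw [abs_of_nonneg (sq_nonneg _)]
      refine sq_le_sq' ?_ ?_
      · have k1 := hD S S' hS hS'
        have k2 := abs_le.1 (hstep a)
        have k3 := neg_abs_le (varChi P ν.1 i m S' - varChi P ν.1 i (m + 1) S)
        simp only [hG, hA, Pi.add_apply]
        push_cast
        linarith [k2.1]
      · have k1 := hD S S' hS hS'
        have k2 := abs_le.1 (hstep a)
        have k3 := le_abs_self (varChi P ν.1 i m S' - varChi P ν.1 i (m + 1) S)
        simp only [hG, hA, Pi.add_apply]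
        push_cast
        linarith [k2.2]
    · intro S' hS'
      rw [abs_of_nonneg (sq_nonneg _)]
      refine sq_le_sq' ?_ ?_
      · have k1 := hD S S' hS hS'
        have k3 := neg_abs_le (varChi P ν.1 i m S' - varChi P ν.1 i (m + 1) S)
        simp only [hG, hA]
        linarith
      · have k1 := hD S S' hS hS'
        have k3 := le_abs_self (varChi P ν.1 i m S' - varChi P ν.1 i (m + 1) S)
        simp only [hG, hA]
        linarith
  have h3 : ∑ a, ν.1 a * opX P a G x S = A := varOpXN_lin ν i c m hS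
  show ∑ a, ν.1 a * opX P a (fun x S => G x S ^ 2) x S ≤ A ^ 2 + D ^ 2
  simp only [h1]
  calc ∑ a, ν.1 a * (opX P a (fun x S => (G x S - A) ^ 2) x S +
        (2 * A * opX P a G x S - A ^ 2))
      ≤ ∑ a, ν.1 a * (D ^ 2 + (2 * A * opX P a G x S - A ^ 2)) :=
        Finset.sum_le_sum fun a _ => mul_le_mul_of_nonneg_left (by linarith [h2 a]) (ν.2.1 a)
    _ = (D ^ 2 - A ^ 2) * (∑ a, ν.1 a) + 2 * A * ∑ a, ν.1 a * opX P a G x S := by
        rw [Finset.mul_sum, Finset.mul_sum, ← Finset.sum_add_distrib]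
        exact Finset.sum_congr rfl fun a _ => by ring
    _ = A ^ 2 + D ^ 2 := by rw [h3, ν.2.2]; ring

lemma var_memory_valid {P : Par} {η : Edge d → ℕ → ℝ × Bool} {w : ℕ → ℝ × Dir d}
    (hw : ∀ k, 0 ≤ (w k).1) (k : ℕ) : Valid P (memory P η w k) := by
  induction k with
  | zero => exact valid_zero P
  | succ k ih => exact next_valid ih _ (hw k) _

lemma var_ae_valid (P : Par) (ν : stdSimplex ℝ (Dir d)) :
    ∀ᵐ ω ∂(law P ν), ∀ k, Valid P (memory P ω.1 ω.2 k) := by
  have h1 : ∀ k : ℕ, ∀ᵐ w ∂(walkLaw ν), 0 < (w k).1 := by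
    intro k
    have m1 : MeasurePreserving (fun w : ℕ → ℝ × Dir d => w k) (walkLaw ν)
        (clockLaw.prod (dirLaw ν)) := measurePreserving_eval_infinitePi _ k
    have m2 : MeasurePreserving (Prod.fst : ℝ × Dir d → ℝ) (clockLaw.prod (dirLaw ν)) clockLaw :=
      measurePreserving_fst
    exact (m2.comp m1).quasiMeasurePreserving.ae clock_ae_pos
  have h2 : ∀ᵐ w ∂(walkLaw ν), ∀ k : ℕ, 0 < (w k).1 := ae_all_iff.2 h1
  have m3 : MeasurePreserving (Prod.snd : _ × (ℕ → ℝ × Dir d) → _) (law P ν) (walkLaw ν) :=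
    measurePreserving_snd
  filter_upwards [m3.quasiMeasurePreserving.ae h2] with ω hω
  exact fun k => var_memory_valid (fun k => (hω k).le) k

lemma reg_sq {P : Par} (i : Fin (d + 1)) (c : ℝ) {f : St d → ℝ} (hf : Reg P f) (x : Site d) :
    Reg P (fun S => (((x i : ℝ) - c) + f S) ^ 2) := by
  have h := (Reg.const P ((x i : ℝ) - c)).add hf
  have := h.mul h
  simpa only [pow_two] using this

lemma opXN_reg {P : Par} (ν : Dir d → ℝ) {F : Site d → St d → ℝ} (hF : ∀ x, Reg P (F x))
    (x : Site d) : Reg P (opXN P ν F x) :=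
  Reg.sum _ fun _ _ => (opX_reg hF x).const_mul _

theorem claimVar (h1 : ClaimRates) (h2 : ClaimStep) : ClaimVar := by
  intro P d ν i
  obtain ⟨V, C0, ρ, hC0, hρ0, hρ1, hr⟩ := h1 P d ν i
  set B : ℝ := 2 * C0 / (1 - ρ) with hB
  have h1ρ : 0 < 1 - ρ := by linarith
  have hB0 : 0 ≤ B := by positivity
  have geo : ∀ m : ℕ, ∑ k ∈ Finset.range m, C0 * ρ ^ k ≤ C0 / (1 - ρ) := by
    intro m
    have e : (ρ ^ m - 1) / (ρ - 1) = (1 - ρ ^ m) * (1 - ρ)⁻¹ := by
      rw [← neg_sub 1 (ρ ^ m), ← neg_sub 1 ρ, neg_div_neg_eq, div_eq_mul_inv]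
    rw [← Finset.mul_sum, geom_sum_eq hρ1.ne, e, div_eq_mul_inv]
    refine mul_le_mul_of_nonneg_left ?_ hC0
    have : 0 ≤ ρ ^ m := pow_nonneg hρ0 m
    exact mul_le_of_le_one_left (by positivity) (by linarith)
  have chiV : ∀ (m : ℕ) (S : St d), Valid P S → |varChi P ν.1 i m S - m * V| ≤ C0 / (1 - ρ) := by
    intro m S hS
    have e : varChi P ν.1 i m S - m * V =
        ∑ k ∈ Finset.range m, (((opN P ν.1)^[k] (hN P ν.1 i)) S - V) := by
      rw [Finset.sum_sub_distrib]
      simp [varChi]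
    rw [e]
    exact (Finset.abs_sum_le_sum_abs _ _).trans
      ((Finset.sum_le_sum fun k _ => hr k S hS).trans (geo m))
  have chiD : ∀ (m : ℕ) (S S' : St d), Valid P S → Valid P S' →
      1 + |varChi P ν.1 i m S' - varChi P ν.1 i (m + 1) S| ≤ 1 + (B + |V|) := by
    intro m S S' hS hS'
    have a1 := chiV m S' hS'
    have a2 := chiV (m + 1) S hS
    have e : varChi P ν.1 i m S' - varChi P ν.1 i (m + 1) S =
        (varChi P ν.1 i m S' - m * V) - (varChi P ν.1 i (m + 1) S - ((m + 1 : ℕ) : ℝ) * V) - V := by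
      push_cast; ring
    rw [e]
    have := abs_sub ((varChi P ν.1 i m S' - m * V) -
      (varChi P ν.1 i (m + 1) S - ((m + 1 : ℕ) : ℝ) * V)) V
    have h3 := abs_sub (varChi P ν.1 i m S' - m * V)
      (varChi P ν.1 i (m + 1) S - ((m + 1 : ℕ) : ℝ) * V)
    have hBe : B = C0 / (1 - ρ) + C0 / (1 - ρ) := by rw [hB]; ring
    linarith
  set D : ℝ := 1 + (B + |V|) with hD
  refine ⟨V, 2 * D ^ 2 + 2 * B ^ 2, ?_, ?_⟩
  · rw [tendsto_iff_norm_sub_tendsto_zero]
    have h3 : Tendsto (fun k : ℕ => C0 * ρ ^ k) atTop (𝓝 0) := by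
      have := (tendsto_pow_atTop_nhds_zero_of_lt_one hρ0 hρ1).const_mul C0
      rwa [mul_zero] at this
    exact squeeze_zero (fun _ => norm_nonneg _) (fun k => hr k 0 (valid_zero P)) h3
  · intro N
    set c : ℝ := varChi P ν.1 i N 0 with hc
    let F : ℕ → Site d → St d → ℝ := fun j x S => (((x i : ℝ) - c) + varChi P ν.1 i (N - j) S) ^ 2
    have rF : ∀ j x, Reg P (F j x) := fun j x => reg_sq i c (varChi_reg P ν.1 i _) x
    let e : ℕ → ℝ := fun j => ∫ ω, F j (pos ω.1 ω.2 j) (memory P ω.1 ω.2 j) ∂(law P ν)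
    have e0 : e 0 = 0 := by
      have : ∀ ω : (Edge d → ℕ → ℝ × Bool) × (ℕ → ℝ × Dir d),
          F 0 (pos ω.1 ω.2 0) (memory P ω.1 ω.2 0) = 0 := by
        intro ω
        show ((((0 : Site d) i : ℤ) : ℝ) - c + varChi P ν.1 i (N - 0) (0 : St d)) ^ 2 = 0
        simp [hc]
      simp only [e, this, integral_zero]
    have es : ∀ j, j < N → e (j + 1) ≤ e j + D ^ 2 := by
      intro j hj
      have k1 := (h2 P d ν (F (j + 1)) (rF (j + 1)) j).2
      have k2 := (h2 P d ν (opXN P ν.1 (F (j + 1))) (opXN_reg ν.1 (rF (j + 1))) j).1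
      have k3 := (h2 P d ν (F j) (rF j) j).1
      show ∫ ω, F (j + 1) (pos ω.1 ω.2 (j + 1)) (memory P ω.1 ω.2 (j + 1)) ∂(law P ν) ≤
        ∫ ω, F j (pos ω.1 ω.2 j) (memory P ω.1 ω.2 j) ∂(law P ν) + D ^ 2
      rw [k1]
      have k4 : ∫ ω, (F j (pos ω.1 ω.2 j) (memory P ω.1 ω.2 j) + D ^ 2) ∂(law P ν) =
          ∫ ω, F j (pos ω.1 ω.2 j) (memory P ω.1 ω.2 j) ∂(law P ν) + D ^ 2 := by
        rw [integral_add k3 (integrable_const _)]
        simp
      rw [← k4]
      refine integral_mono_ae k2 (k3.add (integrable_const _)) ?_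
      filter_upwards [var_ae_valid P ν] with ω hω
      obtain ⟨m, hm⟩ := Nat.exists_eq_add_of_lt hj
      have m1 : N - (j + 1) = m := by omega
      have m2 : N - j = m + 1 := by omega
      have := varStep ν i c D m (chiD m) (pos ω.1 ω.2 j) (hω j)
      simp only [F, m1, m2]
      exact this
    have eN : ∀ j, j ≤ N → e j ≤ D ^ 2 * j := by
      intro j
      induction j with
      | zero => intro _; rw [e0]; simp
      | succ j ih =>
        intro hj
        have := es j (by omega)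
        have := ih (by omega)
        push_cast
        linarith
    have e3 := eN N le_rfl
    have e4 : e N = ∫ ω, ((pos ω.1 ω.2 N i : ℝ) - c) ^ 2 ∂(law P ν) := by
      simp only [e, F, Nat.sub_self]
      refine integral_congr_ae (Eventually.of_forall fun ω => ?_)
      simp [varChi]
    have i1 := (h2 P d ν (fun x _ => ((x i : ℝ) - N * V) ^ 2) (fun x => Reg.const P _) N).1
    have i2 := (h2 P d ν (fun x _ => ((x i : ℝ) - c) ^ 2) (fun x => Reg.const P _) N).1
    have cV : |c - N * V| ≤ B := by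
      have := chiV N 0 (valid_zero P)
      have h5 : C0 / (1 - ρ) ≤ B := by
        rw [hB]; rw [div_le_div_iff_of_pos_right h1ρ]; linarith
      exact this.trans h5
    calc ∫ ω, ((pos ω.1 ω.2 N i : ℝ) - N * V) ^ 2 ∂(law P ν)
        ≤ ∫ ω, (2 * ((pos ω.1 ω.2 N i : ℝ) - c) ^ 2 + 2 * B ^ 2) ∂(law P ν) := by
          refine integral_mono i1 ((i2.const_mul 2).add (integrable_const _)) fun ω => ?_
          have h6 : (c - N * V) ^ 2 ≤ B ^ 2 := sq_le_sq' (abs_le.1 cV).1 (abs_le.1 cV).2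
          simp only
          nlinarith [sq_nonneg (((pos ω.1 ω.2 N i : ℝ) - c) - (c - N * V))]
      _ = 2 * e N + 2 * B ^ 2 := by
          rw [integral_add (i2.const_mul 2) (integrable_const _), integral_const_mul, e4]
          simp
      _ ≤ (2 * D ^ 2 + 2 * B ^ 2) * (N + 1) := by
          have : (0 : ℝ) ≤ N := Nat.cast_nonneg N
          nlinarith [sq_nonneg D, sq_nonneg B, mul_nonneg (sq_nonneg B) this]

end DynPerc
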