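import Pool.Agent.Work.MP_f058f1_pr.Defs

/-!
# The Markov chain environment seen from the walker

`S e` is the decayed information on the edge `e` (coordinates relative to the walker): if the edge
was examined `t` time units ago (last time) and found open, then `S e = (1-p) exp(-μ t)`, if it was
found closed `S e = -p exp(-μ t)`, and `S e = 0` if it was never examined.  If the next ring comes
after a gap `g` and the direction `a` is proposed, then the edge is open with probability
`p + exp(-μ g) * S (edgeOf 0 a)`.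
-/

open MeasureTheory ProbabilityTheory Filter Topology

noncomputable section

namespace DynPerc

variable {d : ℕ}

/-- States of the memory, in coordinates relative to the walker. -/
abbrev St (d : ℕ) := Edge d → ℝ

/-- `E exp(-μ g)`, `g ~ Exp(1)`. -/
def ca (P : Par) : ℝ := 1 / (1 + P.mu)

/-- `E exp(-2 μ g)`, `g ~ Exp(1)`. -/
def ca2 (P : Par) : ℝ := 1 / (1 + 2 * P.mu)

/-- Probability that the edge in direction `a` is open at the next ring, if the gap is `g`. -/
def pOpen (P : Par) (S : St d) (a : Dir d) (g : ℝ) : ℝ :=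
  P.p + Real.exp (-(P.mu * g)) * S (edgeOf 0 a)

/-- New memory after a ring with gap `g`, proposed direction `a` and outcome `o` (open or not). -/
def next (P : Par) (S : St d) (a : Dir d) (g : ℝ) (o : Bool) : St d := fun e =>
  if ((e.1 + if o then stepVec a else 0, e.2) : Edge d) = edgeOf 0 a then
    (if o then 1 - P.p else -P.p)
  else Real.exp (-(P.mu * g)) * S (e.1 + if o then stepVec a else 0, e.2)

/-- Transition operator of (position, memory) for the proposed direction `a`. -/
def opX (P : Par) (a : Dir d) (F : Site d → St d → ℝ) (x : Site d) (S : St d) : ℝ :=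
  ∫ g, (pOpen P S a g * F (x + stepVec a) (next P S a g true) +
    (1 - pOpen P S a g) * F x (next P S a g false)) ∂clockLaw

/-- Transition operator of (position, memory) for direction weights `ν`. -/
def opXN (P : Par) (ν : Dir d → ℝ) (F : Site d → St d → ℝ) : Site d → St d → ℝ :=
  fun x S => ∑ a, ν a * opX P a F x S

/-- Transition operator of the memory for the proposed direction `a`. -/
def opT (P : Par) (a : Dir d) (f : St d → ℝ) (S : St d) : ℝ :=
  ∫ g, (pOpen P S a g * f (next P S a g true) +
    (1 - pOpen P S a g) * f (next P S a g false)) ∂clockLaw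

/-- Transition operator of the memory for direction weights `ν`. -/
def opN (P : Par) (ν : Dir d → ℝ) (f : St d → ℝ) : St d → ℝ :=
  fun S => ∑ a, ν a * opT P a f S

/-- Valid memories. -/
def Valid (P : Par) (S : St d) : Prop := ∀ e, -P.p ≤ S e ∧ S e ≤ 1 - P.p

/-- Measurable functions which are bounded on valid memories. -/
def Reg (P : Par) (f : St d → ℝ) : Prop := Measurable f ∧ ∃ C, ∀ S, Valid P S → |f S| ≤ C

/-- Expected increment of the coordinate `i` at the next ring, for the proposed direction `b`. -/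
def hh (P : Par) (i : Fin (d + 1)) (b : Dir d) (S : St d) : ℝ :=
  (stepVec b i : ℝ) * (P.p + ca P * S (edgeOf 0 b))

/-- Expected increment of the coordinate `i` at the next ring, for direction weights `ν`. -/
def hN (P : Par) (ν : Dir d → ℝ) (i : Fin (d + 1)) (S : St d) : ℝ := ∑ b, ν b * hh P i b S

/-! ### Basic facts -/

lemma clock_integral_exp {c : ℝ} (hc : 0 ≤ c) :
    ∫ g, Real.exp (-(c * g)) ∂clockLaw = 1 / (1 + c) := by
  have h1 : (0 : ℝ) < 1 + c := by linarith
  have hpdf : clockLaw = volume.withDensity (exponentialPDF 1) := by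
    rfl
  rw [hpdf, integral_withDensity_eq_integral_toReal_smul]
  · have e : ∀ g : ℝ, (exponentialPDF 1 g).toReal • Real.exp (-(c * g)) =
        Set.indicator (Set.Ici (0:ℝ)) (fun g => Real.exp (-(1 + c) * g)) g := by
      intro g
      by_cases hg : 0 ≤ g
      · rw [exponentialPDF_of_nonneg hg, Set.indicator_of_mem (by exact hg : g ∈ Set.Ici (0:ℝ)),
          ENNReal.toReal_ofReal (by positivity), smul_eq_mul, one_mul, ← Real.exp_add]
        congr 1
        ring
      · rw [exponentialPDF_of_neg (not_le.mp hg),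
          Set.indicator_of_notMem (by simpa using hg)]
        simp
    simp_rw [e]
    rw [integral_indicator measurableSet_Ici, integral_Ici_eq_integral_Ioi]
    have := integral_exp_mul_Ioi (a := -(1 + c)) (by linarith) 0
    rw [this]
    simp only [mul_zero, Real.exp_zero]
    rw [neg_div_neg_eq]
  · unfold exponentialPDF
    exact (measurable_exponentialPDFReal 1).ennreal_ofReal
  · exact Eventually.of_forall fun x => by
      unfold exponentialPDF
      exact ENNReal.ofReal_lt_top

lemma clock_ae_pos : ∀ᵐ g ∂clockLaw, 0 < g := by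
  have hpdf : clockLaw = volume.withDensity (exponentialPDF 1) := rfl
  have hm : MeasurableSet {g : ℝ | ¬ 0 < g} := by
    simpa [Set.Iic, not_lt] using (measurableSet_Iic : MeasurableSet (Set.Iic (0:ℝ)))
  rw [ae_iff, hpdf, withDensity_apply _ hm]
  have h : {g : ℝ | ¬ 0 < g} = Set.Iic 0 := by ext; simp
  rw [h, ← Measure.restrict_congr_set Iio_ae_eq_Iic]
  exact lintegral_exponentialPDF_of_nonpos le_rfl

lemma integrable_clock_of_bound {f : ℝ → ℝ} (hm : Measurable f) {C : ℝ}
    (hb : ∀ g, 0 < g → |f g| ≤ C) : Integrable f clockLaw := by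
  refine Integrable.of_bound hm.aestronglyMeasurable C ?_
  filter_upwards [clock_ae_pos] with g hg
  exact hb g hg

lemma measurable_pOpen (P : Par) (a : Dir d) :
    Measurable fun q : St d × ℝ => pOpen P q.1 a q.2 := by
  unfold pOpen
  exact measurable_const.add ((by fun_prop : Measurable fun q : St d × ℝ =>
    Real.exp (-(P.mu * q.2))).mul ((measurable_pi_apply (edgeOf 0 a)).comp measurable_fst))

lemma measurable_next (P : Par) (a : Dir d) (o : Bool) :
    Measurable fun q : St d × ℝ => next P q.1 a q.2 o := by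
  refine measurable_pi_lambda _ fun e => ?_
  unfold next
  split_ifs
  all_goals first
    | exact measurable_const
    | exact (by fun_prop : Measurable fun q : St d × ℝ =>
        Real.exp (-(P.mu * q.2))).mul ((measurable_pi_apply _).comp measurable_fst)

lemma exp_mem {P : Par} {g : ℝ} (hg : 0 ≤ g) :
    0 < Real.exp (-(P.mu * g)) ∧ Real.exp (-(P.mu * g)) ≤ 1 :=
  ⟨Real.exp_pos _, Real.exp_le_one_iff.2 (by have := mul_nonneg P.mu_pos.le hg; linarith)⟩

lemma pOpen_mem {P : Par} {S : St d} (hS : Valid P S) (a : Dir d) {g : ℝ} (hg : 0 ≤ g) :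
    0 ≤ pOpen P S a g ∧ pOpen P S a g ≤ 1 := by
  have h1 := P.p_pos
  have h2 := P.p_lt
  obtain ⟨h3, h4⟩ := exp_mem (P := P) hg
  obtain ⟨h5, h6⟩ := hS (edgeOf 0 a)
  unfold pOpen
  constructor <;> nlinarith

lemma scale_mem {P : Par} {x E : ℝ} (hx : -P.p ≤ x ∧ x ≤ 1 - P.p) (hE : 0 < E ∧ E ≤ 1) :
    -P.p ≤ E * x ∧ E * x ≤ 1 - P.p := by
  have h1 := P.p_pos
  have h2 := P.p_lt
  obtain ⟨h5, h6⟩ := hx
  obtain ⟨h3, h4⟩ := hE
  constructor <;> nlinarith

lemma next_valid {P : Par} {S : St d} (hS : Valid P S) (a : Dir d) {g : ℝ} (hg : 0 ≤ g)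
    (o : Bool) : Valid P (next P S a g o) := by
  have h1 := P.p_pos
  have h2 := P.p_lt
  intro e
  unfold next
  by_cases h : ((e.1 + if o then stepVec a else 0, e.2) : Edge d) = edgeOf 0 a
  · rw [if_pos h]
    cases o <;> constructor <;> simp <;> linarith
  · rw [if_neg h]
    exact scale_mem (hS _) (exp_mem hg)

lemma valid_zero (P : Par) : Valid P (0 : St d) := fun e =>
  ⟨by have := P.p_pos; simp; linarith, by have := P.p_lt; simp; linarith⟩

/-- The integrand of `opX`. -/
def integrand (P : Par) (a : Dir d) (F : Site d → St d → ℝ) (x : Site d) (S : St d) (g : ℝ) : ℝ :=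
  pOpen P S a g * F (x + stepVec a) (next P S a g true) +
    (1 - pOpen P S a g) * F x (next P S a g false)

lemma opX_eq (P : Par) (a : Dir d) (F : Site d → St d → ℝ) (x : Site d) (S : St d) :
    opX P a F x S = ∫ g, integrand P a F x S g ∂clockLaw := rfl

lemma opT_eq_opX (P : Par) (a : Dir d) (f : St d → ℝ) (x : Site d) (S : St d) :
    opT P a f S = opX P a (fun _ => f) x S := rfl

lemma measurable_integrand {P : Par} {a : Dir d} {F : Site d → St d → ℝ}
    (hF : ∀ x, Measurable (F x)) (x : Site d) :
    Measurable fun q : St d × ℝ => integrand P a F x q.1 q.2 := by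
  unfold integrand
  exact ((measurable_pOpen P a).mul ((hF _).comp (measurable_next P a true))).add
    ((measurable_const.sub (measurable_pOpen P a)).mul ((hF _).comp (measurable_next P a false)))

lemma integrand_bound {P : Par} {a : Dir d} {F : Site d → St d → ℝ} {x : Site d} {C : ℝ}
    (hC1 : ∀ S, Valid P S → |F (x + stepVec a) S| ≤ C) (hC2 : ∀ S, Valid P S → |F x S| ≤ C)
    {S : St d} (hS : Valid P S) {g : ℝ} (hg : 0 ≤ g) : |integrand P a F x S g| ≤ C := by
  obtain ⟨h1, h2⟩ := pOpen_mem hS a hg
  have h3 := hC1 _ (next_valid hS a hg true)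
  have h4 := hC2 _ (next_valid hS a hg false)
  rw [abs_le] at h3 h4 ⊢
  unfold integrand
  constructor <;> nlinarith [h3.1, h3.2, h4.1, h4.2]

lemma integrable_integrand {P : Par} {a : Dir d} {F : Site d → St d → ℝ} (x : Site d)
    (h1 : Reg P (F (x + stepVec a))) (h2 : Reg P (F x)) {S : St d} (hS : Valid P S) :
    Integrable (integrand P a F x S) clockLaw := by
  obtain ⟨m1, C1, hC1⟩ := h1
  obtain ⟨m2, C2, hC2⟩ := h2
  have hm : Measurable (integrand P a F x S) := by
    unfold integrand
    have e1 : Measurable fun g : ℝ => (S, g) := measurable_const.prodMk measurable_id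
    exact (((measurable_pOpen P a).comp e1).mul (m1.comp ((measurable_next P a true).comp e1))).add
      ((measurable_const.sub ((measurable_pOpen P a).comp e1)).mul
        (m2.comp ((measurable_next P a false).comp e1)))
  refine integrable_clock_of_bound hm (C := max C1 C2) fun g hg => ?_
  exact integrand_bound (fun S hS => (hC1 S hS).trans (le_max_left _ _))
    (fun S hS => (hC2 S hS).trans (le_max_right _ _)) hS hg.le

lemma opX_bound {P : Par} {a : Dir d} {F : Site d → St d → ℝ} {x : Site d} {C : ℝ}
    (hC1 : ∀ S, Valid P S → |F (x + stepVec a) S| ≤ C) (hC2 : ∀ S, Valid P S → |F x S| ≤ C)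
    {S : St d} (hS : Valid P S) : |opX P a F x S| ≤ C := by
  rw [opX_eq, ← Real.norm_eq_abs]
  have := norm_integral_le_of_norm_le_const (μ := clockLaw) (f := integrand P a F x S) (C := C)
    (by filter_upwards [clock_ae_pos] with g hg; exact integrand_bound hC1 hC2 hS hg.le)
  simpa using this

lemma opT_bound {P : Par} {a : Dir d} {f : St d → ℝ} {C : ℝ}
    (hC : ∀ S, Valid P S → |f S| ≤ C) {S : St d} (hS : Valid P S) : |opT P a f S| ≤ C :=
  opX_bound (F := fun _ => f) (x := 0) hC hC hS

lemma opX_reg {P : Par} {a : Dir d} {F : Site d → St d → ℝ} (hF : ∀ x, Reg P (F x))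
    (x : Site d) : Reg P (opX P a F x) := by
  refine ⟨?_, ?_⟩
  · have h := (measurable_integrand (P := P) (a := a) (fun x => (hF x).1) x).stronglyMeasurable
    exact (h.integral_prod_right' (ν := clockLaw)).measurable
  · obtain ⟨m1, C1, hC1⟩ := hF (x + stepVec a)
    obtain ⟨m2, C2, hC2⟩ := hF x
    exact ⟨max C1 C2, fun S hS => opX_bound (fun S hS => (hC1 S hS).trans (le_max_left _ _))
      (fun S hS => (hC2 S hS).trans (le_max_right _ _)) hS⟩

lemma opT_reg {P : Par} {a : Dir d} {f : St d → ℝ} (hf : Reg P f) : Reg P (opT P a f) :=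
  opX_reg (F := fun _ => f) (fun _ => hf) 0

lemma Reg.const (P : Par) (c : ℝ) : Reg P (fun _ : St d => c) :=
  ⟨measurable_const, |c|, fun _ _ => le_rfl⟩

lemma Reg.add {P : Par} {f g : St d → ℝ} (hf : Reg P f) (hg : Reg P g) :
    Reg P (fun S => f S + g S) := by
  obtain ⟨m1, C1, h1⟩ := hf
  obtain ⟨m2, C2, h2⟩ := hg
  exact ⟨m1.add m2, C1 + C2, fun S hS => (abs_add_le _ _).trans (add_le_add (h1 S hS) (h2 S hS))⟩

lemma Reg.const_mul {P : Par} {f : St d → ℝ} (hf : Reg P f) (c : ℝ) :
    Reg P (fun S => c * f S) := by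
  obtain ⟨m1, C1, h1⟩ := hf
  refine ⟨m1.const_mul c, |c| * C1, fun S hS => ?_⟩
  rw [abs_mul]
  exact mul_le_mul_of_nonneg_left (h1 S hS) (abs_nonneg _)

lemma Reg.neg {P : Par} {f : St d → ℝ} (hf : Reg P f) : Reg P (fun S => -f S) := by
  simpa using hf.const_mul (-1)

lemma Reg.sub {P : Par} {f g : St d → ℝ} (hf : Reg P f) (hg : Reg P g) :
    Reg P (fun S => f S - g S) := by
  simpa [sub_eq_add_neg] using hf.add hg.neg

lemma Reg.mul {P : Par} {f g : St d → ℝ} (hf : Reg P f) (hg : Reg P g) :
    Reg P (fun S => f S * g S) := by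
  obtain ⟨m1, C1, h1⟩ := hf
  obtain ⟨m2, C2, h2⟩ := hg
  refine ⟨m1.mul m2, C1 * C2, fun S hS => ?_⟩
  rw [abs_mul]
  exact mul_le_mul (h1 S hS) (h2 S hS) (abs_nonneg _) ((abs_nonneg _).trans (h1 S hS))

lemma Reg.sum {P : Par} {ι : Type*} (s : Finset ι) {f : ι → St d → ℝ}
    (hf : ∀ i ∈ s, Reg P (f i)) : Reg P (fun S => ∑ i ∈ s, f i S) := by
  classical
  induction s using Finset.induction_on with
  | empty => simpa using Reg.const P 0
  | insert i s hi ih =>
    simp_rw [Finset.sum_insert hi]
    exact (hf i (Finset.mem_insert_self _ _)).add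
      (ih fun j hj => hf j (Finset.mem_insert_of_mem hj))

lemma Reg.apply (P : Par) (e : Edge d) : Reg P (fun S : St d => S e) := by
  refine ⟨measurable_pi_apply e, 1, fun S hS => ?_⟩
  have h1 := P.p_pos
  have h2 := P.p_lt
  have := hS e
  rw [abs_le]
  constructor <;> linarith

lemma Reg.hh (P : Par) (i : Fin (d + 1)) (b : Dir d) : Reg P (hh P i b) := by
  unfold DynPerc.hh
  exact ((Reg.const P P.p).add ((Reg.apply P _).const_mul (ca P))).const_mul _

lemma Reg.hN (P : Par) (ν : Dir d → ℝ) (i : Fin (d + 1)) : Reg P (hN P ν i) :=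
  Reg.sum _ fun b _ => (Reg.hh P i b).const_mul _

lemma Reg.opN {P : Par} {f : St d → ℝ} (hf : Reg P f) (ν : Dir d → ℝ) : Reg P (opN P ν f) :=
  Reg.sum _ fun a _ => (opT_reg hf).const_mul _

lemma Reg.iterate {P : Par} {f : St d → ℝ} (hf : Reg P f) (ν : Dir d → ℝ) (n : ℕ) :
    Reg P ((DynPerc.opN P ν)^[n] f) := by
  induction n with
  | zero => exact hf
  | succ n ih => rw [Function.iterate_succ_apply']; exact ih.opN ν

lemma opX_add {P : Par} {a : Dir d} {F G : Site d → St d → ℝ} (hF : ∀ x, Reg P (F x))
    (hG : ∀ x, Reg P (G x)) {x : Site d} {S : St d} (hS : Valid P S) :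
    opX P a (fun x S => F x S + G x S) x S = opX P a F x S + opX P a G x S := by
  simp only [opX_eq]
  rw [← integral_add (integrable_integrand x (hF _) (hF _) hS)
    (integrable_integrand x (hG _) (hG _) hS)]
  refine integral_congr_ae (Eventually.of_forall fun g => ?_)
  simp only [integrand]
  ring

lemma opX_const_mul (P : Par) (a : Dir d) (c : ℝ) (F : Site d → St d → ℝ) (x : Site d)
    (S : St d) : opX P a (fun x S => c * F x S) x S = c * opX P a F x S := by
  simp only [opX_eq]
  rw [← integral_const_mul]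
  refine integral_congr_ae (Eventually.of_forall fun g => ?_)
  simp only [integrand]
  ring

lemma opX_sub {P : Par} {a : Dir d} {F G : Site d → St d → ℝ} (hF : ∀ x, Reg P (F x))
    (hG : ∀ x, Reg P (G x)) {x : Site d} {S : St d} (hS : Valid P S) :
    opX P a (fun x S => F x S - G x S) x S = opX P a F x S - opX P a G x S := by
  simp only [opX_eq]
  rw [← integral_sub (integrable_integrand x (hF _) (hF _) hS)
    (integrable_integrand x (hG _) (hG _) hS)]
  refine integral_congr_ae (Eventually.of_forall fun g => ?_)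
  simp only [integrand]
  ring

lemma opX_const {P : Par} {a : Dir d} {c : ℝ} {x : Site d} {S : St d} :
    opX P a (fun _ _ => c) x S = c := by
  simp only [opX_eq, integrand]
  have : ∀ g : ℝ, pOpen P S a g * c + (1 - pOpen P S a g) * c = c := fun g => by ring
  simp [this]

lemma opX_sum {P : Par} {a : Dir d} {ι : Type*} (s : Finset ι) {F : ι → Site d → St d → ℝ}
    (hF : ∀ i ∈ s, ∀ x, Reg P (F i x)) {x : Site d} {S : St d} (hS : Valid P S) :
    opX P a (fun x S => ∑ i ∈ s, F i x S) x S = ∑ i ∈ s, opX P a (F i) x S := by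
  classical
  induction s using Finset.induction_on with
  | empty => simpa using opX_const (P := P) (a := a) (c := 0) (x := x) (S := S)
  | insert i s hi ih =>
    simp_rw [Finset.sum_insert hi]
    rw [opX_add (hF i (Finset.mem_insert_self _ _))
      (fun x => Reg.sum s fun j hj => hF j (Finset.mem_insert_of_mem hj) x) hS,
      ih fun j hj => hF j (Finset.mem_insert_of_mem hj)]

/-- Monotonicity: it is enough to compare the functions at the states which can occur. -/
lemma opX_mono {P : Par} {a : Dir d} {F G : Site d → St d → ℝ} (hF : ∀ x, Reg P (F x))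
    (hG : ∀ x, Reg P (G x)) {x : Site d} {S : St d} (hS : Valid P S)
    (h1 : ∀ g, 0 < g → F (x + stepVec a) (next P S a g true) ≤
      G (x + stepVec a) (next P S a g true))
    (h2 : ∀ g, 0 < g → F x (next P S a g false) ≤ G x (next P S a g false)) :
    opX P a F x S ≤ opX P a G x S := by
  rw [opX_eq, opX_eq]
  refine integral_mono_ae (integrable_integrand x (hF _) (hF _) hS)
    (integrable_integrand x (hG _) (hG _) hS) ?_
  filter_upwards [clock_ae_pos] with g hg
  obtain ⟨h3, h4⟩ := pOpen_mem hS a hg.le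
  unfold integrand
  exact add_le_add (mul_le_mul_of_nonneg_left (h1 g hg) h3)
    (mul_le_mul_of_nonneg_left (h2 g hg) (by linarith))

lemma opT_add {P : Par} {a : Dir d} {f g : St d → ℝ} (hf : Reg P f) (hg : Reg P g) {S : St d}
    (hS : Valid P S) : opT P a (fun S => f S + g S) S = opT P a f S + opT P a g S :=
  opX_add (F := fun _ => f) (G := fun _ => g) (x := 0) (fun _ => hf) (fun _ => hg) hS

lemma opT_sub {P : Par} {a : Dir d} {f g : St d → ℝ} (hf : Reg P f) (hg : Reg P g) {S : St d}
    (hS : Valid P S) : opT P a (fun S => f S - g S) S = opT P a f S - opT P a g S :=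
  opX_sub (F := fun _ => f) (G := fun _ => g) (x := 0) (fun _ => hf) (fun _ => hg) hS

lemma opT_const_mul (P : Par) (a : Dir d) (c : ℝ) (f : St d → ℝ) (S : St d) :
    opT P a (fun S => c * f S) S = c * opT P a f S :=
  opX_const_mul P a c (fun _ => f) 0 S

lemma opT_const {P : Par} {a : Dir d} {c : ℝ} {S : St d} : opT P a (fun _ => c) S = c :=
  opX_const (x := 0)

lemma opT_sum {P : Par} {a : Dir d} {ι : Type*} (s : Finset ι) {f : ι → St d → ℝ}
    (hf : ∀ i ∈ s, Reg P (f i)) {S : St d} (hS : Valid P S) :
    opT P a (fun S => ∑ i ∈ s, f i S) S = ∑ i ∈ s, opT P a (f i) S :=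
  opX_sum (F := fun i _ => f i) (x := 0) s (fun i hi _ => hf i hi) hS

lemma opT_mono {P : Par} {a : Dir d} {f g : St d → ℝ} (hf : Reg P f) (hg : Reg P g) {S : St d}
    (hS : Valid P S) (h1 : ∀ t, 0 < t → f (next P S a t true) ≤ g (next P S a t true))
    (h2 : ∀ t, 0 < t → f (next P S a t false) ≤ g (next P S a t false)) :
    opT P a f S ≤ opT P a g S :=
  opX_mono (F := fun _ => f) (G := fun _ => g) (x := 0) (fun _ => hf) (fun _ => hg) hS h1 h2

lemma clock_integral_quad (P : Par) (c0 c1 c2 : ℝ) :
    ∫ g, (c0 + c1 * Real.exp (-(P.mu * g)) + c2 * Real.exp (-((2 * P.mu) * g))) ∂clockLaw =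
      c0 + c1 * ca P + c2 * ca2 P := by
  have hmu := P.mu_pos
  have i1 : Integrable (fun g : ℝ => c1 * Real.exp (-(P.mu * g))) clockLaw :=
    (integrable_clock_of_bound (by fun_prop) (C := 1) fun g hg => by
      rw [abs_of_pos (Real.exp_pos _)]; exact (exp_mem hg.le).2).const_mul _
  have i2 : Integrable (fun g : ℝ => c2 * Real.exp (-((2 * P.mu) * g))) clockLaw :=
    (integrable_clock_of_bound (by fun_prop) (C := 1) fun g hg => by
      rw [abs_of_pos (Real.exp_pos _)]
      exact Real.exp_le_one_iff.2 (by have : 0 ≤ 2 * P.mu * g := by positivity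
                                      linarith)).const_mul _
  have i0 : Integrable (fun _ : ℝ => c0) clockLaw := integrable_const _
  have h := integral_add (i0.add i1) i2
  have h' := integral_add i0 i1
  simp only [Pi.add_apply] at h h'
  rw [h, h', integral_const_mul, integral_const_mul, clock_integral_exp hmu.le,
    clock_integral_exp (by positivity)]
  simp only [integral_const, probReal_univ, smul_eq_mul, one_mul]
  unfold ca ca2
  ring

/-- Explicit evaluation: if the function of the new memory is `A + B γ` after 'open' and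
`A' + B' γ` after 'closed', `γ = exp(-μ g)`. -/
lemma opT_eval {P : Par} {a : Dir d} {f : St d → ℝ} {S : St d} {A B A' B' : ℝ}
    (h1 : ∀ g, 0 < g → f (next P S a g true) = A + B * Real.exp (-(P.mu * g)))
    (h2 : ∀ g, 0 < g → f (next P S a g false) = A' + B' * Real.exp (-(P.mu * g))) :
    opT P a f S = P.p * A + (1 - P.p) * A' +
      ca P * (P.p * B + (1 - P.p) * B' + S (edgeOf 0 a) * (A - A')) +
      ca2 P * (S (edgeOf 0 a) * (B - B')) := by
  have hmu := P.mu_pos
  have e1 : opT P a f S = ∫ g, ((P.p * A + (1 - P.p) * A') +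
      (P.p * B + (1 - P.p) * B' + S (edgeOf 0 a) * (A - A')) * Real.exp (-(P.mu * g)) +
      (S (edgeOf 0 a) * (B - B')) * Real.exp (-((2 * P.mu) * g))) ∂clockLaw := by
    unfold opT
    refine integral_congr_ae ?_
    filter_upwards [clock_ae_pos] with g hg
    rw [h1 g hg, h2 g hg]
    have : Real.exp (-((2 * P.mu) * g)) = Real.exp (-(P.mu * g)) * Real.exp (-(P.mu * g)) := by
      rw [← Real.exp_add]; congr 1; ring
    rw [this]
    unfold pOpen
    ring
  rw [e1, clock_integral_quad]
  ring

/-- `hh` is the expected increment. -/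
lemma hh_eq (P : Par) (i : Fin (d + 1)) (b : Dir d) (S : St d) :
    hh P i b S = ∫ g, pOpen P S b g * (stepVec b i : ℝ) ∂clockLaw := by
  have e : ∀ g : ℝ, pOpen P S b g * (stepVec b i : ℝ) =
      (stepVec b i : ℝ) * P.p + ((stepVec b i : ℝ) * S (edgeOf 0 b)) * Real.exp (-(P.mu * g)) +
        0 * Real.exp (-((2 * P.mu) * g)) := by
    intro g; unfold pOpen; ring
  simp_rw [e]
  rw [clock_integral_quad]
  unfold hh
  ring

end DynPerc
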