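import Mathlib

/-!
# MP_f058f1_pr: biased random walk on dynamical percolation, definitions and final statement

The dimension is `d + 1`; `d ≥ 1` is the number of lateral coordinates.  Everything is the literal
graphical construction of the problem file.
-/

open MeasureTheory ProbabilityTheory Filter Topology

noncomputable section

namespace DynPerc

/-- The parameters `μ > 0` and `p ∈ (0,1)`. -/
structure Par where
  mu : ℝ
  p : ℝ
  mu_pos : 0 < mu
  p_pos : 0 < p
  p_lt : p < 1

/-- Sites of `ℤ^(d+1)`. -/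
abbrev Site (d : ℕ) := Fin (d + 1) → ℤ

/-- Directions: `(i, true)` is `+e_i`, `(i, false)` is `-e_i`. -/
abbrev Dir (d : ℕ) := Fin (d + 1) × Bool

/-- Nearest neighbour edges: `(x, i)` is the edge between `x` and `x + e_i`. -/
abbrev Edge (d : ℕ) := Site d × Fin (d + 1)

/-- The unit vector of a direction. -/
def stepVec {d : ℕ} (a : Dir d) : Site d := if a.2 then Pi.single a.1 1 else -Pi.single a.1 1

/-- The edge between `x` and `x + stepVec a`. -/
def edgeOf {d : ℕ} (x : Site d) (a : Dir d) : Edge d :=
  if a.2 then (x, a.1) else (x - Pi.single a.1 1, a.1)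

/-! ### Laws of the random inputs -/

/-- Bernoulli law with parameter `p`. -/
def ber (P : Par) : Measure Bool :=
  ENNReal.ofReal P.p • Measure.dirac true + ENNReal.ofReal (1 - P.p) • Measure.dirac false

instance (P : Par) : IsProbabilityMeasure (ber P) := ⟨by
  have h1 := P.p_pos
  have h2 := P.p_lt
  simp only [ber, Measure.coe_add, Measure.coe_smul, Pi.add_apply, Pi.smul_apply, measure_univ,
    smul_eq_mul, mul_one]
  rw [← ENNReal.ofReal_add h1.le (by linarith)]
  simp⟩

/-- The exponential law of rate `μ`. -/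
def gapLaw (P : Par) : Measure ℝ := expMeasure P.mu

instance (P : Par) : IsProbabilityMeasure (gapLaw P) := isProbabilityMeasure_expMeasure P.mu_pos

/-- The exponential law of rate `1`. -/
def clockLaw : Measure ℝ := expMeasure 1

instance : IsProbabilityMeasure clockLaw := isProbabilityMeasure_expMeasure one_pos

/-- Law of the inputs of one edge: independent gaps `Exp(μ)` of its clock, and independent
Bernoulli(`p`) states; the state number `0` is the initial state and the state number `n` is the one
sampled at the `n`-th ring. -/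
def edgeLaw (P : Par) : Measure (ℕ → ℝ × Bool) :=
  Measure.infinitePi fun _ => (gapLaw P).prod (ber P)

instance (P : Par) : IsProbabilityMeasure (edgeLaw P) := by unfold edgeLaw; infer_instance

/-- Law of the environment: the edges are independent. -/
def envLaw (P : Par) (d : ℕ) : Measure (Edge d → ℕ → ℝ × Bool) :=
  Measure.infinitePi fun _ => edgeLaw P

instance (P : Par) (d : ℕ) : IsProbabilityMeasure (envLaw P d) := by unfold envLaw; infer_instance

/-- The law on directions with weights `ν`. -/
def dirLaw {d : ℕ} (ν : stdSimplex ℝ (Dir d)) : Measure (Dir d) :=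
  ∑ a, ENNReal.ofReal (ν.1 a) • Measure.dirac a

instance {d : ℕ} (ν : stdSimplex ℝ (Dir d)) : IsProbabilityMeasure (dirLaw ν) := ⟨by
  simp only [dirLaw, Measure.coe_finsetSum, Finset.sum_apply, Measure.coe_smul, Pi.smul_apply,
    measure_univ, smul_eq_mul, mul_one]
  rw [← ENNReal.ofReal_sum_of_nonneg (fun a _ => ν.2.1 a), ν.2.2]
  simp⟩

/-- Law of the inputs of the walker: independent gaps `Exp(1)` of its clock and independent proposed
directions with law `ν`. -/
def walkLaw {d : ℕ} (ν : stdSimplex ℝ (Dir d)) : Measure (ℕ → ℝ × Dir d) :=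
  Measure.infinitePi fun _ => clockLaw.prod (dirLaw ν)

instance {d : ℕ} (ν : stdSimplex ℝ (Dir d)) : IsProbabilityMeasure (walkLaw ν) := by
  unfold walkLaw; infer_instance

/-- Joint (annealed) law. -/
def law (P : Par) {d : ℕ} (ν : stdSimplex ℝ (Dir d)) :
    Measure ((Edge d → ℕ → ℝ × Bool) × (ℕ → ℝ × Dir d)) :=
  (envLaw P d).prod (walkLaw ν)

instance (P : Par) {d : ℕ} (ν : stdSimplex ℝ (Dir d)) : IsProbabilityMeasure (law P ν) := by
  unfold law; infer_instance

/-- The weights of the biased walk: `e^λ/Z` for `e_1`, `e^{-λ}/Z` for `-e_1`, `1/Z` for all the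
others, `Z = e^λ + e^{-λ} + 2 d` in dimension `d + 1`. -/
def bias (d : ℕ) (lam : ℝ) : stdSimplex ℝ (Dir d) :=
  ⟨fun a => (if a.1 = 0 then Real.exp (if a.2 then lam else -lam) else 1) /
      (Real.exp lam + Real.exp (-lam) + 2 * d), by
    have hZ : 0 < Real.exp lam + Real.exp (-lam) + 2 * (d : ℝ) := by positivity
    refine ⟨fun a => div_nonneg (by split_ifs <;> positivity) hZ.le, ?_⟩
    rw [← Finset.sum_div, div_eq_one_iff_eq hZ.ne', Fintype.sum_prod_type, Fin.sum_univ_succ]
    simp [Fin.succ_ne_zero]
    ring⟩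

/-! ### The graphical construction -/

/-- Number of rings up to time `t` of a clock with gaps `ξ 0, ξ 1, …`. -/
def count (ξ : ℕ → ℝ) (t : ℝ) : ℕ := sInf {n : ℕ | t < ∑ j ∈ Finset.range (n + 1), ξ j}

/-- State at time `t` of an edge with inputs `c`. -/
def edgeState (c : ℕ → ℝ × Bool) (t : ℝ) : Bool := (c (count (fun j => (c j).1) t)).2

/-- Time of the ring number `k` (the first one has number `0`) of the clock of the walker. -/
def ringTime {d : ℕ} (w : ℕ → ℝ × Dir d) (k : ℕ) : ℝ := ∑ j ∈ Finset.range (k + 1), (w j).1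

/-- Position of the walker after `k` rings of its clock. -/
def pos {d : ℕ} (η : Edge d → ℕ → ℝ × Bool) (w : ℕ → ℝ × Dir d) : ℕ → Site d
  | 0 => 0
  | k + 1 =>
    if edgeState (η (edgeOf (pos η w k) (w k).2)) (ringTime w k) then
      pos η w k + stepVec (w k).2
    else pos η w k

/-- Position of the walker at time `t`. -/
def walker {d : ℕ} (ω : (Edge d → ℕ → ℝ × Bool) × (ℕ → ℝ × Dir d)) (t : ℝ) : Site d :=
  pos ω.1 ω.2 (count (fun j => (ω.2 j).1) t)

/-- **Q1**, positive answer: on the critical curve `μ² = p(1-p)`, in every dimension `d + 1 ≥ 2`,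
the speed is eventually (strictly) increasing. -/
def Target : Prop :=
  ∀ (d : ℕ), 1 ≤ d → ∀ P : Par, P.mu ^ 2 = P.p * (1 - P.p) →
    ∃ v : ℝ → ℝ,
      (∀ lam : ℝ, 0 < lam → ∀ᵐ ω ∂(law P (bias d lam)),
        Tendsto (fun t : ℝ => fun i => (walker ω t i : ℝ) / t) atTop
          (𝓝 (Pi.single 0 (v lam)))) ∧
      ∃ lam0 : ℝ, StrictMonoOn v (Set.Ici lam0)

end DynPerc
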