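import Pool.Agent.Work.MP_f058f1_pr.Stmts

/-!
# Assembly of `Target` from the claims of `Stmts.lean`
-/

open MeasureTheory ProbabilityTheory Filter Topology

noncomputable section

namespace DynPerc

variable {d : ℕ}

/-! ### 1. The law of large numbers in continuous time -/

lemma main_abs_step (η : Edge d → ℕ → ℝ × Bool) (w : ℕ → ℝ × Dir d) (n : ℕ) (i : Fin (d + 1)) :
    |(pos η w (n + 1) i : ℝ) - pos η w n i| ≤ 1 := by
  have h : ∀ a : Dir d, |((stepVec a i : ℤ) : ℝ)| ≤ 1 := by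
    intro a
    unfold stepVec
    by_cases hi : i = a.1
    · subst hi
      split_ifs <;> simp
    · split_ifs <;> simp [hi]
  rw [pos]
  split_ifs
  · simpa using h _
  · simp

lemma main_lln (hMeas : ClaimMeas) (hLLN : ClaimLLN) (P : Par) (ν : stdSimplex ℝ (Dir d))
    (i : Fin (d + 1)) {V C : ℝ}
    (hV : ∀ n : ℕ, ∫ ω, ((pos ω.1 ω.2 n i : ℝ) - n * V) ^ 2 ∂(law P ν) ≤ C * (n + 1)) :
    ∀ᵐ ω ∂(law P ν), Tendsto (fun n : ℕ => (pos ω.1 ω.2 n i : ℝ) / n) atTop (𝓝 V) := by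
  refine hLLN _ (law P ν) (fun n ω => (pos ω.1 ω.2 n i : ℝ)) V C (fun n => ?_) (fun ω => ?_)
    (fun n ω => main_abs_step _ _ _ _) hV
  · have h1 : Measurable fun z : Site d => ((z i : ℤ) : ℝ) :=
      measurable_from_top.comp (measurable_pi_apply i)
    exact h1.comp (hMeas.2.2 d n)
  · simp [pos]

lemma main_ct {x : ℕ → ℝ} {N : ℝ → ℕ} {V : ℝ}
    (hx : Tendsto (fun n : ℕ => x n / n) atTop (𝓝 V))
    (hN : Tendsto (fun t : ℝ => (N t : ℝ) / t) atTop (𝓝 1)) :
    Tendsto (fun t : ℝ => x (N t) / t) atTop (𝓝 V) := by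
  have h1 : ∀ᶠ t : ℝ in atTop, 1 / 2 < (N t : ℝ) / t := hN.eventually_const_lt (by norm_num)
  have h2 : Tendsto (fun t : ℝ => (N t : ℝ)) atTop atTop := by
    refine tendsto_atTop_mono' _ (f₁ := fun t => t / 2) ?_ ?_
    · filter_upwards [h1, eventually_gt_atTop 0] with t ht h0
      rw [lt_div_iff₀ h0] at ht
      linarith
    · exact tendsto_id.atTop_div_const (by norm_num)
  have h3 : Tendsto N atTop atTop := tendsto_natCast_atTop_iff.mp h2
  have h4 := (hx.comp h3).mul hN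
  rw [mul_one] at h4
  refine h4.congr' ?_
  filter_upwards [h1, eventually_gt_atTop 0] with t ht h0
  have h5 : (0 : ℝ) < N t := by
    rw [lt_div_iff₀ h0] at ht
    nlinarith
  simp only [Function.comp]
  field_simp

lemma main_speed (hMeas : ClaimMeas) (hLLN : ClaimLLN) (hClock : ClaimClock) (P : Par)
    (ν : stdSimplex ℝ (Dir d)) {V : Fin (d + 1) → ℝ}
    (hV : ∀ i, ∃ C : ℝ, ∀ n : ℕ,
      ∫ ω, ((pos ω.1 ω.2 n i : ℝ) - n * V i) ^ 2 ∂(law P ν) ≤ C * (n + 1)) :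
    ∀ᵐ ω ∂(law P ν), Tendsto (fun t : ℝ => fun i => (walker ω t i : ℝ) / t) atTop (𝓝 V) := by
  have h1 : ∀ᵐ ω ∂(law P ν), ∀ i,
      Tendsto (fun n : ℕ => (pos ω.1 ω.2 n i : ℝ) / n) atTop (𝓝 (V i)) := by
    rw [ae_all_iff]
    intro i
    obtain ⟨C, hC⟩ := hV i
    exact main_lln hMeas hLLN P ν i hC
  have h2 : ∀ᵐ ω ∂(law P ν),
      Tendsto (fun t : ℝ => (count (fun j => (ω.2 j).1) t : ℝ) / t) atTop (𝓝 1) := by
    have hq : Measure.QuasiMeasurePreserving
        (Prod.snd : (Edge d → ℕ → ℝ × Bool) × (ℕ → ℝ × Dir d) → _) (law P ν) (walkLaw ν) := by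
      unfold law
      exact Measure.quasiMeasurePreserving_snd
    exact hq.ae (hClock d ν)
  filter_upwards [h1, h2] with ω h3 h4
  rw [tendsto_pi_nhds]
  intro i
  exact main_ct (x := fun n => (pos ω.1 ω.2 n i : ℝ)) (h3 i) h4

/-! ### 2. Expectations and the comparison with left moves -/

lemma main_mean {P : Par} {ν : stdSimplex ℝ (Dir d)} (hMeas : ClaimMeas) {i : Fin (d + 1)}
    {V C : ℝ}
    (hV : ∀ n : ℕ, ∫ ω, ((pos ω.1 ω.2 n i : ℝ) - n * V) ^ 2 ∂(law P ν) ≤ C * (n + 1)) :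
    Tendsto (fun n : ℕ => (∫ ω, (pos ω.1 ω.2 n i : ℝ) ∂(law P ν)) / n) atTop (𝓝 V) := by
  have hmeas : ∀ n, Measurable fun ω : (Edge d → ℕ → ℝ × Bool) × (ℕ → ℝ × Dir d) =>
      (pos ω.1 ω.2 n i : ℝ) := fun n => by
    have h1 : Measurable fun z : Site d => ((z i : ℤ) : ℝ) :=
      measurable_from_top.comp (measurable_pi_apply i)
    exact h1.comp (hMeas.2.2 d n)
  have hb : ∀ n (ω : (Edge d → ℕ → ℝ × Bool) × (ℕ → ℝ × Dir d)),
      |(pos ω.1 ω.2 n i : ℝ)| ≤ n := by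
    intro n ω
    induction n with
    | zero => simp [pos]
    | succ n ih =>
      have := main_abs_step ω.1 ω.2 n i
      push_cast
      rw [abs_le] at *
      constructor <;> linarith
  have hint : ∀ n, Integrable (fun ω : (Edge d → ℕ → ℝ × Bool) × (ℕ → ℝ × Dir d) =>
      (pos ω.1 ω.2 n i : ℝ)) (law P ν) := fun n =>
    Integrable.of_bound (hmeas n).aestronglyMeasurable n
      (Eventually.of_forall fun ω => by rw [Real.norm_eq_abs]; exact hb n ω)
  -- (E X - n V)^2 ≤ E (X - n V)^2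
  have hsq : ∀ n : ℕ, ((∫ ω, (pos ω.1 ω.2 n i : ℝ) ∂(law P ν)) - n * V) ^ 2 ≤ C * (n + 1) := by
    intro n
    refine le_trans ?_ (hV n)
    set m := (∫ ω, (pos ω.1 ω.2 n i : ℝ) ∂(law P ν)) - n * V with hm
    have hY : Integrable (fun ω : (Edge d → ℕ → ℝ × Bool) × (ℕ → ℝ × Dir d) =>
        (pos ω.1 ω.2 n i : ℝ) - n * V) (law P ν) := (hint n).sub (integrable_const _)
    have hYe : ∫ ω, ((pos ω.1 ω.2 n i : ℝ) - n * V) ∂(law P ν) = m := by
      rw [integral_sub (hint n) (integrable_const _)]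
      simp [hm]
    have hY2 : Integrable (fun ω : (Edge d → ℕ → ℝ × Bool) × (ℕ → ℝ × Dir d) =>
        ((pos ω.1 ω.2 n i : ℝ) - n * V) ^ 2) (law P ν) := by
      refine Integrable.of_bound (((hmeas n).sub_const _).pow_const 2).aestronglyMeasurable
        ((n + |n * V|) ^ 2) (Eventually.of_forall fun ω => ?_)
      rw [Real.norm_eq_abs, abs_pow]
      exact pow_le_pow_left₀ (abs_nonneg _) ((abs_sub _ _).trans (by gcongr; exact hb n ω)) 2
    have h3 : 0 ≤ ∫ ω, (((pos ω.1 ω.2 n i : ℝ) - n * V) - m) ^ 2 ∂(law P ν) :=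
      integral_nonneg fun ω => sq_nonneg _
    have h4 : ∫ ω, (((pos ω.1 ω.2 n i : ℝ) - n * V) - m) ^ 2 ∂(law P ν) =
        (∫ ω, ((pos ω.1 ω.2 n i : ℝ) - n * V) ^ 2 ∂(law P ν)) - m ^ 2 := by
      have e : ∀ ω : (Edge d → ℕ → ℝ × Bool) × (ℕ → ℝ × Dir d),
          (((pos ω.1 ω.2 n i : ℝ) - n * V) - m) ^ 2 =
          ((pos ω.1 ω.2 n i : ℝ) - n * V) ^ 2 - (2 * m) * ((pos ω.1 ω.2 n i : ℝ) - n * V) +
            m ^ 2 := fun ω => by ring
      simp_rw [e]
      have h := integral_add (hY2.sub (hY.const_mul (2 * m)))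
        (integrable_const (μ := law P ν) (m ^ 2))
      simp only [Pi.sub_apply] at h
      rw [h, integral_sub hY2 (hY.const_mul _), integral_const_mul, hYe]
      simp
      ring
    linarith
  have hC : 0 ≤ C := by
    have := (sq_nonneg _).trans (hsq 0)
    simpa using this
  rw [tendsto_iff_norm_sub_tendsto_zero]
  have hlim : Tendsto (fun n : ℕ => Real.sqrt (2 * C / n)) atTop (𝓝 0) := by
    have h5 : Tendsto (fun n : ℕ => 2 * C / (n : ℝ)) atTop (𝓝 0) :=
      tendsto_const_div_atTop_nhds_zero_nat _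
    simpa using h5.sqrt
  refine tendsto_of_tendsto_of_tendsto_of_le_of_le' tendsto_const_nhds hlim
    (Eventually.of_forall fun n => norm_nonneg _) ?_
  filter_upwards [eventually_ge_atTop 1] with n hn
  have hn' : (1 : ℝ) ≤ n := by exact_mod_cast hn
  rw [Real.norm_eq_abs]
  refine Real.abs_le_sqrt ?_
  have h6 := hsq n
  have h7 : (∫ ω, (pos ω.1 ω.2 n i : ℝ) ∂(law P ν)) / n - V =
      ((∫ ω, (pos ω.1 ω.2 n i : ℝ) ∂(law P ν)) - n * V) / n := by
    field_simp
  rw [h7, div_pow, div_le_div_iff₀ (by positivity) (by positivity)]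
  have h8 := mul_le_mul_of_nonneg_right h6 (by linarith : (0:ℝ) ≤ n)
  have h9 : C * ((n : ℝ) + 1) * n ≤ 2 * C * (n : ℝ) ^ 2 := by
    have : 0 ≤ C * n * (n - 1) := by
      have : (0 : ℝ) ≤ n - 1 := by linarith
      positivity
    nlinarith
  linarith

/-! ### 3. The weights `nu2` -/

lemma nu2_sum {R : Type*} [CommRing R] (s t : R) : ∑ a : Dir d, nu2 d s t a = 1 := by
  rw [Fintype.sum_prod_type, Fin.sum_univ_succ]
  simp [nu2, Fin.succ_ne_zero]
  ring

lemma nu2_norm (s t : ℂ) :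
    ∑ a : Dir d, ‖nu2 d s t a‖ ≤ 1 + 4 * d * ‖s‖ + 2 * ‖t‖ := by
  rw [Fintype.sum_prod_type, Fin.sum_univ_succ]
  have h1 : ‖1 - 2 * (d : ℂ) * s - t‖ ≤ 1 + 2 * d * ‖s‖ + ‖t‖ := by
    refine (norm_sub_le _ _).trans ?_
    refine add_le_add ((norm_sub_le _ _).trans ?_) le_rfl
    simp
  simp only [nu2, Fin.succ_ne_zero, Fintype.sum_bool, if_true, if_false, Finset.sum_const,
    Finset.card_univ, Fintype.card_fin, nsmul_eq_mul, Bool.false_eq_true, Fintype.card_bool,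
    Nat.cast_ofNat]
  nlinarith [h1, norm_nonneg s]

lemma nu2_ofReal (s t : ℝ) :
    (fun a : Dir d => ((nu2 d s t a : ℝ) : ℂ)) = nu2 d (s : ℂ) (t : ℂ) := by
  funext a
  unfold nu2
  split_ifs <;> simp

/-- `nu2` as a point of the simplex. -/
def nuS (d : ℕ) {s t : ℝ} (hs : 0 ≤ s) (ht : 0 ≤ t) (h : 2 * d * s + t ≤ 1) :
    stdSimplex ℝ (Dir d) :=
  ⟨nu2 d s t, fun a => by unfold nu2; split_ifs <;> linarith, nu2_sum s t⟩

/-- The curve of weights of the biased walk, `q = exp(-λ)`. -/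
def sq {K : Type*} [Field K] (d : ℕ) (q : K) : K := q / (1 + 2 * d * q + q ^ 2)

def tq {K : Type*} [Field K] (d : ℕ) (q : K) : K := q ^ 2 / (1 + 2 * d * q + q ^ 2)

lemma bias_eq (d : ℕ) (lam : ℝ) :
    (bias d lam).1 = nu2 d (sq d (Real.exp (-lam))) (tq d (Real.exp (-lam))) := by
  have e : Real.exp lam * Real.exp (-lam) = 1 := by rw [← Real.exp_add]; simp
  have hq := Real.exp_pos (-lam)
  have hl := Real.exp_pos lam
  have hZ : 0 < Real.exp lam + Real.exp (-lam) + 2 * (d : ℝ) := by positivity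
  have hD : 0 < 1 + 2 * (d : ℝ) * Real.exp (-lam) + Real.exp (-lam) ^ 2 := by positivity
  funext a
  obtain ⟨i, b⟩ := a
  by_cases hi : i = 0
  · subst hi
    cases b
    · simp only [bias, nu2, sq, tq, if_true, Bool.false_eq_true, if_false]
      generalize Real.exp lam = x at *
      generalize Real.exp (-lam) = y at *
      rw [div_eq_div_iff hZ.ne' hD.ne']
      linear_combination (-y) * e
    · simp only [bias, nu2, sq, tq, if_true]
      generalize Real.exp lam = x at *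
      generalize Real.exp (-lam) = y at *
      rw [div_eq_iff hZ.ne']
      field_simp
      linear_combination (2 * (d : ℝ) + y) * e
  · simp only [bias, nu2, sq, tq, hi, if_false]
    generalize Real.exp lam = x at *
    generalize Real.exp (-lam) = y at *
    rw [div_eq_div_iff hZ.ne' hD.ne']
    linear_combination (-1 : ℝ) * e

/-! ### 4. Assembly -/

lemma sq_ofReal (d : ℕ) (q : ℝ) : sq d (q : ℂ) = ((sq d q : ℝ) : ℂ) := by
  unfold sq; push_cast; rfl

lemma tq_ofReal (d : ℕ) (q : ℝ) : tq d (q : ℂ) = ((tq d q : ℝ) : ℂ) := by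
  unfold tq; push_cast; rfl

lemma real_limit {x : ℕ → ℝ} {z : ℂ} (h : Tendsto (fun k => ((x k : ℝ) : ℂ)) atTop (𝓝 z)) :
    Tendsto x atTop (𝓝 z.re) ∧ z = ((z.re : ℝ) : ℂ) := by
  have h1 : Tendsto x atTop (𝓝 z.re) := by
    have := (Complex.continuous_re.tendsto z).comp h
    simpa [Function.comp_def] using this
  exact ⟨h1, tendsto_nhds_unique h ((Complex.continuous_ofReal.tendsto _).comp h1)⟩

/-- The left moves. -/
lemma main_left (hVar : ClaimVar) (hMeas : ClaimMeas) (hLeft : ClaimLeft) (P : Par) (d : ℕ)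
    {t : ℝ} (ht : 0 ≤ t) (ht1 : t ≤ 1) {L L0 : ℝ}
    (h : Tendsto (fun k => ((opN P (nu2 d 0 t))^[k] (hN P (nu2 d 0 t) 0)) 0) atTop (𝓝 L))
    (h0 : Tendsto (fun k => ((opN P (nu2 d (0 : ℝ) 0))^[k] (hN P (nu2 d (0 : ℝ) 0) 0)) 0) atTop
      (𝓝 L0)) : L ≤ L0 := by
  have e1 : 2 * (d : ℝ) * 0 + t ≤ 1 := by linarith
  have e2 : 2 * (d : ℝ) * 0 + 0 ≤ 1 := by linarith
  obtain ⟨V, C, hV1, hV2⟩ := hVar P d (nuS d le_rfl ht e1) 0
  obtain ⟨V', C', hV1', hV2'⟩ := hVar P d (nuS d le_rfl le_rfl e2) 0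
  have hL : V = L := tendsto_nhds_unique hV1 h
  have hL0 : V' = L0 := tendsto_nhds_unique hV1' h0
  rw [← hL, ← hL0]
  refine le_of_tendsto_of_tendsto' (main_mean hMeas hV2) (main_mean hMeas hV2') fun n => ?_
  refine div_le_div_of_nonneg_right ?_ (Nat.cast_nonneg n)
  refine hLeft P d _ _ (fun a ha => ?_) ?_ n
  · simp [nuS, nu2, ha]
  · simp [nuS, nu2]

theorem main (hHolo : ClaimHolo) (hReal : ClaimReal) (hRefl : ClaimRefl) (hMeas : ClaimMeas)
    (hVar : ClaimVar) (hLLN : ClaimLLN) (hClock : ClaimClock) (hLeft : ClaimLeft)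
    (hLat : ClaimLat) (hSchw : ClaimSchw) (hTaylor : ClaimTaylor) : Target := by
  intro d hd P hcrit
  have hd' : (1 : ℝ) ≤ d := by exact_mod_cast hd
  have hmu := P.mu_pos
  have hp := P.p_pos
  have hp1 := P.p_lt
  obtain ⟨r, hr, C0, V, hV, hVd⟩ := hHolo P d 0
  -- real weights
  have hre : ∀ ν : Dir d → ℝ, ∑ a, ν a = 1 → ∑ a, ‖((ν a : ℝ) : ℂ)‖ ≤ r →
      Tendsto (fun k => ((opN P ν)^[k] (hN P ν 0)) 0) atTop (𝓝 (V fun a => ((ν a : ℝ) : ℂ)).re) ∧
      V (fun a => ((ν a : ℝ) : ℂ)) = (((V fun a => ((ν a : ℝ) : ℂ)).re : ℝ) : ℂ) := by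
    intro ν h1 h2
    have h3 := (hV (fun a => ((ν a : ℝ) : ℂ)) (by exact_mod_cast h1) h2).1
    exact real_limit (h3.congr fun k => hReal P d 0 ν k)
  -- the speed
  set v : ℝ → ℝ := fun lam => (V fun a => (((bias d lam).1 a : ℝ) : ℂ)).re with hv
  have hsimp : ∀ ν : stdSimplex ℝ (Dir d), ∑ a, ‖((ν.1 a : ℝ) : ℂ)‖ ≤ r := by
    intro ν
    have : ∀ a, ‖((ν.1 a : ℝ) : ℂ)‖ = ν.1 a := fun a => by
      rw [Complex.norm_real, Real.norm_eq_abs, abs_of_nonneg (ν.2.1 a)]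
    simp_rw [this, ν.2.2]
    exact hr.le
  refine ⟨v, ?_, ?_⟩
  · intro lam _
    refine main_speed hMeas hLLN hClock P (bias d lam) fun i => ?_
    obtain ⟨Vi, C, h1, h2⟩ := hVar P d (bias d lam) i
    refine ⟨C, ?_⟩
    have h3 : Vi = (Pi.single 0 (v lam) : Fin (d + 1) → ℝ) i := by
      by_cases hi : i = 0
      · subst hi
        rw [Pi.single_eq_same]
        exact tendsto_nhds_unique h1 (hre _ (bias d lam).2.2 (hsimp _)).1
      · rw [Pi.single_eq_of_ne hi]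
        refine tendsto_nhds_unique h1 ?_
        simp_rw [hRefl P d i hi lam]
        exact tendsto_const_nhds
    rw [← h3]
    exact h2
  -- monotonicity
  set δ : ℝ := (r - 1) / (4 * d + 3) with hδ
  have hδ0 : 0 < δ := div_pos (by linarith) (by positivity)
  have hnorm : ∀ s t : ℂ, ‖s‖ < δ → ‖t‖ < δ → ∑ a : Dir d, ‖nu2 d s t a‖ ≤ r := by
    intro s t hs ht
    refine (nu2_norm s t).trans ?_
    have h1 : δ * (4 * d + 3) = r - 1 := by rw [hδ]; field_simp
    nlinarith [norm_nonneg s, norm_nonneg t]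
  have hsch := hSchw (fun s t => V (nu2 d s t)) δ C0 hδ0 (by
      intro t ht
      refine hVd (Metric.ball 0 δ) (fun z => nu2 d z t) Metric.isOpen_ball (fun a => ?_)
        (fun z _ => nu2_sum z t) fun z hz => hnorm z t (by simpa using hz) (by simpa using ht)
      unfold nu2
      split_ifs <;> fun_prop) (by
      intro s hs
      refine hVd (Metric.ball 0 δ) (fun z => nu2 d s z) Metric.isOpen_ball (fun a => ?_)
        (fun z _ => nu2_sum s z) fun z hz => hnorm s z (by simpa using hs) (by simpa using hz)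
      unfold nu2
      split_ifs <;> fun_prop) (by
      intro s hs t ht
      exact (hV _ (nu2_sum s t) (hnorm s t (by simpa using hs) (by simpa using ht))).2)
  set C1 : ℝ := 4 * C0 / δ ^ 2 with hC1
  -- real weights near the right direction
  have hre2 : ∀ s t : ℝ, |s| < δ → |t| < δ →
      Tendsto (fun k => ((opN P (nu2 d s t))^[k] (hN P (nu2 d s t) 0)) 0) atTop
        (𝓝 (V (nu2 d (s : ℂ) (t : ℂ))).re) ∧
      V (nu2 d (s : ℂ) (t : ℂ)) = (((V (nu2 d (s : ℂ) (t : ℂ))).re : ℝ) : ℂ) := by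
    intro s t hs ht
    have h1 := hre (nu2 d s t) (nu2_sum s t)
    rw [nu2_ofReal] at h1
    refine h1 ?_
    have h2 := hnorm (s : ℂ) (t : ℂ) (by simpa using hs) (by simpa using ht)
    rw [← nu2_ofReal] at h2
    exact h2
  obtain ⟨⟨C2, s0, hs0, hlat⟩, hlat0⟩ := hLat P d
  have hz : |(0 : ℝ)| < δ := by simpa using hδ0
  set v0 : ℝ := P.p * P.mu / (P.mu + 1 - P.p) with hv0
  have hbase : (V (nu2 d (((0 : ℝ) : ℂ)) (((0 : ℝ) : ℂ)))).re = v0 := hlat0 _ (hre2 0 0 hz hz).1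
  -- the curve
  set f : ℂ → ℂ := fun q => V (nu2 d (sq d q) (tq d q)) with hf
  set u : ℝ → ℝ := fun q => (f (q : ℂ)).re with hu
  set δ1 : ℝ := min (min (1 / (4 * d + 4)) ((r - 1) / (8 * d + 8))) (min (min s0 δ) 1) with hδ1
  have hδ1a : δ1 ≤ 1 / (4 * d + 4) := (min_le_left _ _).trans (min_le_left _ _)
  have hδ1b : δ1 ≤ (r - 1) / (8 * d + 8) := (min_le_left _ _).trans (min_le_right _ _)
  have hδ1c : δ1 ≤ s0 := (min_le_right _ _).trans ((min_le_left _ _).trans (min_le_left _ _))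
  have hδ1d : δ1 ≤ δ := (min_le_right _ _).trans ((min_le_left _ _).trans (min_le_right _ _))
  have hδ1e : δ1 ≤ 1 := (min_le_right _ _).trans (min_le_right _ _)
  have hδ1pos : 0 < δ1 := by
    refine lt_min (lt_min (by positivity) (div_pos (by linarith) (by positivity)))
      (lt_min (lt_min hs0 hδ0) one_pos)
  have hden : ∀ q : ℂ, ‖q‖ < δ1 → 1 / 2 ≤ ‖1 + 2 * (d : ℂ) * q + q ^ 2‖ := by
    intro q hq
    have h1 : ‖(1 : ℂ)‖ ≤ ‖1 + 2 * (d : ℂ) * q + q ^ 2‖ + ‖2 * (d : ℂ) * q‖ + ‖q ^ 2‖ := by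
      calc ‖(1 : ℂ)‖ = ‖(1 + 2 * (d : ℂ) * q + q ^ 2) - 2 * (d : ℂ) * q - q ^ 2‖ := by
            congr 1; ring
        _ ≤ ‖(1 + 2 * (d : ℂ) * q + q ^ 2) - 2 * (d : ℂ) * q‖ + ‖q ^ 2‖ := norm_sub_le _ _
        _ ≤ _ := add_le_add (norm_sub_le _ _) le_rfl
    have h2 : ‖2 * (d : ℂ) * q‖ = 2 * d * ‖q‖ := by simp
    have h3 : ‖q ^ 2‖ ≤ ‖q‖ := by
      rw [norm_pow]; nlinarith [norm_nonneg q, hq, hδ1e]
    have h4 : ‖q‖ * (4 * d + 4) ≤ 1 := by
      have := hq.le.trans hδ1a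
      rwa [le_div_iff₀ (by positivity)] at this
    rw [h2] at h1
    simp only [norm_one] at h1
    nlinarith [norm_nonneg q]
  have hfd : DifferentiableOn ℂ f (Metric.ball 0 δ1) := by
    refine hVd (Metric.ball 0 δ1) (fun z => nu2 d (sq d z) (tq d z)) Metric.isOpen_ball
      (fun a => ?_) (fun z _ => nu2_sum _ _) fun z hz => ?_
    · have hs : DifferentiableOn ℂ (fun z : ℂ => sq d z) (Metric.ball 0 δ1) := by
        intro z hz
        have h1 := hden z (by simpa using hz)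
        have h2 : 1 + 2 * (d : ℂ) * z + z ^ 2 ≠ 0 := fun h => by
          rw [h] at h1; norm_num at h1
        exact (DifferentiableAt.div (c := fun z : ℂ => z)
          (d := fun z : ℂ => 1 + 2 * (d : ℂ) * z + z ^ 2) differentiableAt_id
          (by fun_prop) h2).differentiableWithinAt
      have ht : DifferentiableOn ℂ (fun z : ℂ => tq d z) (Metric.ball 0 δ1) := by
        intro z hz
        have h1 := hden z (by simpa using hz)
        have h2 : 1 + 2 * (d : ℂ) * z + z ^ 2 ≠ 0 := fun h => by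
          rw [h] at h1; norm_num at h1
        exact (DifferentiableAt.div (c := fun z : ℂ => z ^ 2)
          (d := fun z : ℂ => 1 + 2 * (d : ℂ) * z + z ^ 2) (by fun_prop)
          (by fun_prop) h2).differentiableWithinAt
      unfold nu2
      split_ifs
      · exact ((hs.const_mul _).const_sub 1).sub ht
      · exact ht
      · exact hs
    · have hz' : ‖z‖ < δ1 := by simpa using hz
      have h1 := hden z hz'
      have h0 : 0 < ‖1 + 2 * (d : ℂ) * z + z ^ 2‖ := by linarith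
      have h2 : ‖sq d z‖ ≤ 2 * ‖z‖ := by
        unfold sq
        rw [norm_div, div_le_iff₀ h0]
        nlinarith [norm_nonneg z]
      have h3 : ‖tq d z‖ ≤ 2 * ‖z‖ := by
        unfold tq
        rw [norm_div, div_le_iff₀ h0, norm_pow]
        nlinarith [norm_nonneg z, mul_nonneg (norm_nonneg z) (norm_nonneg z)]
      refine (nu2_norm _ _).trans ?_
      have h4 : ‖z‖ * (8 * d + 8) ≤ r - 1 := by
        have := hz'.le.trans hδ1b
        rwa [le_div_iff₀ (by positivity)] at this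
      nlinarith [norm_nonneg z]
  have hsq : ∀ q : ℝ, 0 ≤ q → q < δ1 → 0 ≤ sq d q ∧ sq d q ≤ q ∧ q / (2 * d + 2) ≤ sq d q ∧
      0 ≤ tq d q ∧ tq d q ≤ q ^ 2 := by
    intro q h1 h2
    have h3 : 1 ≤ 1 + 2 * (d : ℝ) * q + q ^ 2 := by
      have : 0 ≤ 2 * (d : ℝ) * q := by positivity
      nlinarith
    have h4 : 1 + 2 * (d : ℝ) * q + q ^ 2 ≤ 2 * d + 2 := by nlinarith
    refine ⟨?_, ?_, ?_, ?_, ?_⟩
    · unfold sq; positivity
    · unfold sq
      exact div_le_self h1 h3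
    · unfold sq
      exact div_le_div_of_nonneg_left h1 (by linarith) h4
    · unfold tq; positivity
    · unfold tq
      exact div_le_self (by positivity) h3
  have hfu : ∀ q ∈ Set.Ico (0 : ℝ) δ1, f (q : ℂ) = ((u q : ℝ) : ℂ) := by
    intro q hq
    obtain ⟨h1, h2, -, h3, h4⟩ := hsq q hq.1 hq.2
    have h5 : q ^ 2 ≤ q := by nlinarith [hq.1, hq.2]
    have h6 := (hre2 (sq d q) (tq d q) (by rw [abs_of_nonneg h1]; linarith [hq.2])
      (by rw [abs_of_nonneg h3]; linarith [hq.2])).2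
    rw [← sq_ofReal, ← tq_ofReal] at h6
    exact h6
  have hub : ∀ q ∈ Set.Ico (0 : ℝ) δ1, u q ≤ u 0 -
      (P.p ^ 2 * (2 * d) ^ 2 / ((P.mu + 1) * (2 * d + 2) ^ 2)) * q ^ 2 +
      (|C1| + |C2|) * q ^ 3 := by
    intro q hq
    obtain ⟨h1, h2, h2', h3, h4⟩ := hsq q hq.1 hq.2
    have h5 : q ^ 2 ≤ q := by nlinarith [hq.1, hq.2]
    have hsδ : |sq d q| < δ := by rw [abs_of_nonneg h1]; linarith [hq.2]
    have htδ : |tq d q| < δ := by rw [abs_of_nonneg h3]; linarith [hq.2]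
    set s := sq d q with hs
    set t := tq d q with ht
    have hsm : (s : ℂ) ∈ Metric.ball (0 : ℂ) δ := by simpa using hsδ
    have htm : (t : ℂ) ∈ Metric.ball (0 : ℂ) δ := by simpa using htδ
    have h6 := hsch s hsm t htm
    have h7 := (Complex.abs_re_le_norm _).trans h6
    have h8 := (abs_le.mp h7).2
    simp only [Complex.add_re, Complex.sub_re, Complex.norm_real, Real.norm_eq_abs,
      abs_of_nonneg h1, abs_of_nonneg h3] at h8
    have hu' : u q = (V (nu2 d (s : ℂ) (t : ℂ))).re := by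
      rw [hu, hf]
      simp only
      rw [sq_ofReal, tq_ofReal]
    have hu0 : u 0 = v0 := by
      rw [hu, hf]
      simp only
      rw [← hbase]
      simp [sq, tq]
    -- lateral part
    have h9 := hlat s ⟨h1, by linarith [hq.2]⟩ _ (hre2 s 0 hsδ hz).1
    -- left part
    have h10 := main_left hVar hMeas hLeft P d h3 (by linarith [hq.2]) (hre2 0 t hz htδ).1
      (hre2 0 0 hz hz).1
    rw [hbase] at h10
    simp only [Complex.ofReal_zero] at h8 h9 h10 hbase
    rw [hbase] at h8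
    -- the algebra on the critical curve
    set E : ℝ := 2 * d * s with hE
    have hE0 : 0 ≤ E := by positivity
    have hE1 : E ≤ 1 := by
      have h11 : q * (4 * d + 4) ≤ 1 := by
        have := hq.2.le.trans hδ1a
        rwa [le_div_iff₀ (by positivity)] at this
      nlinarith [hq.1]
    have hDen : P.mu + 1 - P.p + (2 * P.p - 1) * E =
        P.mu + ((1 - E) * (1 - P.p) + E * P.p) := by ring
    have hDenpos : 0 < P.mu + 1 - P.p + (2 * P.p - 1) * E := by
      rw [hDen]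
      have : 0 ≤ (1 - E) * (1 - P.p) := mul_nonneg (by linarith) (by linarith)
      positivity
    have hDenle : P.mu + 1 - P.p + (2 * P.p - 1) * E ≤ P.mu + 1 := by
      rw [hDen]
      nlinarith [mul_nonneg (by linarith : 0 ≤ 1 - E) hp.le, mul_nonneg hE0 (by linarith : 0 ≤ 1 - P.p)]
    have hfrac : (1 - E) * P.p * (P.mu + P.p * E) / (P.mu + 1 - P.p + (2 * P.p - 1) * E) =
        v0 - P.p ^ 2 * E ^ 2 / (P.mu + 1 - P.p + (2 * P.p - 1) * E) := by
      have h12 : P.mu + 1 - P.p ≠ 0 := by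
        have : 0 < P.mu + 1 - P.p := by linarith
        exact this.ne'
      rw [hv0, div_sub_div _ _ h12 hDenpos.ne',
        div_eq_div_iff hDenpos.ne' (mul_ne_zero h12 hDenpos.ne')]
      linear_combination (-(P.p * E * (P.mu + 1 - P.p + (2 * P.p - 1) * E))) * hcrit
    have h13 : P.p ^ 2 * (2 * d) ^ 2 / ((P.mu + 1) * (2 * d + 2) ^ 2) * q ^ 2 ≤
        P.p ^ 2 * E ^ 2 / (P.mu + 1 - P.p + (2 * P.p - 1) * E) := by
      have h14 : (2 * d * (q / (2 * d + 2))) ^ 2 ≤ E ^ 2 := by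
        refine pow_le_pow_left₀ (by have := hq.1; positivity) ?_ 2
        rw [hE]
        exact mul_le_mul_of_nonneg_left h2' (by positivity)
      calc P.p ^ 2 * (2 * d) ^ 2 / ((P.mu + 1) * (2 * d + 2) ^ 2) * q ^ 2
          = P.p ^ 2 * (2 * d * (q / (2 * d + 2))) ^ 2 / (P.mu + 1) := by field_simp
        _ ≤ P.p ^ 2 * E ^ 2 / (P.mu + 1) := by gcongr
        _ ≤ _ := by
          exact div_le_div_of_nonneg_left (by positivity) hDenpos hDenle
    have h15 : C2 * s ^ 3 ≤ |C2| * q ^ 3 := by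
      calc C2 * s ^ 3 ≤ |C2| * s ^ 3 := by gcongr; exact le_abs_self _
        _ ≤ |C2| * q ^ 3 := by gcongr
    have h16 : C1 * s * t ≤ |C1| * q ^ 3 := by
      calc C1 * s * t = C1 * (s * t) := by ring
        _ ≤ |C1| * (s * t) := by gcongr; exact le_abs_self _
        _ ≤ |C1| * (q * q ^ 2) := by have := hq.1; gcongr
        _ = |C1| * q ^ 3 := by ring
    rw [hu', hu0]
    rw [hfrac] at h9
    linarith
  obtain ⟨δ', hδ', hanti⟩ := hTaylor f u δ1 _ (|C1| + |C2|) hδ1pos (by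
    have : (0 : ℝ) < d := by linarith
    positivity) hfd hfu hub
  refine ⟨-Real.log δ' + 1, fun x hx y hy hxy => ?_⟩
  have key : ∀ x, -Real.log δ' + 1 ≤ x → Real.exp (-x) ∈ Set.Ioo (0 : ℝ) δ' := by
    intro x hx
    refine ⟨Real.exp_pos _, ?_⟩
    calc Real.exp (-x) < Real.exp (Real.log δ') := Real.exp_lt_exp.2 (by linarith)
      _ = δ' := Real.exp_log hδ'
  have hvu : ∀ x, v x = u (Real.exp (-x)) := by
    intro x
    rw [hv, hu, hf]
    simp only
    rw [sq_ofReal, tq_ofReal, ← nu2_ofReal, ← bias_eq]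
  rw [hvu, hvu]
  exact hanti (key y hy) (key x hx) (Real.exp_lt_exp.2 (by linarith))

end DynPerc
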