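import Pool.Agent.Work.MP_f058f1_pr.Stmts

/-!
# Item A1: the strictly superharmonic function
-/

open MeasureTheory ProbabilityTheory Filter Topology

noncomputable section

namespace DynPerc

lemma phi_tangent (n : ℕ) {x m : ℝ} (hx : 0 ≤ x) (hm : 0 ≤ m) :
    m ^ (n + 1) + (n + 1) * m ^ n * (x - m) ≤ x ^ (n + 1) := by
  rcases hm.eq_or_lt with h | h
  · subst h
    cases n with
    | zero => simp
    | succ n => simp; positivity
  · have hx' : 0 ≤ x / m := div_nonneg hx hm
    have h1 := one_add_mul_le_pow (a := x / m - 1) (by linarith) (n + 1)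
    have h2 : 1 + (x / m - 1) = x / m := by ring
    rw [h2, div_pow, le_div_iff₀ (pow_pos h _)] at h1
    refine le_trans (le_of_eq ?_) h1
    push_cast
    have : x / m * m = x := div_mul_cancel₀ x h.ne'
    rw [pow_succ]
    have e : (1 + ((n : ℝ) + 1) * (x / m - 1)) * (m ^ n * m) =
        m ^ n * m + (n + 1) * m ^ n * (x / m * m - m) := by ring
    rw [e, this]

lemma phi_integrand (K : ℕ) (x : ℝ) : x + (1 - x) * phi K x = 1 - (1 - x) ^ (K + 1) := by
  unfold phi
  ring

lemma phi_ca_lt (P : Par) : ca P < 1 := by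
  have := P.mu_pos
  unfold ca
  rw [div_lt_one (by linarith)]
  linarith

lemma phi_ca_pos (P : Par) : 0 < ca P := by
  have := P.mu_pos
  unfold ca
  positivity

lemma phi_integral (P : Par) (K : ℕ) {G : ℝ} (hG : G ∈ Set.Icc (0 : ℝ) 1) :
    ∫ g, (G * Real.exp (-(P.mu * g)) +
      (1 - G * Real.exp (-(P.mu * g))) * phi K (G * Real.exp (-(P.mu * g)))) ∂clockLaw ≤
      1 - (1 - ca P * G) ^ (K + 1) := by
  have ha := phi_ca_lt P
  have ha0 := phi_ca_pos P
  have hG0 := hG.1
  have hG1 := hG.2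
  have hm : 0 ≤ 1 - ca P * G := by nlinarith
  have e : ∀ g : ℝ, G * Real.exp (-(P.mu * g)) +
      (1 - G * Real.exp (-(P.mu * g))) * phi K (G * Real.exp (-(P.mu * g))) =
      1 - (1 - G * Real.exp (-(P.mu * g))) ^ (K + 1) := fun g => phi_integrand K _
  simp_rw [e]
  have hq := clock_integral_quad P
    (1 - (1 - ca P * G) ^ (K + 1) - (K + 1) * (1 - ca P * G) ^ K * (ca P * G))
    ((K + 1) * (1 - ca P * G) ^ K * G) 0
  have hv : (1 - (1 - ca P * G) ^ (K + 1) - (K + 1) * (1 - ca P * G) ^ K * (ca P * G)) +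
      ((K + 1) * (1 - ca P * G) ^ K * G) * ca P + 0 * ca2 P = 1 - (1 - ca P * G) ^ (K + 1) := by
    ring
  rw [hv] at hq
  rw [← hq]
  refine integral_mono_ae ?_ ?_ ?_
  · refine integrable_clock_of_bound (by fun_prop) (C := 1) fun g hg => ?_
    obtain ⟨h1, h2⟩ := exp_mem (P := P) hg.le
    have h3 : 0 ≤ 1 - G * Real.exp (-(P.mu * g)) := by nlinarith
    have h4 : 1 - G * Real.exp (-(P.mu * g)) ≤ 1 := by nlinarith
    have h5 := pow_nonneg h3 (K + 1)
    have h6 := pow_le_one₀ (n := K + 1) h3 h4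
    rw [abs_le]
    constructor <;> linarith
  · refine integrable_clock_of_bound (by fun_prop)
      (C := |1 - (1 - ca P * G) ^ (K + 1) - (K + 1) * (1 - ca P * G) ^ K * (ca P * G)| +
        |(K + 1) * (1 - ca P * G) ^ K * G|) fun g hg => ?_
    obtain ⟨h1, h2⟩ := exp_mem (P := P) hg.le
    simp only [zero_mul, add_zero]
    refine (abs_add_le _ _).trans (add_le_add le_rfl ?_)
    rw [abs_mul, abs_of_pos h1]
    exact mul_le_of_le_one_right (abs_nonneg _) h2
  · filter_upwards [clock_ae_pos] with g hg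
    obtain ⟨h1, h2⟩ := exp_mem (P := P) hg.le
    have h3 : 0 ≤ 1 - G * Real.exp (-(P.mu * g)) := by nlinarith
    have h4 := phi_tangent K h3 hm
    simp only [zero_mul, add_zero]
    nlinarith [h4]

/-- Item A1. -/
theorem claimPhi : ClaimPhi := by
  intro P
  have hmu := P.mu_pos
  have ha := phi_ca_lt P
  have ha0 := phi_ca_pos P
  obtain ⟨K, hK⟩ := exists_nat_gt (1 / P.mu)
  have hKpos : (0 : ℝ) < K := lt_trans (by positivity) hK
  have hK1 : 1 ≤ K := by
    have : 0 < K := by exact_mod_cast hKpos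
    omega
  have hKmu : 1 < K * P.mu := by
    rw [div_lt_iff₀ hmu] at hK
    exact hK
  have haK : ca P * (K + 1) < K := by
    unfold ca
    rw [div_mul_eq_mul_div, div_lt_iff₀ (by linarith)]
    nlinarith
  -- the function `f`
  set f : ℝ → ℝ := fun x => ∑ i ∈ Finset.range K, x ^ i -
    ca P * ∑ i ∈ Finset.range (K + 1), (1 - ca P + ca P * x) ^ i with hf
  have hcont : Continuous f := by
    rw [hf]
    fun_prop
  have hfpos : ∀ x ∈ Set.Icc (0 : ℝ) 1, 0 < f x := by
    intro x hx
    rcases hx.2.eq_or_lt with h | h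
    · subst h
      simp only [hf]
      have : (1 - ca P + ca P * 1) = 1 := by ring
      rw [this]
      simp only [one_pow, Finset.sum_const, Finset.card_range, nsmul_eq_mul, mul_one]
      push_cast
      linarith
    · have h1 : 0 < 1 - x := by linarith
      have hx0 := hx.1
      refine pos_of_mul_pos_right (a := 1 - x) ?_ h1.le
      have e1 : (1 - x) * f x = (1 - ca P + ca P * x) ^ (K + 1) - x ^ K := by
        have g1 := mul_neg_geom_sum x K
        have g2 := mul_neg_geom_sum (1 - ca P + ca P * x) (K + 1)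
        simp only [hf]
        rw [mul_sub, g1]
        have : (1 - x) * (ca P * ∑ i ∈ Finset.range (K + 1), (1 - ca P + ca P * x) ^ i) =
            (1 - (1 - ca P + ca P * x)) *
              ∑ i ∈ Finset.range (K + 1), (1 - ca P + ca P * x) ^ i := by ring
        rw [this, g2]
        ring
      rw [e1]
      have hK2 : (0 : ℝ) < K + 1 := by linarith
      have ht0 : 0 ≤ x + (1 - x) / (K + 1) := by positivity
      have ht : x + (1 - x) / (K + 1) < 1 - ca P + ca P * x := by
        have : ca P < K / (K + 1) := by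
          rw [lt_div_iff₀ hK2]
          exact haK
        have h2 : (1 - x) / ((K : ℝ) + 1) = (1 - x) * (1 - K / (K + 1)) := by
          field_simp
          ring
        rw [h2]
        nlinarith
      have h3 := phi_tangent K ht0 hx0
      have h4 : x ^ (K + 1) + (K + 1) * x ^ K * (x + (1 - x) / (K + 1) - x) = x ^ K := by
        field_simp
        ring
      rw [h4] at h3
      have h5 : (x + (1 - x) / ((K : ℝ) + 1)) ^ (K + 1) < (1 - ca P + ca P * x) ^ (K + 1) :=
        pow_lt_pow_left₀ ht ht0 (by omega)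
      linarith
  obtain ⟨x0, hx0, hmin⟩ := isCompact_Icc.exists_isMinOn (s := Set.Icc (0 : ℝ) 1)
    ⟨0, by simp⟩ hcont.continuousOn
  have hδ := hfpos x0 hx0
  have hmin' : ∀ x ∈ Set.Icc (0 : ℝ) 1, f x0 ≤ f x := fun x hx => hmin hx
  have hsum : ∀ x ∈ Set.Icc (0 : ℝ) 1, 0 ≤ ∑ i ∈ Finset.range K, x ^ i ∧
      ∑ i ∈ Finset.range K, x ^ i ≤ K := by
    intro x hx
    refine ⟨Finset.sum_nonneg fun i _ => pow_nonneg hx.1 i, ?_⟩
    have := Finset.sum_le_card_nsmul (Finset.range K) (fun i => x ^ i) 1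
      fun i _ => pow_le_one₀ hx.1 hx.2
    simpa using this
  refine ⟨K, max 0 (1 - f x0 / K), hK1, le_max_left _ _, ?_, ?_⟩
  · refine max_lt one_pos ?_
    have : 0 < f x0 / K := by positivity
    linarith
  · intro G hG
    refine (phi_integral P K hG).trans ?_
    have hx : 1 - G ∈ Set.Icc (0 : ℝ) 1 := ⟨by linarith [hG.2], by linarith [hG.1]⟩
    have g1 := mul_neg_geom_sum (1 - G) K
    have g2 := mul_neg_geom_sum (1 - ca P * G) (K + 1)
    have h1 := hmin' _ hx
    obtain ⟨h2, h3⟩ := hsum _ hx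
    have hy : 1 - ca P + ca P * (1 - G) = 1 - ca P * G := by ring
    have h4 : f (1 - G) = ∑ i ∈ Finset.range K, (1 - G) ^ i -
        ca P * ∑ i ∈ Finset.range (K + 1), (1 - ca P * G) ^ i := by
      simp only [hf, hy]
    unfold phi
    rw [← g1, ← g2]
    have h5 : (1 - (1 - ca P * G)) * ∑ i ∈ Finset.range (K + 1), (1 - ca P * G) ^ i =
        G * (ca P * ∑ i ∈ Finset.range (K + 1), (1 - ca P * G) ^ i) := by ring
    have h6 : max 0 (1 - f x0 / K) * ((1 - (1 - G)) * ∑ i ∈ Finset.range K, (1 - G) ^ i) =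
        G * (max 0 (1 - f x0 / K) * ∑ i ∈ Finset.range K, (1 - G) ^ i) := by ring
    rw [h5, h6]
    refine mul_le_mul_of_nonneg_left ?_ hG.1
    have h7 : (1 - f x0 / K) * ∑ i ∈ Finset.range K, (1 - G) ^ i ≤
        max 0 (1 - f x0 / K) * ∑ i ∈ Finset.range K, (1 - G) ^ i :=
      mul_le_mul_of_nonneg_right (le_max_right _ _) h2
    refine le_trans ?_ h7
    have h8 : f x0 / K * ∑ i ∈ Finset.range K, (1 - G) ^ i ≤ f x0 := by
      have : f x0 / K * ∑ i ∈ Finset.range K, (1 - G) ^ i ≤ f x0 / K * K :=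
        mul_le_mul_of_nonneg_left h3 (by positivity)
      rwa [div_mul_cancel₀ _ hKpos.ne'] at this
    linarith

end DynPerc
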