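import Pool.Agent.Work.MP_f058f1_pr.Core

/-!
# Statements of the items of MP_f058f1_pr
Every `Claim…` is one self-contained item; see the helpwanted rows for the proofs.
-/

open MeasureTheory ProbabilityTheory Filter Topology

noncomputable section

namespace DynPerc

variable {d : ℕ}

/-! ## A. Forgetting of the initial memory, uniformly in the directions -/

/-- The weight `1 - (1 - Γ)^K`. -/
def phi (K : ℕ) (G : ℝ) : ℝ := 1 - (1 - G) ^ K

/-- `phi K` is strictly superharmonic for the chain `Γ → Γγ` with probability `1 - Γγ`, `Γ → 1` with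
probability `Γγ`, `γ = exp(-μ g)`. -/
def PhiIneq (P : Par) (K : ℕ) (ρ : ℝ) : Prop :=
  1 ≤ K ∧ 0 ≤ ρ ∧ ρ < 1 ∧ ∀ G ∈ Set.Icc (0 : ℝ) 1,
    ∫ g, (G * Real.exp (-(P.mu * g)) +
      (1 - G * Real.exp (-(P.mu * g))) * phi K (G * Real.exp (-(P.mu * g)))) ∂clockLaw ≤
      ρ * phi K G

/-- Item A1. -/
def ClaimPhi : Prop := ∀ P : Par, ∃ (K : ℕ) (ρ : ℝ), PhiIneq P K ρ

/-- Two memories differ only at edges where both are small. -/
def Rel (P : Par) (G : ℝ) (S S' : St d) : Prop :=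
  ∀ e, S e = S' e ∨ ((-(P.p * G) ≤ S e ∧ S e ≤ (1 - P.p) * G) ∧
    (-(P.p * G) ≤ S' e ∧ S' e ≤ (1 - P.p) * G))

/-- Bound of the influence of the initial memory on `f`. -/
def Bd (P : Par) (K : ℕ) (f : St d → ℝ) (c : ℝ) : Prop :=
  ∀ G ∈ Set.Icc (0 : ℝ) 1, ∀ S S' : St d, Valid P S → Valid P S' → Rel P G S S' →
    |f S - f S'| ≤ c * phi K G

/-- Item A2. -/
def ClaimContr : Prop :=
  ∀ (P : Par) (d K : ℕ) (ρ : ℝ), PhiIneq P K ρ →
    (∀ (i : Fin (d + 1)) (b : Dir d), Bd P K (hh P i b) 1) ∧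
    (∀ (f : St d → ℝ) (c : ℝ), 0 ≤ c → Reg P f → Bd P K f c → ∀ a, Bd P K (opT P a f) (ρ * c))

/-- Expected increment of the coordinate `i` at ring number `l.length`, if the directions are the
elements of `l` followed by `b`, as a function of the initial memory. -/
def GG (P : Par) (i : Fin (d + 1)) (b : Dir d) : List (Dir d) → St d → ℝ
  | [] => hh P i b
  | a :: l => opT P a (GG P i b l)

/-- Expected increment of the coordinate `i` at ring number `k`: a polynomial of the direction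
weights, which may be complex. -/
def PkC (P : Par) (i : Fin (d + 1)) (k : ℕ) (ν : Dir d → ℂ) : ℂ :=
  ∑ l : Fin k → Dir d, ∑ b, (∏ j, ν (l j)) * ν b * ((GG P i b (List.ofFn l) 0 : ℝ) : ℂ)

/-- Item A3. The speed is holomorphic along holomorphic curves of complex direction weights. -/
def ClaimHolo : Prop :=
  ∀ (P : Par) (d : ℕ) (i : Fin (d + 1)), ∃ r > (1 : ℝ), ∃ C : ℝ, ∃ V : (Dir d → ℂ) → ℂ,
    (∀ ν : Dir d → ℂ, ∑ a, ν a = 1 → ∑ a, ‖ν a‖ ≤ r →
      Tendsto (fun k => PkC P i k ν) atTop (𝓝 (V ν)) ∧ ‖V ν‖ ≤ C) ∧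
    (∀ (U : Set ℂ) (c : ℂ → Dir d → ℂ), IsOpen U → (∀ a, DifferentiableOn ℂ (fun z => c z a) U) →
      (∀ z ∈ U, ∑ a, c z a = 1) → (∀ z ∈ U, ∑ a, ‖c z a‖ ≤ r) →
      DifferentiableOn ℂ (fun z => V (c z)) U)

/-- Item A4. For real weights the polynomial is the iterate of the transition operator. -/
def ClaimReal : Prop :=
  ∀ (P : Par) (d : ℕ) (i : Fin (d + 1)) (ν : Dir d → ℝ) (k : ℕ),
    PkC P i k (fun a => (ν a : ℂ)) = ((((opN P ν)^[k] (hN P ν i)) 0 : ℝ) : ℂ)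

/-- Item A5. Exponential convergence of the expected increments. -/
def ClaimRates : Prop :=
  ∀ (P : Par) (d : ℕ) (ν : stdSimplex ℝ (Dir d)) (i : Fin (d + 1)), ∃ V C ρ : ℝ, 0 ≤ C ∧ 0 ≤ ρ ∧
    ρ < 1 ∧ ∀ (k : ℕ) (S : St d), Valid P S → |((opN P ν.1)^[k] (hN P ν.1 i)) S - V| ≤ C * ρ ^ k

/-- Item A6. By reflection the expected increments of the lateral coordinates vanish. -/
def ClaimRefl : Prop :=
  ∀ (P : Par) (d : ℕ) (i : Fin (d + 1)), i ≠ 0 → ∀ (lam : ℝ) (k : ℕ),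
    ((opN P (bias d lam).1)^[k] (hN P (bias d lam).1 i)) 0 = 0

/-! ## B. The graphical construction has the law of the chain -/

/-- Value of the memory of one edge at time `t`, if the list `l` contains the times and outcomes of
its examinations, the last one first. -/
def memVal (P : Par) : List (ℝ × Bool) → ℝ → ℝ
  | [], _ => 0
  | (τ, b) :: _, t => (if b then 1 - P.p else -P.p) * Real.exp (-(P.mu * (t - τ)))

/-- Probability of the outcomes `l` (times and states, the last one first) for one edge. -/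
def edgeW (P : Par) : List (ℝ × Bool) → ℝ
  | [] => 1
  | (t, b) :: l => (if b then P.p + memVal P l t else 1 - P.p - memVal P l t) * edgeW P l

/-- Item B1. Finite dimensional distributions of one edge (a two-state Markov chain). -/
def ClaimEdge : Prop :=
  ∀ (P : Par) (l : List (ℝ × Bool)), l.Pairwise (fun x y => y.1 ≤ x.1) → (∀ x ∈ l, 0 ≤ x.1) →
    (edgeLaw P).real {c | ∀ x ∈ l, edgeState c x.1 = x.2} = edgeW P l

/-- Item B2. Measurability of the graphical construction. -/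
def ClaimMeas : Prop :=
  (Measurable fun q : (ℕ → ℝ) × ℝ => count q.1 q.2) ∧
  (Measurable fun q : (ℕ → ℝ × Bool) × ℝ => edgeState q.1 q.2) ∧
  (∀ (d n : ℕ), Measurable fun ω : (Edge d → ℕ → ℝ × Bool) × (ℕ → ℝ × Dir d) =>
    pos ω.1 ω.2 n)

/-- Position after the outcomes `o`. -/
def rpos (w : ℕ → ℝ × Dir d) (o : ℕ → Bool) : ℕ → Site d
  | 0 => 0
  | k + 1 => if o k then rpos w o k + stepVec (w k).2 else rpos w o k

/-- Memory after the outcomes `o`. -/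
def rmem (P : Par) (w : ℕ → ℝ × Dir d) (o : ℕ → Bool) : ℕ → St d
  | 0 => 0
  | k + 1 => next P (rmem P w o k) (w k).2 (w k).1 (o k)

/-- Probability of the outcome `o` of the next ring. -/
def wt (P : Par) (S : St d) (a : Dir d) (g : ℝ) (o : Bool) : ℝ :=
  if o then pOpen P S a g else 1 - pOpen P S a g

/-- Item B3. Law of the outcomes for a given clock and given directions. -/
def ClaimEnv : Prop :=
  ∀ (P : Par) (d : ℕ) (w : ℕ → ℝ × Dir d) (o : ℕ → Bool), (∀ n, 0 ≤ (w n).1) → ∀ n : ℕ,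
    (envLaw P d).real {η | ∀ l < n,
      edgeState (η (edgeOf (rpos w o l) (w l).2)) (ringTime w l) = o l} =
    ∏ l ∈ Finset.range n, wt P (rmem P w o l) (w l).2 (w l).1 (o l)

/-- Memory of the graphical construction after `k` rings. -/
def memory (P : Par) (η : Edge d → ℕ → ℝ × Bool) (w : ℕ → ℝ × Dir d) : ℕ → St d
  | 0 => 0
  | k + 1 => next P (memory P η w k) (w k).2 (w k).1
      (edgeState (η (edgeOf (pos η w k) (w k).2)) (ringTime w k))

/-- Item B4. Resampling one coordinate of an iid sequence. -/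
def ClaimInd : Prop :=
  ∀ (X : Type) [MeasurableSpace X] (κ : Measure X) [IsProbabilityMeasure κ] (n : ℕ),
    Measure.map (fun q : X × (ℕ → X) => Function.update q.2 n q.1)
      (κ.prod (Measure.infinitePi fun _ : ℕ => κ)) = Measure.infinitePi fun _ : ℕ => κ

/-- Item B5. Markov property. -/
def ClaimStep : Prop :=
  ∀ (P : Par) (d : ℕ) (ν : stdSimplex ℝ (Dir d)) (F : Site d → St d → ℝ), (∀ x, Reg P (F x)) →
    ∀ n : ℕ,
      Integrable (fun ω => F (pos ω.1 ω.2 n) (memory P ω.1 ω.2 n)) (law P ν) ∧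
      ∫ ω, F (pos ω.1 ω.2 (n + 1)) (memory P ω.1 ω.2 (n + 1)) ∂(law P ν) =
        ∫ ω, opXN P ν.1 F (pos ω.1 ω.2 n) (memory P ω.1 ω.2 n) ∂(law P ν)

/-! ## C. Law of large numbers -/

/-- Item C1. -/
def ClaimVar : Prop :=
  ∀ (P : Par) (d : ℕ) (ν : stdSimplex ℝ (Dir d)) (i : Fin (d + 1)), ∃ V C : ℝ,
    Tendsto (fun k => ((opN P ν.1)^[k] (hN P ν.1 i)) 0) atTop (𝓝 V) ∧
    ∀ n : ℕ, ∫ ω, ((pos ω.1 ω.2 n i : ℝ) - n * V) ^ 2 ∂(law P ν) ≤ C * (n + 1)

/-- Item C2. -/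
def ClaimLLN : Prop :=
  ∀ (Ω : Type) [MeasurableSpace Ω] (μ : Measure Ω) [IsProbabilityMeasure μ] (X : ℕ → Ω → ℝ)
    (V C : ℝ), (∀ n, Measurable (X n)) → (∀ ω, X 0 ω = 0) →
    (∀ n ω, |X (n + 1) ω - X n ω| ≤ 1) → (∀ n : ℕ, ∫ ω, (X n ω - n * V) ^ 2 ∂μ ≤ C * (n + 1)) →
    ∀ᵐ ω ∂μ, Tendsto (fun n : ℕ => X n ω / n) atTop (𝓝 V)

/-- Item C3. -/
def ClaimClock : Prop :=
  ∀ (d : ℕ) (ν : stdSimplex ℝ (Dir d)), ∀ᵐ w ∂(walkLaw ν),
    Tendsto (fun t : ℝ => (count (fun j => (w j).1) t : ℝ) / t) atTop (𝓝 1)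

/-! ## D. The weights near always right -/

/-- Direction weights: `s` for each of the `2d` lateral directions, `t` for `-e_1`, the rest for
`+e_1`. -/
def nu2 {R : Type*} [Ring R] (d : ℕ) (s t : R) : Dir d → R :=
  fun a => if a.1 = 0 then (if a.2 then 1 - 2 * (d : R) * s - t else t) else s

/-- Item D1. Among the walks without lateral moves the one without left moves is the fastest. -/
def ClaimLeft : Prop :=
  ∀ (P : Par) (d : ℕ) (ν ν0 : stdSimplex ℝ (Dir d)), (∀ a, a.1 ≠ 0 → ν.1 a = 0) →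
    ν0.1 (0, true) = 1 → ∀ n : ℕ,
    ∫ ω, (pos ω.1 ω.2 n 0 : ℝ) ∂(law P ν) ≤ ∫ ω, (pos ω.1 ω.2 n 0 : ℝ) ∂(law P ν0)

/-- Invariant of the walk without left moves. -/
def Inv (P : Par) (S : St d) : Prop :=
  Valid P S ∧ (∀ e : Edge d, 0 < e.1 0 → S e = 0) ∧ (∀ y : Site d, y 0 = 0 → S (y, 0) ≤ 0)

/-- In the current hyperplane only the right edge at the position of the walker may be known. -/
def Clean (S : St d) : Prop :=
  (∀ (y : Site d) (i : Fin (d + 1)), y 0 = 0 → i ≠ 0 → S (y, i) = 0) ∧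
  (∀ y : Site d, y 0 = 0 → y ≠ 0 → S (y, 0) = 0)

/-- Conditional expectation of the decrease of the probability that the right edge is open. -/
def YY (P : Par) (S : St d) : ℝ := -(ca P / P.p) * S (0, 0)

open Classical in
/-- Indicator of the states which are not clean. -/
def NN (S : St d) : ℝ := if Clean S then 0 else 1

/-- The lateral directions. -/
def lat (d : ℕ) : Finset (Dir d) := Finset.univ.filter fun a => a.1 ≠ 0

/-- The correlation of the lateral edges with the right edge. -/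
def FF (A B : ℝ) (S : St d) : ℝ := (∑ b ∈ lat d, S (edgeOf 0 b)) * (A + B * S (0, 0))

/-- Item D2. One-step facts for the walk without left moves. -/
def ClaimOne : Prop :=
  ∀ (P : Par) (d : ℕ),
    (Reg P (NN : St d → ℝ)) ∧
    (∀ S : St d, Inv P S → ∀ a : Dir d, a ≠ (0, false) → ∀ g > 0, ∀ o, Inv P (next P S a g o)) ∧
    (∀ S : St d, Inv P S → opT P (0, true) (YY P) S = ca P * (1 - P.p + P.p * YY P S)) ∧
    (∀ S : St d, Inv P S → ∀ b ∈ lat d,
      ((1 - P.p) * ca P - ca2 P * S (edgeOf 0 b)) * YY P S ≤ opT P b (YY P) S) ∧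
    (∀ (A B : ℝ) (S : St d), Inv P S → opT P (0, true) (FF A B) S =
      FF ((A - B * P.p) * ((1 - P.p) * ca P)) (-((A - B * P.p) * ca2 P)) S) ∧
    (∀ (A B : ℝ) (S : St d), B ≤ 0 → Inv P S → Clean S → ∀ b ∈ lat d,
      opT P b (FF A B) S ≤ 0) ∧
    (∀ S : St d, Inv P S → opT P (0, true) NN S ≤ (1 - P.p * (1 - ca P)) * NN S)

/-- Item D3. The upper bound of the speed with small lateral weights. -/
def ClaimLat : Prop :=
  ∀ (P : Par) (d : ℕ),
    (∃ C s0 : ℝ, 0 < s0 ∧ ∀ s ∈ Set.Icc (0 : ℝ) s0, ∀ L : ℝ,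
      Tendsto (fun k => ((opN P (nu2 d s 0))^[k] (hN P (nu2 d s 0) 0)) 0) atTop (𝓝 L) →
      L ≤ (1 - 2 * d * s) * P.p * (P.mu + P.p * (2 * d * s)) /
        (P.mu + 1 - P.p + (2 * P.p - 1) * (2 * d * s)) + C * s ^ 3) ∧
    (∀ L : ℝ,
      Tendsto (fun k => ((opN P (nu2 d (0 : ℝ) 0))^[k] (hN P (nu2 d (0 : ℝ) 0) 0)) 0) atTop
        (𝓝 L) → L = P.p * P.mu / (P.mu + 1 - P.p))

/-! ## E. Complex analysis -/

/-- Item E1. -/
def ClaimSchw : Prop :=
  ∀ (W : ℂ → ℂ → ℂ) (δ C : ℝ), 0 < δ →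
    (∀ t ∈ Metric.ball (0 : ℂ) δ, DifferentiableOn ℂ (fun s => W s t) (Metric.ball 0 δ)) →
    (∀ s ∈ Metric.ball (0 : ℂ) δ, DifferentiableOn ℂ (fun t => W s t) (Metric.ball 0 δ)) →
    (∀ s ∈ Metric.ball (0 : ℂ) δ, ∀ t ∈ Metric.ball (0 : ℂ) δ, ‖W s t‖ ≤ C) →
    ∀ s ∈ Metric.ball (0 : ℂ) δ, ∀ t ∈ Metric.ball (0 : ℂ) δ,
      ‖W s t - W s 0 - W 0 t + W 0 0‖ ≤ 4 * C / δ ^ 2 * ‖s‖ * ‖t‖

/-- Item E2. -/
def ClaimTaylor : Prop :=
  ∀ (f : ℂ → ℂ) (u : ℝ → ℝ) (δ c C : ℝ), 0 < δ → 0 < c →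
    DifferentiableOn ℂ f (Metric.ball 0 δ) →
    (∀ q ∈ Set.Ico (0 : ℝ) δ, f (q : ℂ) = ((u q : ℝ) : ℂ)) →
    (∀ q ∈ Set.Ico (0 : ℝ) δ, u q ≤ u 0 - c * q ^ 2 + C * q ^ 3) →
    ∃ δ' > 0, StrictAntiOn u (Set.Ioo 0 δ')

end DynPerc
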